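import Pool.Agent.Lib.MP_0d9d33_an.Defs

/-!
# Averages over signs
-/

set_option autoImplicit false

namespace LFS

/-- the sign of a Boolean -/
def sg (b : Bool) : ℝ := if b then 1 else -1

/-- average over all sign lists of length `n` -/
noncomputable def Av : ℕ → (List Bool → ℝ) → ℝ
  | 0, G => G []
  | n + 1, G => (Av n (fun e => G (true :: e)) + Av n (fun e => G (false :: e))) / 2

theorem Av_add (n : ℕ) (G H : List Bool → ℝ) : Av n (fun e => G e + H e) = Av n G + Av n H := by
  induction n generalizing G H with
  | zero => rfl
  | succ n ih => simp only [Av, ih]; ring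

theorem Av_smul (n : ℕ) (c : ℝ) (G : List Bool → ℝ) : Av n (fun e => c * G e) = c * Av n G := by
  induction n generalizing G with
  | zero => rfl
  | succ n ih => simp only [Av, ih]; ring

theorem Av_sub (n : ℕ) (G H : List Bool → ℝ) : Av n (fun e => G e - H e) = Av n G - Av n H := by
  induction n generalizing G H with
  | zero => rfl
  | succ n ih => simp only [Av, ih]; ring

theorem Av_const (n : ℕ) (c : ℝ) : Av n (fun _ => c) = c := by
  induction n with
  | zero => rfl
  | succ n ih => simp only [Av, ih]; ring

theorem Av_mono (n : ℕ) {G H : List Bool → ℝ} (h : ∀ e, e.length = n → G e ≤ H e) :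
    Av n G ≤ Av n H := by
  induction n generalizing G H with
  | zero => exact h [] rfl
  | succ n ih =>
    simp only [Av]
    have h1 := ih (G := fun e => G (true :: e)) (H := fun e => H (true :: e))
      (fun e he => h _ (by simp [he]))
    have h2 := ih (G := fun e => G (false :: e)) (H := fun e => H (false :: e))
      (fun e he => h _ (by simp [he]))
    linarith

theorem Av_congr (n : ℕ) {G H : List Bool → ℝ} (h : ∀ e, e.length = n → G e = H e) :
    Av n G = Av n H :=
  le_antisymm (Av_mono n fun e he => (h e he).le) (Av_mono n fun e he => (h e he).ge)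

theorem exists_ge_Av (n : ℕ) (G : List Bool → ℝ) : ∃ e : List Bool, e.length = n ∧ Av n G ≤ G e := by
  induction n generalizing G with
  | zero => exact ⟨[], rfl, le_rfl⟩
  | succ n ih =>
    obtain ⟨e1, h1, h2⟩ := ih (fun e => G (true :: e))
    obtain ⟨e2, h3, h4⟩ := ih (fun e => G (false :: e))
    simp only [Av]
    by_cases h : Av n (fun e => G (true :: e)) ≤ Av n (fun e => G (false :: e))
    · exact ⟨false :: e2, by simp [h3], by linarith⟩
    · exact ⟨true :: e1, by simp [h1], by linarith⟩

/-- average of the norm of `v + ∑ ± d` -/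
noncomputable def US {W : Type*} [NormedAddCommGroup W] : List W → W → ℝ
  | [], v => ‖v‖
  | d :: C, v => (US C (v + d) + US C (v - d)) / 2

theorem US_ge {W : Type*} [NormedAddCommGroup W] [NormedSpace ℝ W] (C : List W) (v : W) :
    ‖v‖ ≤ US C v := by
  induction C generalizing v with
  | nil => exact le_rfl
  | cons d C ih =>
    simp only [US]
    have h1 := ih (v + d)
    have h2 := ih (v - d)
    have h3 : ‖v + v‖ ≤ ‖v + d‖ + ‖v - d‖ := by
      have := norm_add_le (v + d) (v - d)
      have e : v + d + (v - d) = v + v := by abel
      rwa [e] at this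
    have h4 : ‖v + v‖ = 2 * ‖v‖ := by
      rw [← two_smul ℝ v, norm_smul]
      norm_num
    linarith

end LFS
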