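import Pool.Agent.Lib.MP_0d9d33_an.Nets

/-!
# A seminormalised weakly null sequence is normed by functions of small supremum norm
-/

set_option autoImplicit false

namespace LFS

open Filter Topology

open scoped Classical

variable {X : Type*} [NormedAddCommGroup X]

/-- a finite `r`-net (on a finite set) of the 1-Lipschitz functions vanishing at 0 -/
theorem finite_net (S : Finset X) {r : ℝ} (hr : 0 < r) :
    ∃ T : Finset (X → ℝ), (∀ u ∈ T, Lipc 1 u) ∧
      ∀ h : X → ℝ, Lipc 1 h → h 0 = 0 → ∃ u ∈ T, ∀ s ∈ S, |h s - u s| ≤ r := by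
  set A : Set (S → ℝ) := {v | ∃ h : X → ℝ, Lipc 1 h ∧ h 0 = 0 ∧ v = fun s : S => h s} with hA
  have hb : Bornology.IsBounded A := by
    rw [isBounded_iff_forall_norm_le]
    refine ⟨rad S, ?_⟩
    rintro v ⟨h, h1, h2, rfl⟩
    rw [pi_norm_le_iff_of_nonneg (rad_nonneg S)]
    intro s
    have h3 := h1 s 0
    rw [h2, sub_zero, sub_zero, one_mul] at h3
    exact h3.trans (le_rad s.2)
  have ht : TotallyBounded A := by
    have h1 : IsCompact (closure A) := hb.isCompact_closure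
    exact h1.totallyBounded.subset subset_closure
  obtain ⟨t, htA, htf, hcov⟩ := Metric.finite_approx_of_totallyBounded ht r hr
  have hch : ∀ v : S → ℝ, v ∈ t → ∃ h : X → ℝ, Lipc 1 h ∧ h 0 = 0 ∧ v = fun s : S => h s :=
    fun v hv => htA hv
  choose! F hF using hch
  refine ⟨htf.toFinset.image F, ?_, ?_⟩
  · intro u hu
    obtain ⟨v, hv, rfl⟩ := Finset.mem_image.1 hu
    exact (hF v (htf.mem_toFinset.1 hv)).1
  · intro h h1 h2
    have h3 : (fun s : S => h s) ∈ ⋃ y ∈ t, Metric.ball y r := hcov ⟨h, h1, h2, rfl⟩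
    rw [Set.mem_iUnion₂] at h3
    obtain ⟨v, hv, hvr⟩ := h3
    refine ⟨F v, Finset.mem_image.2 ⟨v, htf.mem_toFinset.2 hv, rfl⟩, ?_⟩
    intro s hs
    rw [Metric.mem_ball, dist_pi_lt_iff hr] at hvr
    have h4 := hvr ⟨s, hs⟩
    rw [Real.dist_eq] at h4
    have h5 : v ⟨s, hs⟩ = F v s := congrFun (hF v hv).2.2 ⟨s, hs⟩
    rw [h5] at h4
    exact h4.le

/-- small norming functions -/
theorem small {μ : ℕ → X →₀ ℝ} (hμ : WN μ) {δ : ℝ} (hδ : 0 < δ)
    (hn : ∀ n, ∃ f : X → ℝ, Lipc 1 f ∧ δ ≤ pr (μ n) f) {r : ℝ} (hr : 0 < r) :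
    ∃ n0, ∀ n, n0 ≤ n → ∃ t : X → ℝ, Lipc 2 t ∧ (∀ x, |t x| ≤ r) ∧ δ * (3 / 4) ≤ pr (μ n) t := by
  obtain ⟨S, h0, hS⟩ := nets hμ (show 0 < δ / 32 by linarith) (show 0 < r / 3 by linarith)
  obtain ⟨T, hT1, hT2⟩ := finite_net S (show 0 < r / 3 by linarith)
  have hev : ∀ᶠ n in atTop, ∀ u ∈ T, |pr (μ n) u| < δ / 8 := by
    rw [Filter.eventually_all_finset]
    intro u hu
    have h1 := (hμ 1 u (hT1 u hu)).abs
    rw [abs_zero] at h1
    exact (tendsto_order.1 h1).2 _ (by linarith)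
  obtain ⟨n0, hn0⟩ := eventually_atTop.1 hev
  refine ⟨n0, fun n hn' => ?_⟩
  obtain ⟨f, hf1, hf2⟩ := hn n
  set h : X → ℝ := fun x => f x - f 0 with hh
  have hh1 : Lipc 1 h := by
    have := hf1.sub (Lipc.const (f 0))
    simpa using this
  have hh2 : pr (μ n) h = pr (μ n) f := by
    unfold pr
    refine Finsupp.sum_congr fun x _ => ?_
    simp only [hh]
    ring
  obtain ⟨u, hu1, hu2⟩ := hT2 h hh1 (by simp [hh])
  set g : X → ℝ := fun x => h x - u x with hg
  have hg1 : Lipc 2 g := by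
    have := hh1.sub (hT1 u hu1)
    norm_num at this
    exact this
  set t : X → ℝ := fun x => cl r (g x) with ht
  have ht1 : Lipc 2 t := hg1.cl ((Lipc.const r).mono (by norm_num))
  refine ⟨t, ht1, fun x => cl_abs hr.le _, ?_⟩
  -- `g - t` vanishes near `S`
  have hgt : Lipc 1 (fun x => (1 / 4) * (g x - t x)) := by
    have := (hg1.sub ht1).smul (1 / 4)
    norm_num at this
    simpa using this
  have h3 := hS n _ hgt (by
    rintro x ⟨s, hs, hxs⟩
    have h4 : |g x| ≤ r := by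
      have h5 := hg1 x s
      have h6 := hu2 s hs
      have h7 : |g x| ≤ |g x - g s| + |g s| := by
        have := abs_add_le (g x - g s) (g s)
        simpa using this
      have h8 : |g s| ≤ r / 3 := h6
      linarith
    have h9 : t x = g x := cl_eq h4
    rw [h9]
    ring)
  rw [pr_smul_right, pr_sub_right] at h3
  have h10 : pr (μ n) g = pr (μ n) h - pr (μ n) u := pr_sub_right _ _ _
  have h11 := abs_lt.1 (hn0 n hn' u hu1)
  linarith

end LFS
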