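import Pool.Agent.Lib.MP_0d9d33_an.Core
import Pool.Agent.Lib.MP_0d9d33_an.Small

/-!
# The main construction
-/

set_option autoImplicit false

namespace LFS

open Filter Topology

open scoped Classical

variable {X : Type*} [NormedAddCommGroup X] [NormedSpace ℝ X]

/-- smooth approximation on finite sets: bounded 2-Lipschitz functions can be replaced by
uniformly differentiable functions with derivative of norm at most `Λ` -/
def SMX (X : Type*) [NormedAddCommGroup X] [NormedSpace ℝ X] (Λ : ℝ) : Prop :=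
  ∀ (t : X → ℝ) (r : ℝ), 0 < r → Lipc 2 t → (∀ x, |t x| ≤ r) → ∀ (S : Finset X) (θ : ℝ), 0 < θ →
    ∃ (f : X → ℝ) (D : X → (X →L[ℝ] ℝ)), Sm Λ (2 * r) f D ∧ ∀ x ∈ S, |f x - t x| ≤ θ

/-- averages of norms of signed sums of at most `N` functionals -/
def KN (X : Type*) [NormedAddCommGroup X] [NormedSpace ℝ X] (N : ℕ) (K : ℝ) : Prop :=
  ∀ C : List (X →L[ℝ] ℝ), C.length ≤ N → ∀ ρ : ℝ, 0 ≤ ρ → (∀ v ∈ C, ‖v‖ ≤ ρ) → US C 0 ≤ ρ * K

theorem pick {μ : ℕ → X →₀ ℝ} (hμ : WN μ) {δ Λ : ℝ} (hδ : 0 < δ)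
    (hn : ∀ n, ∃ f : X → ℝ, Lipc 1 f ∧ δ ≤ pr (μ n) f) (hX : SMX X Λ) {r : ℝ} (hr : 0 < r) :
    ∃ n0, ∀ n, n0 ≤ n → ∃ (f : X → ℝ) (D : X → (X →L[ℝ] ℝ)), Sm Λ r f D ∧
      δ / 2 ≤ pr (μ n) f := by
  obtain ⟨n0, h0⟩ := small hμ hδ hn (show 0 < r / 2 by linarith)
  refine ⟨n0, fun n hn' => ?_⟩
  obtain ⟨t, ht1, ht2, ht3⟩ := h0 n hn'
  have hm := tm_nonneg (μ n)
  obtain ⟨f, D, hS, hf⟩ := hX t (r / 2) (by linarith) ht1 ht2 ((μ n).support ∪ {0})
    (δ / (8 * (tm (μ n) + 1))) (by positivity)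
  refine ⟨f, D, ?_, ?_⟩
  · have e : 2 * (r / 2) = r := by ring
    rwa [e] at hS
  · have h1 : |pr (μ n) (fun x => f x - t x)| ≤ 2 * tm (μ n) * (δ / (8 * (tm (μ n) + 1))) :=
      abs_pr_le' _ (fun x hx => hf x (Finset.mem_union_left _ hx))
        (hf 0 (Finset.mem_union_right _ (by simp)))
    have h2 : 2 * tm (μ n) * (δ / (8 * (tm (μ n) + 1))) ≤ δ / 4 := by
      rw [mul_div_assoc', div_le_iff₀ (by positivity)]
      nlinarith
    rw [pr_sub_right] at h1
    have h3 := abs_le.1 h1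
    linarith

theorem exists_small (c1 c2 c3 b1 b2 b3 : ℝ) (h1 : 0 ≤ c1) (h2 : 0 ≤ c2) (h3 : 0 ≤ c3)
    (hb1 : 0 < b1) (hb2 : 0 < b2) (hb3 : 0 < b3) :
    ∃ r : ℝ, 0 < r ∧ c1 * r ≤ b1 ∧ c2 * r ≤ b2 ∧ c3 * r ≤ b3 := by
  have key : ∀ c b r : ℝ, 0 ≤ c → 0 < b → r ≤ b / (c + 1) → c * r ≤ b := by
    intro c b r hc hb hr
    have h5 : c * r ≤ c * (b / (c + 1)) := mul_le_mul_of_nonneg_left hr hc
    have h6 : c * (b / (c + 1)) ≤ b := by
      rw [mul_div_assoc', div_le_iff₀ (by linarith)]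
      nlinarith
    linarith
  refine ⟨min (b1 / (c1 + 1)) (min (b2 / (c2 + 1)) (b3 / (c3 + 1))), ?_, ?_, ?_, ?_⟩
  · refine lt_min (by positivity) (lt_min (by positivity) (by positivity))
  · exact key _ _ _ h1 hb1 (min_le_left _ _)
  · exact key _ _ _ h2 hb2 ((min_le_right _ _).trans (min_le_left _ _))
  · exact key _ _ _ h3 hb3 ((min_le_right _ _).trans (min_le_right _ _))

omit [NormedSpace ℝ X] in
theorem pr_Av (μ : X →₀ ℝ) (n : ℕ) (g : List Bool → X → ℝ) :
    Av n (fun e => pr μ (g e)) = pr μ (fun x => Av n (fun e => g e x)) := by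
  induction n generalizing g with
  | zero => rfl
  | succ n ih =>
    simp only [Av, ih]
    rw [← pr_add_right, div_eq_inv_mul, ← pr_smul_right]
    congr 1
    funext x
    ring

/-- the stopping probability -/
noncomputable def PP (L : List (Dat X)) (p : List Bool → X → ℝ) (x : X) : ℝ :=
  Av L.length (fun e => 1 - p e x)

theorem PP_nonneg {η Kp : ℝ} {L : List (Dat X)} {p : List Bool → X → ℝ} (hp : Cut η L p Kp)
    (x : X) : 0 ≤ PP L p x := by
  unfold PP
  have := Av_mono (G := fun _ => 0) (H := fun e => 1 - p e x) L.length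
    (fun e _ => by linarith [hp.le e x])
  rwa [Av_const] at this

theorem PP_le {η Λ K Kp : ℝ} {N : ℕ} {L : List (Dat X)} {p : List Bool → X → ℝ}
    (hp : Cut η L p Kp) (hVC : VC η L) (hη : 0 ≤ η) (hΛ : 0 ≤ Λ) (hK : KN X N K)
    (hL : L.length ≤ N) (hD : ∀ d ∈ L, ∀ x, ‖d.D x‖ ≤ Λ) (x : X) :
    PP L p x ≤ 2 * (η * Λ * K) := by
  unfold PP
  refine (Av_cut hVC hp x).trans ?_
  have h2 := Av_WW η L x 0
  simp only [add_zero] at h2
  rw [h2]
  have h1 := hK (L.map fun d => η • d.D x) (by simpa using hL) (η * Λ) (by positivity) (by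
    intro v hv
    rw [List.mem_map] at hv
    obtain ⟨d, hd, rfl⟩ := hv
    rw [norm_smul, Real.norm_eq_abs, abs_of_nonneg hη]
    exact mul_le_mul_of_nonneg_left (hD d hd x) hη)
  linarith

theorem PP_lip {η Kp : ℝ} {L : List (Dat X)} {p : List Bool → X → ℝ} (hp : Cut η L p Kp)
    (x y : X) : |PP L p x - PP L p y| ≤ Kp * ‖x - y‖ := by
  unfold PP
  rw [← Av_sub]
  rw [abs_le]
  constructor
  · have := Av_mono (G := fun _ => -(Kp * ‖x - y‖))
      (H := fun e => 1 - p e x - (1 - p e y)) L.length (fun e _ => by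
        have := abs_le.1 (hp.lip e x y)
        linarith)
    rwa [Av_const] at this
  · have := Av_mono (H := fun _ => (Kp * ‖x - y‖))
      (G := fun e => 1 - p e x - (1 - p e y)) L.length (fun e _ => by
        have := abs_le.1 (hp.lip e x y)
        linarith)
    rwa [Av_const] at this

theorem Inv.mono {η Λ a a' : ℝ} {L : List (Dat X)} (h : Inv η Λ a L) (ha : a ≤ a') :
    Inv η Λ a' L :=
  ⟨h.vb, h.vu, fun ε hε => by
    obtain ⟨δ, hδ, h1⟩ := h.ft ε hε
    refine ⟨δ, hδ, fun e x y hxy => (h1 e x y hxy).trans ?_⟩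
    exact mul_le_mul_of_nonneg_right (by linarith) (norm_nonneg _)⟩

/-- expansion of the pairing in one step -/
theorem pr_step (μ : ℕ → X →₀ ℝ) (η : ℝ) (L : List (Dat X)) (d : Dat X) (s : Bool) (e : List Bool) :
    pr (cb μ (d :: L) (s :: e)) (FF η (d :: L) (s :: e)) =
      pr (cb μ L e) (FF η L e) + η * sg s * pr (cb μ L e) (fun x => d.p e x * d.f x) +
        sg s * pr (μ d.n) (FF η L e) + η * pr (μ d.n) (fun x => d.p e x * d.f x) := by
  have h1 : (FF η (d :: L) (s :: e)) =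
      fun x => FF η L e x + η * sg s * (d.p e x * d.f x) := rfl
  have h2 : cb μ (d :: L) (s :: e) = cb μ L e + sg s • μ d.n := rfl
  rw [h1, h2, pr_add_left, pr_smul_left]
  rw [pr_add_right (cb μ L e) (FF η L e), pr_add_right (μ d.n) (FF η L e), pr_smul_right,
    pr_smul_right]
  have h3 := sg_sq s
  have h4 : sg s * (pr (μ d.n) (FF η L e) + η * sg s * pr (μ d.n) (fun x => d.p e x * d.f x)) =
      sg s * pr (μ d.n) (FF η L e) +
        η * (sg s * sg s) * pr (μ d.n) (fun x => d.p e x * d.f x) := by ring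
  rw [h4, h3]
  ring

/-- one step of the main construction -/
theorem build_step {μ : ℕ → X →₀ ℝ} (hμ : WN μ) {δ M Λ K η : ℝ} {N m : ℕ} (hδ : 0 < δ)
    (hM : ∀ n, NB M (μ n)) (hn : ∀ n, ∃ f : X → ℝ, Lipc 1 f ∧ δ ≤ pr (μ n) f) (hX : SMX X Λ)
    (hΛ : 0 ≤ Λ) (hK : KN X N K) (hK0 : 0 ≤ K) (hη : 0 < η)
    (hη1 : M * (2 * (η * Λ * K) * Λ) ≤ δ / 8) (hmN : m < N) (n1 : ℕ)
    {L : List (Dat X)} (hL : L.length = m) (hVC : VC η L) (hI : Inv η Λ (m / (4 * N)) L)
    (hD : ∀ d ∈ L, ∀ x, ‖d.D x‖ ≤ Λ)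
    (hA : m * (η * δ / 8) ≤ Av m (fun e => pr (cb μ L e) (FF η L e))) :
    ∃ d : Dat X, n1 ≤ d.n ∧ Inv η Λ ((m + 1 : ℕ) / (4 * N)) (d :: L) ∧ VC η (d :: L) ∧
      (∀ x, ‖d.D x‖ ≤ Λ) ∧
      (m + 1 : ℕ) * (η * δ / 8) ≤ Av (m + 1) (fun e => pr (cb μ (d :: L) e) (FF η (d :: L) e)) := by
  have hN : (0 : ℝ) < N := by exact_mod_cast (Nat.zero_le m).trans_lt hmN
  obtain ⟨p, Kp, hp⟩ := hI.exists_cut hη.le hΛ
  have hKp := hp.K0
  have hM0 : 0 ≤ M := (hM 0).nonneg
  have hmass := mass_nonneg μ L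
  obtain ⟨r, hr, hr1, hr2, hr3⟩ := exists_small (η * Kp) (M * Kp) (2 * mass μ L)
    (1 / (4 * N)) (δ / 32) (δ / 32) (by positivity) (by positivity) (by positivity)
    (by positivity) (by positivity) (by positivity)
  obtain ⟨n0, hn0⟩ := pick hμ hδ hn hX hr
  have hfin : {e : List Bool | e.length = m}.Finite := List.finite_length_eq Bool m
  have hev : ∀ᶠ n in atTop, ∀ e ∈ {e : List Bool | e.length = m},
      |pr (μ n) (FF η L e)| < η * δ / 32 := by
    rw [Filter.eventually_all_finite hfin]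
    intro e _
    have h1 := (hμ _ (FF η L e) (hI.lip e)).abs
    rw [abs_zero] at h1
    exact (tendsto_order.1 h1).2 _ (by positivity)
  obtain ⟨n2, hn2⟩ := eventually_atTop.1 hev
  set n := max n0 (max n1 n2) with hnd
  obtain ⟨f, D, hS, hf⟩ := hn0 n (le_max_left _ _)
  have hn2' := hn2 n ((le_max_right _ _).trans (le_max_right _ _))
  set d : Dat X := ⟨n, f, D, p⟩ with hd
  refine ⟨d, (le_max_left _ _).trans (le_max_right _ _), ?_, ⟨⟨Kp, hp⟩, hVC⟩, hS.b, ?_⟩
  · refine (hI.cons hη.le hΛ hr.le (d := d) hS hp).mono ?_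
    have : ((m + 1 : ℕ) : ℝ) / (4 * N) = m / (4 * N) + 1 / (4 * N) := by
      push_cast
      ring
    rw [this]
    linarith
  · -- the average
    have key : ∀ s : Bool, ∀ e : List Bool, e.length = m →
        pr (cb μ L e) (FF η L e) - η * δ / 16 +
          η * pr (μ n) (fun x => p e x * f x) ≤
        pr (cb μ (d :: L) (s :: e)) (FF η (d :: L) (s :: e)) := by
      intro s e he
      rw [pr_step]
      have h1 : |pr (cb μ L e) (fun x => p e x * f x)| ≤ δ / 32 := by
        refine (abs_pr_le (r := r) _ (fun x => ?_)).trans ?_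
        · rw [abs_mul, abs_of_nonneg (hp.nn e x)]
          have h2 := hp.le e x
          have h3 := hp.nn e x
          have h4 := hS.s x
          have h5 := abs_nonneg (f x)
          nlinarith
        · have h2 := tm_cb_le μ L e
          have h3 : 2 * tm (cb μ L e) * r ≤ 2 * mass μ L * r := by
            have := hr.le
            nlinarith
          linarith
      have h2 : |η * sg s * pr (cb μ L e) (fun x => p e x * f x)| ≤ η * (δ / 32) := by
        rw [abs_mul, abs_mul, sg_abs, mul_one, abs_of_pos hη]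
        exact mul_le_mul_of_nonneg_left h1 hη.le
      have h3 : |sg s * pr (μ n) (FF η L e)| ≤ η * δ / 32 := by
        rw [abs_mul, sg_abs, one_mul]
        exact (hn2' e he).le
      have h4 := abs_le.1 h2
      have h5 := abs_le.1 h3
      have e1 : pr (μ d.n) (FF η L e) = pr (μ n) (FF η L e) := rfl
      have e2 : pr (μ d.n) (fun x => d.p e x * d.f x) = pr (μ n) (fun x => p e x * f x) := rfl
      have e3 : pr (cb μ L e) (fun x => d.p e x * d.f x) =
        pr (cb μ L e) (fun x => p e x * f x) := rfl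
      rw [e1, e2, e3]
      linarith
    have hlow : Av m (fun e => pr (cb μ L e) (FF η L e) - η * δ / 16 +
        η * pr (μ n) (fun x => p e x * f x)) ≤
        Av (m + 1) (fun e => pr (cb μ (d :: L) e) (FF η (d :: L) e)) := by
      simp only [Av]
      have h1 := Av_mono m (fun e he => key true e he)
      have h2 := Av_mono m (fun e he => key false e he)
      linarith
    rw [Av_add, Av_sub, Av_const, Av_smul] at hlow
    -- the average of the main terms
    have hmain : Av m (fun e => pr (μ n) (fun x => p e x * f x)) =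
        pr (μ n) f - pr (μ n) (fun x => PP L p x * f x) := by
      rw [pr_Av, ← pr_sub_right]
      congr 1
      funext x
      unfold PP
      rw [Av_sub, Av_const, hL]
      have : (fun e => p e x * f x) = fun e => f x * p e x := by
        funext e
        ring
      rw [this, Av_smul]
      ring
    have hPL : Lipc (2 * (η * Λ * K) * Λ + Kp * r) (fun x => PP L p x * f x) := by
      have hfl : Lipc Λ f := hS.lip
      intro x y
      have e1 : PP L p x * f x - PP L p y * f y =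
          PP L p x * (f x - f y) + (PP L p x - PP L p y) * f y := by ring
      rw [e1, add_mul]
      refine (abs_add_le _ _).trans (add_le_add ?_ ?_)
      · rw [abs_mul, abs_of_nonneg (PP_nonneg hp _)]
        have h1 := PP_le hp hVC hη.le hΛ hK (by omega) hD x
        have h2 := hfl x y
        calc PP L p x * |f x - f y| ≤ (2 * (η * Λ * K)) * (Λ * ‖x - y‖) := by
              refine mul_le_mul h1 h2 (abs_nonneg _) ?_
              positivity
          _ = _ := by ring
      · rw [abs_mul]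
        have h1 := PP_lip hp x y
        have h2 := hS.s y
        calc |PP L p x - PP L p y| * |f y| ≤ (Kp * ‖x - y‖) * r := by
              refine mul_le_mul h1 h2 (abs_nonneg _) ?_
              positivity
          _ = _ := by ring
    have hPb := (hM n).le' (by positivity) hPL
    have hPb' : M * (2 * (η * Λ * K) * Λ + Kp * r) ≤ δ / 8 + δ / 32 := by
      have e1 : M * (2 * (η * Λ * K) * Λ + Kp * r) =
        M * (2 * (η * Λ * K) * Λ) + M * Kp * r := by ring
      rw [e1]
      linarith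
    have h9 : δ / 2 - (δ / 8 + δ / 32) ≤
        Av m (fun e => pr (μ n) (fun x => p e x * f x)) := by
      rw [hmain]
      have := abs_le.1 (hPb.trans hPb')
      linarith
    have h10 : η * (δ / 2 - (δ / 8 + δ / 32)) ≤
        η * Av m (fun e => pr (μ n) (fun x => p e x * f x)) :=
      mul_le_mul_of_nonneg_left h9 hη.le
    push_cast
    nlinarith

end LFS
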