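import Pool.Agent.Lib.MP_0d9d33_an.Compact

/-!
# `ℓ_q` and `c_0` satisfy the hypotheses of `compact_of_blocks`
-/

set_option autoImplicit false

namespace LFS

open Filter Topology

open scoped ENNReal ZeroAtInfty

theorem compact_of_basis {Z Y : Type*} [NormedAddCommGroup Z] [NormedSpace ℝ Z]
    [NormedAddCommGroup Y] [NormedSpace ℝ Y] [CompleteSpace Y] (co : ℕ → Z →L[ℝ] ℝ) (e : ℕ → Z)
    (hbi : ∀ i k, co k (e i) = if k = i then 1 else 0)
    (hmono : ∀ z z' : Z, (∀ i, |co i z| ≤ |co i z'|) → ‖z‖ ≤ ‖z'‖)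
    (hPl : ∀ z, Tendsto (fun n => ∑ i ∈ Finset.range n, co i z • e i) atTop (𝓝 z))
    {q : ℝ} (hB : ∀ w : ℕ → Z, (∀ k, ‖w k‖ ≤ 1) →
      (∀ k l, k ≠ l → ∀ i, co i (w k) = 0 ∨ co i (w l) = 0) → UpQ q 1 w)
    (hY : ∀ (y : ℕ → Y) (C : ℝ), UpQ q C y → ∀ δ : ℝ, 0 < δ → ¬ ∀ n, δ ≤ ‖y n‖)
    (T : Z →L[ℝ] Y) : IsCompactOperator T := by
  let P : ℕ → Z →L[ℝ] Z := fun n => ∑ i ∈ Finset.range n, (co i).smulRight (e i)
  have hPz : ∀ n z, P n z = ∑ i ∈ Finset.range n, co i z • e i := by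
    intro n z
    simp only [P, sum_apply, ContinuousLinearMap.smulRight_apply]
  have hPi : ∀ n z i, co i (P n z) = if i < n then co i z else 0 := by
    intro n z i
    rw [hPz, map_sum]
    have e1 : ∀ k ∈ Finset.range n, co i (co k z • e k) = if i = k then co i z else 0 := by
      intro k _
      rw [map_smul, hbi, smul_eq_mul]
      by_cases h : i = k
      · rw [if_pos h, if_pos h, h, mul_one]
      · rw [if_neg h, if_neg h, mul_zero]
    rw [Finset.sum_congr rfl e1, Finset.sum_ite_eq]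
    simp only [Finset.mem_range]
  refine compact_of_blocks (fun z i => co i z) P hPi (fun m n z i => map_sub _ _ _) ?_ ?_ ?_ hB hY T
  · intro n
    have h1 : ∀ n : ℕ, IsCompactOperator (⇑(∑ i ∈ Finset.range n, (co i).smulRight (e i))) := by
      intro n
      induction n with
      | zero =>
        rw [Finset.sum_range_zero]
        exact isCompactOperator_zero
      | succ n ih =>
        rw [Finset.sum_range_succ]
        refine IsCompactOperator.add ih ?_
        have h2 : IsCompactOperator (co n) := by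
          have := isCompactOperator_id_iff_locallyCompactSpace (E := ℝ)
          have h3 : IsCompactOperator (id : ℝ → ℝ) :=
            this.2 inferInstance
          exact h3.comp_clm (co n)
        exact h2.continuous_comp (g := fun t : ℝ => t • e n) (by fun_prop)
    exact h1 n
  · intro z
    refine (hPl z).congr fun n => ?_
    rw [hPz]
  · intro m n z
    refine hmono _ _ fun i => ?_
    rw [map_sub, hPi, hPi]
    by_cases h1 : i < m <;> by_cases h2 : i < n <;> simp [h1, h2]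

/-- at most one nonzero term -/
theorem one_term (a : ℕ → ℝ) (h : ∀ k l, k ≠ l → a k = 0 ∨ a l = 0) :
    ∃ k0, ∀ k, k ≠ k0 → a k = 0 := by
  by_cases hx : ∃ k, a k ≠ 0
  · obtain ⟨k0, hk0⟩ := hx
    refine ⟨k0, fun k hk => ?_⟩
    rcases h k k0 hk with h1 | h1
    · exact h1
    · exact absurd h1 hk0
  · push Not at hx
    exact ⟨0, fun k _ => hx k⟩

theorem abs_signed_le {S A : Finset ℕ} (hA : A ⊆ S) (a : ℕ → ℝ) :
    |∑ i ∈ A, a i - ∑ i ∈ S \ A, a i| ≤ ∑ i ∈ S, |a i| := by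
  refine (abs_sub _ _).trans ?_
  refine (add_le_add (Finset.abs_sum_le_sum_abs _ _) (Finset.abs_sum_le_sum_abs _ _)).trans
    (le_of_eq ?_)
  rw [add_comm, Finset.sum_sdiff hA]

theorem sum_abs_rpow {S : Finset ℕ} {a : ℕ → ℝ} (h : ∀ k l, k ≠ l → a k = 0 ∨ a l = 0) {p : ℝ}
    (hp : 0 < p) : (∑ i ∈ S, |a i|) ^ p = ∑ i ∈ S, |a i| ^ p := by
  obtain ⟨k0, hk0⟩ := one_term a h
  by_cases hS : k0 ∈ S
  · rw [Finset.sum_eq_single k0 (fun k _ hk => by rw [hk0 k hk, abs_zero]) (fun h => absurd hS h),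
      Finset.sum_eq_single k0 (fun k _ hk => by rw [hk0 k hk, abs_zero, Real.zero_rpow hp.ne'])
        (fun h => absurd hS h)]
  · have e : ∀ k ∈ S, a k = 0 := fun k hk => hk0 k (fun h => hS (h ▸ hk))
    rw [Finset.sum_eq_zero (fun k hk => by rw [e k hk, abs_zero]),
      Finset.sum_eq_zero (fun k hk => by rw [e k hk, abs_zero, Real.zero_rpow hp.ne']),
      Real.zero_rpow hp.ne']

/-! `ℓ_q` -/

theorem compact_lp {Y : Type*} [NormedAddCommGroup Y] [NormedSpace ℝ Y] [CompleteSpace Y]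
    (q : ℝ≥0∞) [hq1 : Fact (1 ≤ q)] (hq : q ≠ ∞)
    (hY : ∀ (y : ℕ → Y) (C : ℝ), UpQ q.toReal C y → ∀ δ : ℝ, 0 < δ → ¬ ∀ n, δ ≤ ‖y n‖)
    (T : lp (fun _ : ℕ => ℝ) q →L[ℝ] Y) : IsCompactOperator T := by
  have hq0 : 0 < q.toReal :=
    ENNReal.toReal_pos (zero_lt_one.trans_le hq1.out).ne' hq
  have hnorm : ∀ z : lp (fun _ : ℕ => ℝ) q, ‖z‖ ^ q.toReal = ∑' i, |z i| ^ q.toReal := by
    intro z
    rw [lp.norm_rpow_eq_tsum hq0]
    rfl
  have hsum : ∀ z : lp (fun _ : ℕ => ℝ) q, Summable fun i => |z i| ^ q.toReal := fun z =>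
    (lp.memℓp z).summable hq0
  refine compact_of_basis (fun i => lp.evalCLM ℝ (fun _ : ℕ => ℝ) q i)
    (fun i => lp.single q i (1 : ℝ)) ?_ ?_ ?_ ?_ hY T
  · intro i k
    show (lp.single q i (1 : ℝ) : ℕ → ℝ) k = _
    rw [lp.single_apply, Pi.single_apply]
  · intro z z' h
    have h1 : ‖z‖ ^ q.toReal ≤ ‖z'‖ ^ q.toReal := by
      rw [hnorm, hnorm]
      exact (hsum z).tsum_le_tsum (fun i => Real.rpow_le_rpow (abs_nonneg _) (h i) hq0.le)
        (hsum z')
    exact (Real.rpow_le_rpow_iff (norm_nonneg _) (norm_nonneg _) hq0).1 h1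
  · intro z
    have h1 := (lp.hasSum_single hq z).tendsto_sum_nat
    refine h1.congr fun n => Finset.sum_congr rfl fun i _ => ?_
    have e : lp.evalCLM ℝ (fun _ : ℕ => ℝ) q i z = z i := rfl
    rw [e, ← lp.single_smul, smul_eq_mul, mul_one]
  · intro w hw1 hw2 S A hA
    rw [one_mul]
    set v := ∑ i ∈ A, w i - ∑ i ∈ S \ A, w i with hv
    have hvi : ∀ i, v i = ∑ k ∈ A, w k i - ∑ k ∈ S \ A, w k i := by
      intro i
      rw [hv, lp.coeFn_sub, lp.coeFn_sum, lp.coeFn_sum, Pi.sub_apply, Finset.sum_apply,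
        Finset.sum_apply]
    have h1 : ‖v‖ ^ q.toReal ≤ S.card := by
      rw [hnorm]
      calc ∑' i, |v i| ^ q.toReal ≤ ∑' i, ∑ k ∈ S, |w k i| ^ q.toReal := by
            refine (hsum v).tsum_le_tsum (fun i => ?_)
              (summable_sum fun k _ => hsum (w k))
            have h3 : (∑ k ∈ S, |w k i|) ^ q.toReal = ∑ k ∈ S, |w k i| ^ q.toReal :=
              sum_abs_rpow (a := fun k => w k i) (fun k l hkl => hw2 k l hkl i) hq0
            rw [← h3]
            refine Real.rpow_le_rpow (abs_nonneg _) ?_ hq0.le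
            rw [hvi]
            exact abs_signed_le hA _
        _ = ∑ k ∈ S, ∑' i, |w k i| ^ q.toReal := Summable.tsum_finsetSum fun k _ => hsum (w k)
        _ ≤ ∑ k ∈ S, (1 : ℝ) := by
            refine Finset.sum_le_sum fun k _ => ?_
            rw [← hnorm]
            exact Real.rpow_le_one (norm_nonneg _) (hw1 k) hq0.le
        _ = S.card := by rw [Finset.sum_const, nsmul_eq_mul, mul_one]
    have h2 : ‖v‖ = (‖v‖ ^ q.toReal) ^ (1 / q.toReal) := by
      rw [← Real.rpow_mul (norm_nonneg _), mul_one_div_cancel hq0.ne', Real.rpow_one]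
    rw [h2]
    exact Real.rpow_le_rpow (Real.rpow_nonneg (norm_nonneg _) _) h1 (by positivity)

/-! `c_0` -/

theorem c0_norm_le {f : C₀(ℕ, ℝ)} {c : ℝ} (hc : 0 ≤ c) (h : ∀ i, |f i| ≤ c) : ‖f‖ ≤ c := by
  rw [← ZeroAtInftyContinuousMap.norm_toBCF_eq_norm, BoundedContinuousFunction.norm_le hc]
  exact h

theorem c0_abs_le (f : C₀(ℕ, ℝ)) (i : ℕ) : |f i| ≤ ‖f‖ := by
  rw [← ZeroAtInftyContinuousMap.norm_toBCF_eq_norm]
  exact BoundedContinuousFunction.norm_coe_le_norm f.toBCF i

/-- coordinate functional -/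
noncomputable def c0ev (i : ℕ) : C₀(ℕ, ℝ) →L[ℝ] ℝ :=
  LinearMap.mkContinuous
    { toFun := fun f => f i
      map_add' := fun _ _ => rfl
      map_smul' := fun _ _ => rfl } 1 (fun f => by
        rw [one_mul]
        exact c0_abs_le f i)

/-- unit vector -/
noncomputable def c0e (i : ℕ) : C₀(ℕ, ℝ) where
  toFun := fun k => if k = i then 1 else 0
  continuous_toFun := continuous_of_discreteTopology
  zero_at_infty' := by
    rw [Filter.cocompact_eq_cofinite, Nat.cofinite_eq_atTop]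
    refine tendsto_const_nhds.congr' ?_
    filter_upwards [eventually_gt_atTop i] with k hk
    rw [if_neg hk.ne']

theorem compact_c0 {Y : Type*} [NormedAddCommGroup Y] [NormedSpace ℝ Y] [CompleteSpace Y]
    {q : ℝ} (hq : 1 < q)
    (hY : ∀ (y : ℕ → Y) (C : ℝ), UpQ q C y → ∀ δ : ℝ, 0 < δ → ¬ ∀ n, δ ≤ ‖y n‖)
    (T : C₀(ℕ, ℝ) →L[ℝ] Y) : IsCompactOperator T := by
  have hev : ∀ i (f : C₀(ℕ, ℝ)), c0ev i f = f i := fun _ _ => rfl
  refine compact_of_basis c0ev c0e ?_ ?_ ?_ ?_ hY T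
  · intro i k
    rfl
  · intro z z' h
    exact c0_norm_le (norm_nonneg _) fun i => (h i).trans (c0_abs_le z' i)
  · intro z
    have hsum : ∀ n k, (∑ i ∈ Finset.range n, c0ev i z • c0e i : C₀(ℕ, ℝ)) k =
        if k < n then z k else 0 := by
      intro n k
      have h1 : (∑ i ∈ Finset.range n, c0ev i z • c0e i : C₀(ℕ, ℝ)) k =
          c0ev k (∑ i ∈ Finset.range n, c0ev i z • c0e i) := rfl
      rw [h1, map_sum]
      have e1 : ∀ i ∈ Finset.range n, c0ev k (c0ev i z • c0e i) = if k = i then z k else 0 := by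
        intro i _
        rw [map_smul, hev, smul_eq_mul]
        have e2 : c0ev k (c0e i) = if k = i then 1 else 0 := rfl
        rw [e2]
        by_cases h : k = i
        · rw [if_pos h, if_pos h, h, mul_one]
        · rw [if_neg h, if_neg h, mul_zero]
      rw [Finset.sum_congr rfl e1, Finset.sum_ite_eq]
      simp only [Finset.mem_range]
    rw [Metric.tendsto_atTop]
    intro ε hε
    have hz : Tendsto (fun k => z k) atTop (𝓝 0) := by
      have := z.zero_at_infty'
      rwa [Filter.cocompact_eq_cofinite, Nat.cofinite_eq_atTop] at this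
    rw [Metric.tendsto_atTop] at hz
    obtain ⟨N, hN⟩ := hz (ε / 2) (by positivity)
    refine ⟨N, fun n hn => ?_⟩
    rw [dist_eq_norm]
    refine lt_of_le_of_lt (c0_norm_le (c := ε / 2) (by positivity) fun k => ?_) (by linarith)
    have e3 : (∑ i ∈ Finset.range n, c0ev i z • c0e i - z : C₀(ℕ, ℝ)) k =
        (if k < n then z k else 0) - z k := by
      rw [← hsum n k]
      rfl
    rw [e3]
    by_cases hk : k < n
    · rw [if_pos hk, sub_self, abs_zero]
      positivity
    · rw [if_neg hk, zero_sub, abs_neg]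
      have := hN k (by omega)
      rw [Real.dist_eq, sub_zero] at this
      exact this.le
  · intro w hw1 hw2 S A hA
    rw [one_mul]
    have hq0 : 0 < q := by linarith
    rcases S.eq_empty_or_nonempty with rfl | hS
    · rw [Finset.subset_empty] at hA
      subst hA
      simp [Real.zero_rpow (inv_pos.2 hq0).ne']
    · have h1 : (1 : ℝ) ≤ (S.card : ℝ) ^ (1 / q) :=
        Real.one_le_rpow (by exact_mod_cast hS.card_pos) (by positivity)
      refine le_trans (c0_norm_le zero_le_one fun i => ?_) h1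
      have e4 : (∑ k ∈ A, w k - ∑ k ∈ S \ A, w k : C₀(ℕ, ℝ)) i =
          ∑ k ∈ A, w k i - ∑ k ∈ S \ A, w k i := by
        have h2 : (∑ k ∈ A, w k - ∑ k ∈ S \ A, w k : C₀(ℕ, ℝ)) i =
          c0ev i (∑ k ∈ A, w k - ∑ k ∈ S \ A, w k) := rfl
        rw [h2, map_sub, map_sum, map_sum]
        rfl
      rw [e4]
      refine (abs_signed_le hA _).trans ?_
      obtain ⟨k0, hk0⟩ := one_term (fun k => w k i) (fun k l hkl => hw2 k l hkl i)
      by_cases hk : k0 ∈ S
      · rw [Finset.sum_eq_single k0 (fun k _ hk => by rw [hk0 k hk, abs_zero])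
          (fun h => absurd hk h)]
        exact (c0_abs_le _ _).trans (hw1 k0)
      · rw [Finset.sum_eq_zero (fun k hk' => by
          rw [hk0 k (fun h => hk (h ▸ hk')), abs_zero])]
        exact zero_le_one

end LFS
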