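import Pool.Agent.Lib.MP_0d9d33_an.Free

/-!
# Operators from `ℓ_q` and `c_0`
-/

set_option autoImplicit false

namespace LFS

open Filter Topology

/-- upper `q`-estimate with signs -/
def UpQ {Y : Type*} [NormedAddCommGroup Y] (q C : ℝ) (y : ℕ → Y) : Prop :=
  ∀ S A : Finset ℕ, A ⊆ S → ‖∑ i ∈ A, y i - ∑ i ∈ S \ A, y i‖ ≤ C * (S.card : ℝ) ^ (1 / q)

/-- a sequence with an upper `q`-estimate, `q > 1`, is weakly null -/
theorem UpQ.wn {Y : Type*} [NormedAddCommGroup Y] [NormedSpace ℝ Y] {q C : ℝ} (hq : 1 < q)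
    {y : ℕ → Y} (hy : UpQ q C y) (φ : Y →L[ℝ] ℝ) : Tendsto (fun n => φ (y n)) atTop (𝓝 0) := by
  have hq0 : 0 < q := by linarith
  have hq1 : 0 < 1 - 1 / q := by
    have : 1 / q < 1 := by rw [div_lt_one hq0]; exact hq
    linarith
  rw [Metric.tendsto_atTop]
  intro ε hε
  by_contra hcon
  push Not at hcon
  have hset : {n : ℕ | ε ≤ |φ (y n)|}.Infinite := by
    rw [Set.infinite_iff_exists_gt]
    intro m
    obtain ⟨n, h1, h2⟩ := hcon (m + 1)
    rw [Real.dist_eq, sub_zero] at h2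
    exact ⟨n, h2, by omega⟩
  obtain ⟨m, hm, hm0⟩ : ∃ m : ℕ, ‖φ‖ * C / ε < (m : ℝ) ^ (1 - 1 / q) ∧ 1 ≤ m := by
    have h2 := (tendsto_rpow_atTop hq1).comp tendsto_natCast_atTop_atTop
    exact ((h2.eventually_gt_atTop (‖φ‖ * C / ε)).and (eventually_ge_atTop 1)).exists
  obtain ⟨S, hS1, hS2⟩ := hset.exists_subset_card_eq m
  set A := S.filter fun n => 0 ≤ φ (y n) with hA
  have hAS : A ⊆ S := Finset.filter_subset _ _
  have h3 := hy S A hAS
  have h4 : (m : ℝ) * ε ≤ φ (∑ i ∈ A, y i - ∑ i ∈ S \ A, y i) := by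
    rw [map_sub, map_sum, map_sum]
    have h5 : ∑ i ∈ A, |φ (y i)| = ∑ i ∈ A, φ (y i) :=
      Finset.sum_congr rfl fun i hi => abs_of_nonneg (Finset.mem_filter.1 hi).2
    have h6 : ∑ i ∈ S \ A, |φ (y i)| = -∑ i ∈ S \ A, φ (y i) := by
      rw [← Finset.sum_neg_distrib]
      refine Finset.sum_congr rfl fun i hi => abs_of_neg ?_
      rw [Finset.mem_sdiff] at hi
      by_contra hlt
      push Not at hlt
      exact hi.2 (Finset.mem_filter.2 ⟨hi.1, hlt⟩)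
    have h7 : ∑ i ∈ A, φ (y i) - ∑ i ∈ S \ A, φ (y i) = ∑ i ∈ S, |φ (y i)| := by
      rw [← Finset.sum_sdiff hAS, h5, h6]
      ring
    rw [h7, ← hS2, ← nsmul_eq_mul]
    exact Finset.card_nsmul_le_sum _ _ _ fun n hn' => hS1 hn'
  have h8 : φ (∑ i ∈ A, y i - ∑ i ∈ S \ A, y i) ≤ ‖φ‖ * (C * (m : ℝ) ^ (1 / q)) := by
    refine (le_abs_self _).trans ?_
    rw [← Real.norm_eq_abs]
    refine (φ.le_opNorm _).trans (mul_le_mul_of_nonneg_left ?_ (norm_nonneg _))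
    rw [← hS2]
    exact h3
  have hmr : (0 : ℝ) < m := by exact_mod_cast hm0
  have h9 : (m : ℝ) = (m : ℝ) ^ (1 - 1 / q) * (m : ℝ) ^ (1 / q) := by
    rw [← Real.rpow_add hmr]
    simp
  have h10 : 0 < (m : ℝ) ^ (1 / q) := Real.rpow_pos_of_pos hmr _
  rw [div_lt_iff₀ hε] at hm
  nlinarith

section

variable {X : Type*} [NormedAddCommGroup X] [NormedSpace ℝ X]
variable {M : Type*} [MetricSpace M] {b : M}

/-- No seminormalised sequence in the free space satisfies an upper `q`-estimate, `q > s'`. -/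
theorem no_upper {s : ℝ} (hs : 1 < s) (hT : DualType X s)
    {ι : M → X} {A B : ℝ} (hA : 0 ≤ A) (hB : 0 ≤ B)
    (h1 : ∀ x y, dist x y ≤ A * ‖ι x - ι y‖) (h2 : ∀ x y, ‖ι x - ι y‖ ≤ B * dist x y)
    {q : ℝ} (hq : s / (s - 1) < q) (g : ℕ → LipFree M b) {C : ℝ} (hC : UpQ q C g)
    {δ : ℝ} (hδ : 0 < δ) (hδg : ∀ n, δ ≤ ‖g n‖) : False := by
  have hs1 : 0 < s - 1 := by linarith
  have hq1 : 1 < q := by
    refine lt_trans ?_ hq
    rw [lt_div_iff₀ hs1]
    linarith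
  have hq0 : 0 < q := by linarith
  have hqs : 1 / q < 1 - 1 / s := by
    rw [div_lt_iff₀ hs1] at hq
    have e : 1 - 1 / s = (s - 1) / s := by field_simp
    rw [e, div_lt_div_iff₀ hq0 (by linarith)]
    linarith
  obtain ⟨c, hc, hlow⟩ := lower_free hs hT hA hB h1 h2 g
    (fun φ => UpQ.wn (Y := LipFree M b) hq1 hC φ) hδ hδg
  obtain ⟨N, hN, hN1⟩ : ∃ N : ℕ, C / c < (N : ℝ) ^ (1 - 1 / s - 1 / q) ∧ 1 ≤ N := by
    have h2 := (tendsto_rpow_atTop (by linarith : 0 < 1 - 1 / s - 1 / q)).comp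
      tendsto_natCast_atTop_atTop
    exact ((h2.eventually_gt_atTop (C / c)).and (eventually_ge_atTop 1)).exists
  obtain ⟨S, hS1, -, hS2⟩ := hlow N 0
  have h3 : sgnAvg S g ≤ C * (N : ℝ) ^ (1 / q) := by
    refine sgnAvg_le fun A hA => ?_
    have := hC S A hA
    rwa [hS1] at this
  have hN0 : (0 : ℝ) < N := by exact_mod_cast hN1
  have h9 : (N : ℝ) ^ (1 - 1 / s) = (N : ℝ) ^ (1 - 1 / s - 1 / q) * (N : ℝ) ^ (1 / q) := by
    rw [← Real.rpow_add hN0]
    congr 1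
    ring
  have h10 : 0 < (N : ℝ) ^ (1 / q) := Real.rpow_pos_of_pos hN0 _
  rw [div_lt_iff₀ hc] at hN
  have h11 := hS2.trans h3
  rw [h9] at h11
  nlinarith

end

/-- Compactness of operators on a space with a suitable basis. -/
theorem compact_of_blocks {Z Y : Type*} [NormedAddCommGroup Z] [NormedSpace ℝ Z]
    [NormedAddCommGroup Y] [NormedSpace ℝ Y] [CompleteSpace Y] (co : Z → ℕ → ℝ)
    (P : ℕ → Z →L[ℝ] Z) (hP : ∀ n z i, co (P n z) i = if i < n then co z i else 0)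
    (hPs : ∀ m n z i, co (P m z - P n z) i = co (P m z) i - co (P n z) i)
    (hPc : ∀ n, IsCompactOperator (P n))
    (hPl : ∀ z, Tendsto (fun n => P n z) atTop (𝓝 z)) (hP1 : ∀ m n z, ‖P m z - P n z‖ ≤ ‖z‖)
    {q : ℝ} (hB : ∀ w : ℕ → Z, (∀ k, ‖w k‖ ≤ 1) →
      (∀ k l, k ≠ l → ∀ i, co (w k) i = 0 ∨ co (w l) i = 0) → UpQ q 1 w)
    (hY : ∀ (y : ℕ → Y) (C : ℝ), UpQ q C y → ∀ δ : ℝ, 0 < δ → ¬ ∀ n, δ ≤ ‖y n‖)
    (T : Z →L[ℝ] Y) : IsCompactOperator T := by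
  have hc : ∀ n, IsCompactOperator (T.comp (P n)) := fun n => (hPc n).clm_comp T
  by_cases hlim : Tendsto (fun n => T.comp (P n)) atTop (𝓝 T)
  · exact isCompactOperator_of_tendsto hlim (Eventually.of_forall hc)
  exfalso
  rw [Metric.tendsto_atTop] at hlim
  push Not at hlim
  obtain ⟨ε, hε, hlim⟩ := hlim
  -- blocks
  have hblock : ∀ n0 : ℕ, ∃ n1 : ℕ, n0 ≤ n1 ∧ ∃ w : Z, ‖w‖ ≤ 1 ∧ (∀ i, i < n0 → co w i = 0) ∧
      (∀ i, n1 ≤ i → co w i = 0) ∧ ε / 2 ≤ ‖T w‖ := by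
    intro n0
    obtain ⟨n, hn, hd⟩ := hlim n0
    rw [dist_eq_norm] at hd
    obtain ⟨z, hz, hz2⟩ : ∃ z : Z, ‖z‖ ≤ 1 ∧ ε / 2 < ‖T z - T (P n z)‖ := by
      by_contra hcon
      push Not at hcon
      have h3 : ‖T.comp (P n) - T‖ ≤ ε / 2 := by
        refine ContinuousLinearMap.opNorm_le_of_unit_norm (by positivity) fun z hz => ?_
        have := hcon z hz.le
        rw [norm_sub_rev] at this
        exact this
      linarith
    have h4 : Tendsto (fun m => ‖T (P m z) - T (P n z)‖) atTop (𝓝 ‖T z - T (P n z)‖) :=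
      (((T.continuous.tendsto z).comp (hPl z)).sub_const _).norm
    obtain ⟨m, hm1, hm2⟩ := ((h4.eventually_const_lt hz2).and (eventually_ge_atTop n)).exists
    refine ⟨m, hn.trans hm2, P m z - P n z, (hP1 m n z).trans hz, ?_, ?_, ?_⟩
    · intro i hi
      rw [hPs, hP, hP, if_pos (by omega), if_pos (by omega), sub_self]
    · intro i hi
      rw [hPs, hP, hP, if_neg (by omega), if_neg (by omega), sub_self]
    · rw [map_sub]
      exact hm1.le
  choose nx hnx w hw1 hw2 hw3 hw4 using hblock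
  let σ : ℕ → ℕ := fun k => Nat.rec 0 (fun _ n => nx n) k
  have hσ : ∀ k, σ (k + 1) = nx (σ k) := fun k => rfl
  have hmono : Monotone σ := monotone_nat_of_le_succ fun k => by rw [hσ]; exact hnx _
  have hup : UpQ q 1 (fun k => w (σ k)) := by
    refine hB _ (fun k => hw1 _) ?_
    have key : ∀ k l, k < l → ∀ i, co (w (σ k)) i = 0 ∨ co (w (σ l)) i = 0 := by
      intro k l hkl i
      rcases lt_or_ge i (σ l) with hi | hi
      · exact Or.inr (hw2 _ i hi)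
      · left
        apply hw3
        rw [← hσ]
        have := hmono (show k + 1 ≤ l by omega)
        omega
    intro k l hkl i
    rcases lt_or_gt_of_ne hkl with h | h
    · exact key k l h i
    · exact (key l k h i).symm
  refine hY (fun k => T (w (σ k))) ‖T‖ ?_ (ε / 2) (by positivity) (fun k => hw4 _)
  intro S A hA
  have h5 := hup S A hA
  rw [one_mul] at h5
  have e : ∑ i ∈ A, T (w (σ i)) - ∑ i ∈ S \ A, T (w (σ i)) =
      T (∑ i ∈ A, w (σ i) - ∑ i ∈ S \ A, w (σ i)) := by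
    rw [map_sub, map_sum, map_sum]
  rw [e]
  exact (T.le_opNorm _).trans (mul_le_mul_of_nonneg_left h5 (norm_nonneg _))

end LFS
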