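import Pool.Agent.Lib.MP_0d9d33_an.Seg
import Pool.Agent.Lib.MP_0d9d33_an.Avg

/-!
# The stopped sums of functions and of gradients
-/

set_option autoImplicit false

namespace LFS

variable {X : Type*} [NormedAddCommGroup X] [NormedSpace ℝ X]

/-- a uniformly differentiable function with its derivative: bound `Λ` for the derivative, `r` for
the function -/
structure Sm (Λ r : ℝ) (f : X → ℝ) (D : X → (X →L[ℝ] ℝ)) : Prop where
  b : ∀ x, ‖D x‖ ≤ Λ
  u : UD 0 f D
  s : ∀ x, |f x| ≤ r

theorem Sm.lip {Λ r : ℝ} {f : X → ℝ} {D : X → (X →L[ℝ] ℝ)} (h : Sm Λ r f D) : Lipc Λ f := by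
  have := seg h.u h.b
  rwa [zero_add] at this

/-- the data of one step: index, function, derivative, cut-off (depending on the earlier signs) -/
structure Dat (X : Type*) [NormedAddCommGroup X] [NormedSpace ℝ X] where
  n : ℕ
  f : X → ℝ
  D : X → (X →L[ℝ] ℝ)
  p : List Bool → X → ℝ

/-- stopped sum of the gradients (the head of the list is the last step) -/
noncomputable def VV (η : ℝ) : List (Dat X) → List Bool → X → (X →L[ℝ] ℝ)
  | [], _, _ => 0
  | _ :: _, [], _ => 0
  | d :: L, s :: e, x => VV η L e x + (η * sg s * d.p e x) • d.D x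

/-- free sum of the gradients -/
noncomputable def WW (η : ℝ) : List (Dat X) → List Bool → X → (X →L[ℝ] ℝ)
  | [], _, _ => 0
  | _ :: _, [], _ => 0
  | d :: L, s :: e, x => WW η L e x + (η * sg s) • d.D x

/-- stopped sum of the functions -/
noncomputable def FF (η : ℝ) : List (Dat X) → List Bool → X → ℝ
  | [], _, _ => 0
  | _ :: _, [], _ => 0
  | d :: L, s :: e, x => FF η L e x + η * sg s * (d.p e x * d.f x)

/-- signed combination of the measures -/
noncomputable def cb (μ : ℕ → X →₀ ℝ) : List (Dat X) → List Bool → X →₀ ℝ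
  | [], _ => 0
  | _ :: _, [] => 0
  | d :: L, s :: e => cb μ L e + sg s • μ d.n

/-- total mass of the measures used -/
noncomputable def mass (μ : ℕ → X →₀ ℝ) (L : List (Dat X)) : ℝ := (L.map fun d => tm (μ d.n)).sum

theorem sg_abs (b : Bool) : |sg b| = 1 := by
  cases b <;> simp [sg]

theorem sg_sq (b : Bool) : sg b * sg b = 1 := by
  cases b <;> simp [sg]

theorem mass_nonneg (μ : ℕ → X →₀ ℝ) (L : List (Dat X)) : 0 ≤ mass μ L := by
  unfold mass
  refine List.sum_nonneg fun a ha => ?_
  obtain ⟨d, _, rfl⟩ := List.mem_map.1 ha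
  exact tm_nonneg _

theorem tm_cb_le (μ : ℕ → X →₀ ℝ) (L : List (Dat X)) (e : List Bool) : tm (cb μ L e) ≤ mass μ L := by
  induction L generalizing e with
  | nil => simp [cb, tm, mass]
  | cons d L ih =>
    cases e with
    | nil =>
      have := mass_nonneg μ (d :: L)
      simpa [cb, tm] using this
    | cons s e =>
      simp only [cb]
      refine (tm_add_le _ _).trans ?_
      rw [tm_smul, sg_abs, one_mul]
      have := ih e
      simp only [mass, List.map_cons, List.sum_cons] at this ⊢
      linarith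

/-- a valid cut-off for the step after `L` -/
structure Cut (η : ℝ) (L : List (Dat X)) (p : List Bool → X → ℝ) (Kp : ℝ) : Prop where
  K0 : 0 ≤ Kp
  nn : ∀ e x, 0 ≤ p e x
  le : ∀ e x, p e x ≤ 1
  one : ∀ e x, ‖VV η L e x‖ ≤ 1 / 2 → p e x = 1
  zero : ∀ e x, 1 ≤ ‖VV η L e x‖ → p e x = 0
  lip : ∀ e x y, |p e x - p e y| ≤ Kp * ‖x - y‖

/-- all cut-offs of the list are valid -/
def VC (η : ℝ) : List (Dat X) → Prop
  | [] => True
  | d :: L => (∃ Kp, Cut η L d.p Kp) ∧ VC η L

/-- the invariant of the construction -/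
structure Inv (η Λ a : ℝ) (L : List (Dat X)) : Prop where
  vb : ∀ e x, ‖VV η L e x‖ ≤ 1 + η * Λ
  vu : ∀ ε : ℝ, 0 < ε → ∃ δ : ℝ, 0 < δ ∧ ∀ e x y, ‖x - y‖ ≤ δ → ‖VV η L e x - VV η L e y‖ ≤ ε
  ft : ∀ ε : ℝ, 0 < ε → ∃ δ : ℝ, 0 < δ ∧ ∀ e x y, ‖y - x‖ ≤ δ →
    |FF η L e y - FF η L e x - VV η L e x (y - x)| ≤ (a + ε) * ‖y - x‖

theorem Inv.nil {η Λ : ℝ} (hη : 0 ≤ η) (hΛ : 0 ≤ Λ) : Inv (X := X) η Λ 0 [] := by
  refine ⟨?_, ?_, ?_⟩
  · intro e x
    simp only [VV, norm_zero]
    positivity
  · intro ε hε
    refine ⟨1, one_pos, fun e x y _ => ?_⟩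
    simp only [VV, sub_zero, norm_zero]
    exact hε.le
  · intro ε hε
    refine ⟨1, one_pos, fun e x y _ => ?_⟩
    simp only [VV, FF, sub_zero, zero_apply, abs_zero]
    positivity

/-- existence of a valid cut-off -/
theorem Inv.exists_cut {η Λ a : ℝ} {L : List (Dat X)} (h : Inv η Λ a L) (hη : 0 ≤ η)
    (hΛ : 0 ≤ Λ) : ∃ (p : List Bool → X → ℝ) (Kp : ℝ), Cut η L p Kp := by
  obtain ⟨δ, hδ, h1⟩ := h.vu (1 / 8) (by norm_num)
  have hap : ∀ e : List Bool, ∃ θ : X → ℝ, Lipc ((1 + η * Λ) / δ) θ ∧
      (∀ x, θ x ≤ ‖VV η L e x‖) ∧ ∀ x, ‖VV η L e x‖ - 1 / 8 ≤ θ x := fun e =>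
    exists_lip_approx hδ (by positivity) (fun x => norm_nonneg _) (fun x => h.vb e x)
      (fun x y hxy => (abs_norm_sub_norm_le _ _).trans (h1 e x y hxy))
  choose θ hθ1 hθ2 hθ3 using hap
  refine ⟨fun e x => max 0 (min 1 (7 / 2 - 4 * θ e x)), 4 * ((1 + η * Λ) / δ), ?_, ?_, ?_, ?_, ?_, ?_⟩
  · positivity
  · intro e x
    exact le_max_left _ _
  · intro e x
    exact max_le zero_le_one (min_le_left _ _)
  · intro e x hx
    have h2 := hθ2 e x
    rw [min_eq_left (by linarith), max_eq_right zero_le_one]
  · intro e x hx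
    have h2 := hθ3 e x
    exact max_eq_left ((min_le_right _ _).trans (by linarith))
  · intro e x y
    refine (abs_max_sub_max_le_max _ _ _ _).trans (max_le ?_ ?_)
    · rw [sub_zero, abs_zero]
      positivity
    · refine (abs_min_sub_min_le_max _ _ _ _).trans (max_le ?_ ?_)
      · rw [sub_self, abs_zero]
        positivity
      · have e1 : 7 / 2 - 4 * θ e x - (7 / 2 - 4 * θ e y) = -(4 * (θ e x - θ e y)) := by ring
        rw [e1, abs_neg, abs_mul, abs_of_pos (by norm_num : (0 : ℝ) < 4), mul_assoc]
        exact mul_le_mul_of_nonneg_left (hθ1 e x y) (by norm_num)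

/-- one step of the construction -/
theorem Inv.cons {η Λ a r Kp : ℝ} {L : List (Dat X)} (h : Inv η Λ a L) (hη : 0 ≤ η)
    (hΛ : 0 ≤ Λ) (hr : 0 ≤ r) {d : Dat X} (hd : Sm Λ r d.f d.D) (hp : Cut η L d.p Kp) :
    Inv η Λ (a + η * Kp * r) (d :: L) := by
  have hKp := hp.K0
  refine ⟨?_, ?_, ?_⟩
  · intro e x
    cases e with
    | nil => simp only [VV, norm_zero]; positivity
    | cons s e =>
      simp only [VV]
      by_cases h1 : 1 ≤ ‖VV η L e x‖
      · rw [hp.zero e x h1, mul_zero, zero_smul, add_zero]
        exact h.vb e x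
      · push Not at h1
        refine (norm_add_le _ _).trans ?_
        have h2 : ‖(η * sg s * d.p e x) • d.D x‖ ≤ η * Λ := by
          rw [norm_smul, norm_mul, norm_mul, Real.norm_eq_abs, Real.norm_eq_abs, Real.norm_eq_abs,
            sg_abs, mul_one, abs_of_nonneg hη, abs_of_nonneg (hp.nn e x)]
          have h3 := hp.le e x
          have h4 := hp.nn e x
          have h5 := hd.b x
          have h6 : η * d.p e x ≤ η := by nlinarith
          exact mul_le_mul h6 h5 (norm_nonneg _) hη
        linarith
  · intro ε hε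
    obtain ⟨δ1, hδ1, h1⟩ := h.vu (ε / 3) (by positivity)
    obtain ⟨δ2, hδ2, h2⟩ := UD.uc hΛ hd.u hd.lip (ε / (3 * (η + 1))) (by positivity)
    refine ⟨min δ1 (min δ2 (ε / (3 * (η * Kp * Λ + 1)))), by positivity, fun e x y hxy => ?_⟩
    have hxy1 : ‖x - y‖ ≤ δ1 := hxy.trans (min_le_left _ _)
    have hxy2 : ‖x - y‖ ≤ δ2 := hxy.trans ((min_le_right _ _).trans (min_le_left _ _))
    have hxy3 : ‖x - y‖ ≤ ε / (3 * (η * Kp * Λ + 1)) :=
      hxy.trans ((min_le_right _ _).trans (min_le_right _ _))
    cases e with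
    | nil => simp only [VV, sub_zero, norm_zero]; positivity
    | cons s e =>
      simp only [VV]
      set p := d.p e x with hpx
      set q := d.p e y with hqx
      have e1 : VV η L e x + (η * sg s * p) • d.D x - (VV η L e y + (η * sg s * q) • d.D y) =
          (VV η L e x - VV η L e y) + ((η * sg s * (p - q)) • d.D x +
            (η * sg s * q) • (d.D x - d.D y)) := by
        module
      rw [e1]
      have h3 : ‖(η * sg s * (p - q)) • d.D x‖ ≤ ε / 3 := by
        rw [norm_smul, norm_mul, norm_mul, Real.norm_eq_abs, Real.norm_eq_abs, Real.norm_eq_abs,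
          sg_abs, mul_one, abs_of_nonneg hη]
        have h3 : |p - q| ≤ Kp * ‖x - y‖ := hp.lip e x y
        have h5 := hd.b x
        calc η * |p - q| * ‖d.D x‖ ≤ η * (Kp * ‖x - y‖) * Λ := by
              refine mul_le_mul (mul_le_mul_of_nonneg_left h3 hη) h5 (norm_nonneg _) ?_
              positivity
          _ = (η * Kp * Λ) * ‖x - y‖ := by ring
          _ ≤ (η * Kp * Λ + 1) * (ε / (3 * (η * Kp * Λ + 1))) := by
              refine mul_le_mul (by linarith) hxy3 (norm_nonneg _) (by positivity)
          _ = ε / 3 := by field_simp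
      have h4 : ‖(η * sg s * q) • (d.D x - d.D y)‖ ≤ ε / 3 := by
        rw [norm_smul, norm_mul, norm_mul, Real.norm_eq_abs, Real.norm_eq_abs, Real.norm_eq_abs,
          sg_abs, mul_one, abs_of_nonneg hη, abs_of_nonneg (hp.nn e y)]
        have h3 : q ≤ 1 := hp.le e y
        have h4 : 0 ≤ q := hp.nn e y
        have h5 := h2 x y hxy2
        calc η * q * ‖d.D x - d.D y‖ ≤ (η + 1) * (ε / (3 * (η + 1))) := by
              refine mul_le_mul (by nlinarith) h5 (norm_nonneg _) (by positivity)
          _ = ε / 3 := by field_simp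
      have h7 := h1 e x y hxy1
      refine (norm_add_le _ _).trans ?_
      have h8 := norm_add_le ((η * sg s * (p - q)) • d.D x) ((η * sg s * q) • (d.D x - d.D y))
      linarith
  · intro ε hε
    obtain ⟨δ1, hδ1, h1⟩ := h.ft (ε / 2) (by positivity)
    obtain ⟨δ2, hδ2, h2⟩ := hd.u (ε / (2 * (η + 1))) (by positivity)
    refine ⟨min δ1 δ2, by positivity, fun e x y hxy => ?_⟩
    have hxy1 : ‖y - x‖ ≤ δ1 := hxy.trans (min_le_left _ _)
    have hxy2 : ‖y - x‖ ≤ δ2 := hxy.trans (min_le_right _ _)
    cases e with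
    | nil =>
      have h3 := h1 [] x y hxy1
      have h4 : 0 ≤ (a + ε / 2) * ‖y - x‖ := (abs_nonneg _).trans h3
      simp only [VV, FF, sub_zero, zero_apply, abs_zero]
      have h5 : 0 ≤ (η * Kp * r + ε / 2) * ‖y - x‖ := by positivity
      linarith
    | cons s e =>
      simp only [VV, FF]
      set p := d.p e x with hpx
      set q := d.p e y with hqx
      have e1 : FF η L e y + η * sg s * (q * d.f y) - (FF η L e x + η * sg s * (p * d.f x)) -
          (VV η L e x + (η * sg s * p) • d.D x) (y - x) =
          (FF η L e y - FF η L e x - VV η L e x (y - x)) +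
            (η * sg s * ((q - p) * d.f y) + η * sg s * (p * (d.f y - d.f x - d.D x (y - x)))) := by
        simp only [add_apply, smul_apply, smul_eq_mul]
        ring
      rw [e1]
      have h3 : |η * sg s * ((q - p) * d.f y)| ≤ η * Kp * r * ‖y - x‖ := by
        rw [abs_mul, abs_mul, sg_abs, mul_one, abs_of_nonneg hη, abs_mul]
        have h3 : |q - p| ≤ Kp * ‖y - x‖ := hp.lip e y x
        have h5 := hd.s y
        calc η * (|q - p| * |d.f y|) ≤ η * ((Kp * ‖y - x‖) * r) := by
              refine mul_le_mul_of_nonneg_left (mul_le_mul h3 h5 (abs_nonneg _) ?_) hη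
              positivity
          _ = _ := by ring
      have h4 : |η * sg s * (p * (d.f y - d.f x - d.D x (y - x)))| ≤ ε / 2 * ‖y - x‖ := by
        rw [abs_mul, abs_mul, sg_abs, mul_one, abs_of_nonneg hη, abs_mul,
          abs_of_nonneg (hp.nn e x)]
        have h3 : p ≤ 1 := hp.le e x
        have h4 : 0 ≤ p := hp.nn e x
        have h5 := h2 x y hxy2
        rw [zero_add] at h5
        calc η * (p * |d.f y - d.f x - d.D x (y - x)|) ≤
            (η + 1) * (1 * (ε / (2 * (η + 1)) * ‖y - x‖)) := by
              refine mul_le_mul (by linarith) (mul_le_mul h3 h5 (abs_nonneg _) zero_le_one) ?_ ?_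
              · positivity
              · positivity
          _ = _ := by field_simp
      have h7 := h1 e x y hxy1
      refine (abs_add_le _ _).trans ?_
      have h8 := abs_add_le (η * sg s * ((q - p) * d.f y))
        (η * sg s * (p * (d.f y - d.f x - d.D x (y - x))))
      linarith

theorem Inv.lip {η Λ a : ℝ} {L : List (Dat X)} (h : Inv η Λ a L) (e : List Bool) :
    Lipc (a + (1 + η * Λ)) (FF η L e) :=
  seg (fun ε hε => by
    obtain ⟨δ, hδ, h1⟩ := h.ft ε hε
    exact ⟨δ, hδ, fun x y hxy => h1 e x y hxy⟩) (h.vb e)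

/-! The stopping inequality -/

open scoped Classical in
/-- indicator of the event that the process has left the ball of radius `1/2` -/
noncomputable def II (η : ℝ) : List (Dat X) → List Bool → X → ℝ
  | [], _, _ => 0
  | _ :: _, [], _ => 0
  | d :: L, s :: e, x =>
    if II η L e x = 1 ∨ 1 / 2 < ‖VV η (d :: L) (s :: e) x‖ then 1 else 0

theorem II_cases (η : ℝ) (L : List (Dat X)) (e : List Bool) (x : X) :
    II η L e x = 0 ∨ II η L e x = 1 := by
  cases L with
  | nil => exact Or.inl rfl
  | cons d L =>
    cases e with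
    | nil => exact Or.inl rfl
    | cons s e =>
      simp only [II]
      split_ifs
      · exact Or.inr rfl
      · exact Or.inl rfl

theorem II_zero {η : ℝ} {L : List (Dat X)} (hL : VC η L) {e : List Bool} {x : X}
    (h : II η L e x = 0) : ‖VV η L e x‖ ≤ 1 / 2 ∧ VV η L e x = WW η L e x := by
  induction L generalizing e with
  | nil =>
    refine ⟨?_, rfl⟩
    simp only [VV, norm_zero]
    norm_num
  | cons d L ih =>
    cases e with
    | nil =>
      refine ⟨?_, rfl⟩
      simp only [VV, norm_zero]
      norm_num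
    | cons s e =>
      simp only [II] at h
      split_ifs at h with h1
      · exact absurd h one_ne_zero
      · push Not at h1
        refine ⟨h1.2, ?_⟩
        have h2 : II η L e x = 0 := by
          rcases II_cases η L e x with h3 | h3
          · exact h3
          · exact absurd h3 h1.1
        obtain ⟨h3, h4⟩ := ih hL.2 h2
        obtain ⟨Kp, hp⟩ := hL.1
        simp only [VV, WW]
        rw [hp.one e x h3, mul_one, h4]

theorem Av_stop {η : ℝ} {L : List (Dat X)} (hL : VC η L) (x : X) :
    0 ≤ Av L.length (fun e => II η L e x * (‖WW η L e x‖ - 1 / 2)) := by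
  induction L with
  | nil => simp [Av, II]
  | cons d L ih =>
    refine (ih hL.2).trans ?_
    rw [List.length_cons]
    simp only [Av]
    have key : ∀ e : List Bool, II η L e x * (‖WW η L e x‖ - 1 / 2) ≤
        1 / 2 * (II η (d :: L) (true :: e) x * (‖WW η (d :: L) (true :: e) x‖ - 1 / 2)) +
        1 / 2 * (II η (d :: L) (false :: e) x * (‖WW η (d :: L) (false :: e) x‖ - 1 / 2)) := by
      intro e
      rcases II_cases η L e x with h | h
      · rw [h, zero_mul]
        obtain ⟨h3, h4⟩ := II_zero hL.2 h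
        obtain ⟨Kp, hp⟩ := hL.1
        have hs : ∀ s : Bool, 0 ≤ II η (d :: L) (s :: e) x *
            (‖WW η (d :: L) (s :: e) x‖ - 1 / 2) := by
          intro s
          have e1 : VV η (d :: L) (s :: e) x = WW η (d :: L) (s :: e) x := by
            simp only [VV, WW]
            rw [hp.one e x h3, mul_one, h4]
          by_cases h5 : 1 / 2 < ‖VV η (d :: L) (s :: e) x‖
          · rw [← e1]
            rcases II_cases η (d :: L) (s :: e) x with h6 | h6 <;> rw [h6]
            · simp
            · linarith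
          · have h7 : II η (d :: L) (s :: e) x = 0 := by
              simp only [II]
              rw [if_neg]
              push Not
              refine ⟨?_, not_lt.1 h5⟩
              rw [h]
              exact zero_ne_one
            rw [h7, zero_mul]
        have h1 := hs true
        have h2 := hs false
        linarith
      · have hs : ∀ s : Bool, II η (d :: L) (s :: e) x = 1 := by
          intro s
          simp only [II]
          rw [if_pos (Or.inl h)]
        rw [hs, hs, h, one_mul, one_mul, one_mul]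
        have e1 : WW η (d :: L) (true :: e) x + WW η (d :: L) (false :: e) x =
            WW η L e x + WW η L e x := by
          simp only [WW, sg, if_true, Bool.false_eq_true, if_false]
          module
        have h3 := norm_add_le (WW η (d :: L) (true :: e) x) (WW η (d :: L) (false :: e) x)
        rw [e1, ← two_smul ℝ (WW η L e x), norm_smul, Real.norm_eq_abs,
          abs_of_pos (by norm_num : (0 : ℝ) < 2)] at h3
        linarith
    have h1 := Av_mono L.length (fun e _ => key e)
    rw [Av_add, Av_smul, Av_smul] at h1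
    linarith

/-- the mean of `1 - p` is at most twice the mean norm of the free sum -/
theorem Av_cut {η Kp : ℝ} {L : List (Dat X)} (hL : VC η L) {p : List Bool → X → ℝ}
    (hp : Cut η L p Kp) (x : X) :
    Av L.length (fun e => 1 - p e x) ≤ 2 * Av L.length (fun e => ‖WW η L e x‖) := by
  have h1 := Av_stop hL x
  have h2 : Av L.length (fun e => II η L e x * (‖WW η L e x‖ - 1 / 2)) ≤
      Av L.length (fun e => ‖WW η L e x‖ - 1 / 2 * (1 - p e x)) := by
    refine Av_mono _ fun e _ => ?_
    have h3 := norm_nonneg (WW η L e x)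
    rcases II_cases η L e x with h | h
    · obtain ⟨h4, -⟩ := II_zero hL h
      rw [h, hp.one e x h4]
      linarith
    · rw [h]
      have := hp.nn e x
      linarith
  rw [Av_sub, Av_smul] at h2
  linarith

/-- the mean norm of the free sum, in terms of `US` -/
theorem Av_WW (η : ℝ) (L : List (Dat X)) (x : X) (w : X →L[ℝ] ℝ) :
    Av L.length (fun e => ‖WW η L e x + w‖) = US (L.map fun d => η • d.D x) w := by
  induction L generalizing w with
  | nil => simp [Av, WW, US]
  | cons d L ih =>
    rw [List.length_cons, List.map_cons]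
    simp only [Av, US, WW]
    rw [← ih, ← ih]
    congr 3
    · funext e
      congr 1
      simp only [sg, if_true]
      module
    · funext e
      congr 1
      simp only [sg, Bool.false_eq_true, if_false]
      module

end LFS
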