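import Mathlib

/-!
# Finitely supported elements of the Lipschitz-free space

`X` is a real normed space. An element of the Lipschitz-free space over `X` with finite support is
a finitely supported function `μ : X →₀ ℝ`; it acts on Lipschitz functions by
`pr μ f = ∑ μ(x) (f x - f 0)`.
-/

set_option autoImplicit false

namespace LFS

open Filter Topology

variable {X : Type*} [NormedAddCommGroup X]

/-- The pairing of a finitely supported measure with a function; constants are killed. -/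
noncomputable def pr (μ : X →₀ ℝ) (f : X → ℝ) : ℝ := μ.sum fun x s => s * (f x - f 0)

/-- `f` is Lipschitz with the (real) constant `K`. -/
def Lipc (K : ℝ) (f : X → ℝ) : Prop := ∀ x y, |f x - f y| ≤ K * ‖x - y‖

/-- The sequence `μ` is weakly null in the Lipschitz-free space. -/
def WN (μ : ℕ → X →₀ ℝ) : Prop :=
  ∀ (K : ℝ) (f : X → ℝ), Lipc K f → Tendsto (fun n => pr (μ n) f) atTop (𝓝 0)

/-- The total mass. -/
noncomputable def tm (μ : X →₀ ℝ) : ℝ := μ.sum fun _ s => |s|

theorem pr_add_left (μ ν : X →₀ ℝ) (f : X → ℝ) : pr (μ + ν) f = pr μ f + pr ν f := by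
  classical
  unfold pr
  exact Finsupp.sum_add_index' (fun x => by simp) (fun x a b => by ring)

theorem pr_smul_left (c : ℝ) (μ : X →₀ ℝ) (f : X → ℝ) : pr (c • μ) f = c * pr μ f := by
  unfold pr
  rw [Finsupp.sum_smul_index' (fun x => by simp), Finsupp.mul_sum]
  refine Finsupp.sum_congr fun x _ => ?_
  rw [smul_eq_mul, mul_assoc]

theorem pr_zero_left (f : X → ℝ) : pr (0 : X →₀ ℝ) f = 0 := by
  unfold pr
  exact Finsupp.sum_zero_index

theorem pr_add_right (μ : X →₀ ℝ) (f g : X → ℝ) :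
    pr μ (fun x => f x + g x) = pr μ f + pr μ g := by
  unfold pr
  rw [← Finsupp.sum_add]
  refine Finsupp.sum_congr fun x _ => ?_
  ring

theorem pr_smul_right (μ : X →₀ ℝ) (c : ℝ) (f : X → ℝ) :
    pr μ (fun x => c * f x) = c * pr μ f := by
  unfold pr
  rw [Finsupp.mul_sum]
  refine Finsupp.sum_congr fun x _ => ?_
  ring

theorem pr_sub_right (μ : X →₀ ℝ) (f g : X → ℝ) :
    pr μ (fun x => f x - g x) = pr μ f - pr μ g := by
  unfold pr
  rw [← Finsupp.sum_sub]
  refine Finsupp.sum_congr fun x _ => ?_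
  ring

theorem pr_neg_right (μ : X →₀ ℝ) (f : X → ℝ) : pr μ (fun x => - f x) = - pr μ f := by
  have := pr_smul_right μ (-1) f
  simpa using this

theorem pr_zero_right (μ : X →₀ ℝ) : pr μ (fun _ => 0) = 0 := by
  unfold pr
  simp [Finsupp.sum]

theorem pr_congr (μ : X →₀ ℝ) {f g : X → ℝ} (h : ∀ x ∈ μ.support, f x = g x) (h0 : f 0 = g 0) :
    pr μ f = pr μ g := by
  unfold pr
  refine Finsupp.sum_congr fun x hx => ?_
  rw [h x hx, h0]

theorem pr_eq_zero (μ : X →₀ ℝ) {f : X → ℝ} (h : ∀ x ∈ μ.support, f x = 0) (h0 : f 0 = 0) :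
    pr μ f = 0 := by
  rw [pr_congr μ (g := fun _ => 0) h h0, pr_zero_right]

omit [NormedAddCommGroup X] in
theorem tm_nonneg (μ : X →₀ ℝ) : 0 ≤ tm μ := by
  unfold tm Finsupp.sum
  exact Finset.sum_nonneg fun x _ => abs_nonneg _

theorem abs_pr_le' (μ : X →₀ ℝ) {f : X → ℝ} {r : ℝ} (h : ∀ x ∈ μ.support, |f x| ≤ r)
    (h0 : |f 0| ≤ r) : |pr μ f| ≤ 2 * tm μ * r := by
  unfold pr tm Finsupp.sum
  refine (Finset.abs_sum_le_sum_abs _ _).trans ?_
  rw [Finset.mul_sum, Finset.sum_mul]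
  refine Finset.sum_le_sum fun x hx => ?_
  rw [abs_mul]
  have h1 : |f x - f 0| ≤ 2 * r := by
    have := abs_sub (f x) (f 0)
    linarith [h x hx]
  nlinarith [abs_nonneg (μ x)]

theorem abs_pr_le (μ : X →₀ ℝ) {f : X → ℝ} {r : ℝ} (h : ∀ x, |f x| ≤ r) :
    |pr μ f| ≤ 2 * tm μ * r :=
  abs_pr_le' μ (fun x _ => h x) (h 0)

omit [NormedAddCommGroup X] in
theorem tm_add_le (μ ν : X →₀ ℝ) : tm (μ + ν) ≤ tm μ + tm ν := by
  classical
  unfold tm
  rw [Finsupp.sum_of_support_subset (μ + ν) Finsupp.support_add _ (fun _ _ => abs_zero),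
    Finsupp.sum_of_support_subset μ Finset.subset_union_left _ (fun _ _ => abs_zero),
    Finsupp.sum_of_support_subset ν Finset.subset_union_right _ (fun _ _ => abs_zero),
    ← Finset.sum_add_distrib]
  exact Finset.sum_le_sum fun x _ => abs_add_le _ _

omit [NormedAddCommGroup X] in
theorem tm_smul (c : ℝ) (μ : X →₀ ℝ) : tm (c • μ) = |c| * tm μ := by
  unfold tm
  rw [Finsupp.sum_smul_index' (fun x => abs_zero), Finsupp.mul_sum]
  refine Finsupp.sum_congr fun x _ => ?_
  rw [smul_eq_mul, abs_mul]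

/-! Lipschitz functions -/

theorem Lipc.mono {K K' : ℝ} {f : X → ℝ} (h : Lipc K f) (hK : K ≤ K') : Lipc K' f :=
  fun x y => (h x y).trans (mul_le_mul_of_nonneg_right hK (norm_nonneg _))

theorem Lipc.add {K K' : ℝ} {f g : X → ℝ} (hf : Lipc K f) (hg : Lipc K' g) :
    Lipc (K + K') (fun x => f x + g x) := by
  intro x y
  have h1 := hf x y
  have h2 := hg x y
  have h3 : f x + g x - (f y + g y) = (f x - f y) + (g x - g y) := by ring
  rw [h3, add_mul]
  exact (abs_add_le _ _).trans (add_le_add h1 h2)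

theorem Lipc.neg {K : ℝ} {f : X → ℝ} (hf : Lipc K f) : Lipc K (fun x => - f x) := by
  intro x y
  have h3 : - f x - - f y = - (f x - f y) := by ring
  rw [h3, abs_neg]
  exact hf x y

theorem Lipc.sub {K K' : ℝ} {f g : X → ℝ} (hf : Lipc K f) (hg : Lipc K' g) :
    Lipc (K + K') (fun x => f x - g x) := by
  simpa [sub_eq_add_neg] using hf.add hg.neg

theorem Lipc.const (c : ℝ) : Lipc 0 (fun _ : X => c) := by
  intro x y
  simp

theorem Lipc.smul {K : ℝ} {f : X → ℝ} (hf : Lipc K f) (c : ℝ) : Lipc (|c| * K) (fun x => c * f x) := by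
  intro x y
  rw [← mul_sub, abs_mul, mul_assoc]
  exact mul_le_mul_of_nonneg_left (hf x y) (abs_nonneg c)

theorem Lipc.norm : Lipc 1 (fun x : X => ‖x‖) := by
  intro x y
  rw [one_mul]
  exact abs_norm_sub_norm_le x y

theorem Lipc.max {K : ℝ} {f g : X → ℝ} (hf : Lipc K f) (hg : Lipc K g) :
    Lipc K (fun x => max (f x) (g x)) := by
  intro x y
  exact (abs_max_sub_max_le_max _ _ _ _).trans (max_le (hf x y) (hg x y))

theorem Lipc.min {K : ℝ} {f g : X → ℝ} (hf : Lipc K f) (hg : Lipc K g) :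
    Lipc K (fun x => min (f x) (g x)) := by
  intro x y
  exact (abs_min_sub_min_le_max _ _ _ _).trans (max_le (hf x y) (hg x y))

/-- truncation of `t` at height `h` -/
noncomputable def cl (h t : ℝ) : ℝ := max (-h) (min t h)

theorem cl_abs {h : ℝ} (hh : 0 ≤ h) (t : ℝ) : |cl h t| ≤ h := by
  unfold cl
  rw [abs_le]
  constructor
  · exact le_max_left _ _
  · exact max_le (by linarith) (min_le_right _ _)

theorem cl_eq {h t : ℝ} (ht : |t| ≤ h) : cl h t = t := by
  unfold cl
  rw [abs_le] at ht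
  rw [min_eq_left ht.2, max_eq_right ht.1]

theorem cl_zero {h : ℝ} (hh : 0 ≤ h) : cl h 0 = 0 := cl_eq (by simpa using hh)

theorem cl_zero_left (t : ℝ) : cl 0 t = 0 := by
  have := cl_abs le_rfl t
  exact abs_nonpos_iff.1 this

theorem Lipc.cl {K : ℝ} {f h : X → ℝ} (hf : Lipc K f) (hh : Lipc K h) :
    Lipc K (fun x => cl (h x) (f x)) :=
  hh.neg.max (hf.min hh)

/-- distance to a nonempty finite set -/
noncomputable def dS (S : Finset X) (x : X) : ℝ := Metric.infDist x (S : Set X)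

theorem Lipc.dS (S : Finset X) : Lipc 1 (dS S) := by
  intro x y
  have h := (Metric.lipschitz_infDist_pt (S : Set X)).dist_le_mul x y
  rw [Real.dist_eq, dist_eq_norm, NNReal.coe_one] at h
  exact h

theorem dS_mem {S : Finset X} {x : X} (hx : x ∈ S) : dS S x = 0 := by
  unfold LFS.dS
  exact Metric.infDist_zero_of_mem (by simpa using hx)

theorem dS_nonneg (S : Finset X) (x : X) : 0 ≤ dS S x := Metric.infDist_nonneg

theorem dS_anti {S T : Finset X} (h : S ⊆ T) (hS : S.Nonempty) (x : X) : dS T x ≤ dS S x := by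
  unfold LFS.dS
  exact Metric.infDist_le_infDist_of_subset (by simpa using h) (by simpa using hS)

/-- Lipschitz functions: the pairing is bounded by the norm. -/
def NB (M : ℝ) (μ : X →₀ ℝ) : Prop := ∀ f : X → ℝ, Lipc 1 f → pr μ f ≤ M

theorem NB.le {M : ℝ} {μ : X →₀ ℝ} (h : NB M μ) {K : ℝ} (hK : 0 < K) {f : X → ℝ} (hf : Lipc K f) :
    |pr μ f| ≤ M * K := by
  have h1 : Lipc 1 (fun x => K⁻¹ * f x) := by
    have := hf.smul K⁻¹
    rwa [abs_of_pos (inv_pos.2 hK), inv_mul_cancel₀ hK.ne'] at this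
  have h2 : Lipc 1 (fun x => (-K⁻¹) * f x) := by
    have := hf.smul (-K⁻¹)
    rwa [abs_neg, abs_of_pos (inv_pos.2 hK), inv_mul_cancel₀ hK.ne'] at this
  have h3 := h _ h1
  have h4 := h _ h2
  rw [pr_smul_right] at h3 h4
  have h5 : pr μ f = K * (K⁻¹ * pr μ f) := by field_simp
  rw [abs_le]
  constructor
  · nlinarith
  · nlinarith

theorem NB.nonneg {M : ℝ} {μ : X →₀ ℝ} (h : NB M μ) : 0 ≤ M := by
  have := h (fun _ => 0) ((Lipc.const 0).mono zero_le_one)
  rwa [pr_zero_right] at this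

theorem NB.le' {M : ℝ} {μ : X →₀ ℝ} (h : NB M μ) {K : ℝ} (hK : 0 ≤ K) {f : X → ℝ}
    (hf : Lipc K f) : |pr μ f| ≤ M * K := by
  rcases hK.eq_or_lt with h0 | h0
  · have e : pr μ f = 0 := by
      rw [pr_congr μ (g := fun _ => f 0) ?_ rfl]
      · unfold pr
        simp [Finsupp.sum]
      · intro x _
        have := hf x 0
        rw [← h0, zero_mul] at this
        have := abs_nonpos_iff.1 this
        linarith
    rw [e, abs_zero]
    exact mul_nonneg h.nonneg hK
  · exact h.le h0 hf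

end LFS
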