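import Pool.Agent.Lib.MP_0d9d33_an.Transfer

/-!
# The lower estimate in the Lipschitz-free space
-/

set_option autoImplicit false

namespace LFS

open Filter Topology

/-- a weakly null sequence is bounded -/
theorem wn_bounded {Y : Type*} [NormedAddCommGroup Y] [NormedSpace ℝ Y] {g : ℕ → Y}
    (hg : ∀ φ : Y →L[ℝ] ℝ, Tendsto (fun n => φ (g n)) atTop (𝓝 0)) :
    ∃ C : ℝ, 0 ≤ C ∧ ∀ n, ‖g n‖ ≤ C := by
  obtain ⟨C, hC⟩ := banach_steinhaus
    (g := fun n => (NormedSpace.inclusionInDoubleDual ℝ Y (g n) : StrongDual ℝ Y →L[ℝ] ℝ))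
    (fun φ => by
      have h1 := (hg φ).norm.bddAbove_range
      obtain ⟨c, hc⟩ := h1
      exact ⟨c, fun n => hc ⟨n, rfl⟩⟩)
  refine ⟨C, (norm_nonneg _).trans (hC 0), fun n => ?_⟩
  have h2 : ‖NormedSpace.inclusionInDoubleDual ℝ Y (g n)‖ = ‖g n‖ :=
    (NormedSpace.inclusionInDoubleDualLi ℝ).norm_map (g n)
  rw [← h2]
  exact hC n

variable {X : Type*} [NormedAddCommGroup X] [NormedSpace ℝ X]
variable {M : Type*} [MetricSpace M] {b : M}

theorem sum_half_pow_le (S : Finset ℕ) {E : ℝ} (hE : 0 ≤ E) :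
    ∑ i ∈ S, E * (1 / 2) ^ (i + 1) ≤ E := by
  have h1 : HasSum (fun n : ℕ => (1 / 2 : ℝ) ^ (n + 1)) 1 := by
    have h := hasSum_geometric_two.mul_left (1 / 2 : ℝ)
    have e : (fun i : ℕ => (1 / 2 : ℝ) * (1 / 2) ^ i) = fun n => (1 / 2) ^ (n + 1) := by
      funext n
      rw [pow_succ, mul_comm]
    have e2 : (1 / 2 : ℝ) * 2 = 1 := by norm_num
    rw [e, e2] at h
    exact h
  have h2 : HasSum (fun n : ℕ => E * (1 / 2 : ℝ) ^ (n + 1)) (E * 1) := h1.mul_left E
  rw [mul_one] at h2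
  exact sum_le_hasSum S (fun i _ => by positivity) h2

/-- Lower estimate for weakly null sequences in the free space over a subset of a space
whose dual has type `s > 1`. -/
theorem lower_free {s : ℝ} (hs : 1 < s) (hT : DualType X s)
    {ι : M → X} {A B : ℝ} (hA : 0 ≤ A) (hB : 0 ≤ B)
    (h1 : ∀ x y, dist x y ≤ A * ‖ι x - ι y‖) (h2 : ∀ x y, ‖ι x - ι y‖ ≤ B * dist x y)
    (g : ℕ → LipFree M b) (hg : ∀ φ : LipFree M b →L[ℝ] ℝ, Tendsto (fun n => φ (g n)) atTop (𝓝 0))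
    {δ : ℝ} (hδ : 0 < δ) (hδg : ∀ n, δ ≤ ‖g n‖) :
    ∃ c : ℝ, 0 < c ∧ ∀ N n₀ : ℕ, ∃ S : Finset ℕ, S.card = N ∧ (∀ k ∈ S, n₀ ≤ k) ∧
      c * (N : ℝ) ^ (1 - 1 / s) ≤ sgnAvg S g := by
  obtain ⟨C, hC0, hC⟩ := wn_bounded (Y := LipFree M b) (g := g) hg
  obtain ⟨T, hT1, hK⟩ := kn_of_type hs hT
  set j : M → X := fun x => ι x - ι b with hj
  have hjb : j b = 0 := by simp [hj]
  set A' := A + 1 with hA'
  set B' := B + 1 with hB'
  have hA'0 : 0 < A' := by linarith
  have hB'0 : 0 < B' := by linarith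
  have h1' : ∀ x y, dist x y ≤ A' * ‖j x - j y‖ := by
    intro x y
    have e : j x - j y = ι x - ι y := by simp [hj]
    rw [e]
    have := h1 x y
    nlinarith [norm_nonneg (ι x - ι y)]
  have h2' : ∀ x y, ‖j x - j y‖ ≤ B' * dist x y := by
    intro x y
    have e : j x - j y = ι x - ι y := by simp [hj]
    rw [e]
    have := h2 x y
    nlinarith [dist_nonneg (x := x) (y := y)]
  -- constants
  obtain ⟨Λ, hΛ1, hSMX⟩ : ∃ Λ : ℝ, 1 ≤ Λ ∧ SMX X Λ := ⟨2, by norm_num, smx_all X⟩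
  set M₁ : ℝ := (C + 1) * B' with hM₁
  have hM₁0 : 0 < M₁ := by positivity
  set δ₁ : ℝ := δ / 4 * A'⁻¹ with hδ₁
  have hδ₁0 : 0 < δ₁ := by positivity
  set c₁ : ℝ := δ₁ ^ 2 / (128 * M₁ * Λ ^ 2 * T) / (2 * B') with hc₁
  have hc₁0 : 0 < c₁ := by positivity
  set E : ℝ := min (min (δ / 2) 1) (c₁ / 2) with hE
  have hE0 : 0 < E := by positivity
  have hE1 : E ≤ δ / 2 := (min_le_left _ _).trans (min_le_left _ _)
  have hE2 : E ≤ 1 := (min_le_left _ _).trans (min_le_right _ _)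
  have hE3 : E ≤ c₁ / 2 := min_le_right _ _
  have hpow : ∀ n : ℕ, E * (1 / 2) ^ (n + 1) ≤ E := fun n => by
    have : (1 / 2 : ℝ) ^ (n + 1) ≤ 1 := pow_le_one₀ (by norm_num) (by norm_num)
    nlinarith
  -- approximation by finitely supported elements
  have hap : ∀ n, ∃ μ : M →₀ ℝ, ‖(g n : Lip0 M b →L[ℝ] ℝ) - fin b μ‖ ≤ E * (1 / 2) ^ (n + 1) :=
    fun n => exists_fin (g n) (by positivity)
  choose μ hμ using hap
  set ν : ℕ → X →₀ ℝ := fun n => (μ n).mapDomain j with hν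
  have hup : ∀ n, ‖fin b (μ n)‖ ≤ C + 1 := by
    intro n
    have e : fin b (μ n) = (g n : Lip0 M b →L[ℝ] ℝ) - ((g n : Lip0 M b →L[ℝ] ℝ) - fin b (μ n)) := by
      abel
    rw [e]
    refine (norm_sub_le _ _).trans ?_
    have h3 : ‖(g n : Lip0 M b →L[ℝ] ℝ)‖ ≤ C := hC n
    linarith [hμ n, hpow n]
  have hlo : ∀ n, δ / 2 ≤ ‖fin b (μ n)‖ := by
    intro n
    have h3 : δ ≤ ‖(g n : Lip0 M b →L[ℝ] ℝ)‖ := hδg n
    have h4 : ‖(g n : Lip0 M b →L[ℝ] ℝ)‖ ≤ ‖(g n : Lip0 M b →L[ℝ] ℝ) - fin b (μ n)‖ +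
        ‖fin b (μ n)‖ := by
      have := norm_add_le ((g n : Lip0 M b →L[ℝ] ℝ) - fin b (μ n)) (fin b (μ n))
      rwa [sub_add_cancel] at this
    linarith [hμ n, hpow n]
  have hWN : WN ν := by
    intro K f hf
    obtain ⟨F, -, hF⟩ := exists_pull (b := b) hjb hB'0.le h2' (abs_nonneg K)
      (hf.mono (le_abs_self K))
    have e : ∀ n, pr (ν n) f = fin b (μ n) F := fun n => hF (μ n)
    have hl1 : Tendsto (fun n => (g n : Lip0 M b →L[ℝ] ℝ) F) atTop (𝓝 0) := by
      let φ : LipFree M b →L[ℝ] ℝ :=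
        (ContinuousLinearMap.apply ℝ ℝ F).comp (LipFree M b).subtypeL
      exact hg φ
    have hl2 : Tendsto (fun n => ((g n : Lip0 M b →L[ℝ] ℝ) - fin b (μ n)) F) atTop (𝓝 0) := by
      refine squeeze_zero_norm (a := fun n : ℕ => (E * (1 / 2) ^ (n + 1)) * ‖F‖) (fun n => ?_) ?_
      · exact (ContinuousLinearMap.le_opNorm _ _).trans
          (mul_le_mul_of_nonneg_right (hμ n) (norm_nonneg _))
      · have h3 : Tendsto (fun n : ℕ => (1 / 2 : ℝ) ^ (n + 1)) atTop (𝓝 0) :=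
          (tendsto_pow_atTop_nhds_zero_of_lt_one (by norm_num) (by norm_num)).comp
            (tendsto_add_atTop_nat 1)
        have h4 := (h3.const_mul E).mul_const ‖F‖
        simpa using h4
    have h3 := hl1.sub hl2
    rw [sub_zero] at h3
    refine h3.congr fun n => ?_
    rw [e n, sub_apply]
    ring
  have hNB : ∀ n, NB M₁ (ν n) := by
    intro n f hf
    obtain ⟨F, hF1, hF⟩ := exists_pull (b := b) hjb hB'0.le h2' zero_le_one hf
    have e : pr (ν n) f = fin b (μ n) F := hF (μ n)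
    rw [e]
    refine (le_abs_self _).trans ?_
    rw [← Real.norm_eq_abs]
    refine (ContinuousLinearMap.le_opNorm _ _).trans ?_
    rw [one_mul] at hF1
    exact mul_le_mul (hup n) hF1 (norm_nonneg _) (by positivity)
  have hnorm : ∀ n, ∃ f : X → ℝ, Lipc 1 f ∧ δ₁ ≤ pr (ν n) f := by
    intro n
    obtain ⟨F, hF1, hF2⟩ : ∃ F : Lip0 M b, ‖F‖ ≤ 1 ∧ δ / 4 ≤ fin b (μ n) F := by
      by_contra hcon
      push Not at hcon
      have h3 : ‖fin b (μ n)‖ ≤ δ / 4 := by
        refine ContinuousLinearMap.opNorm_le_of_unit_norm (by positivity) fun F hF => ?_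
        rw [Real.norm_eq_abs, abs_le]
        have h4 := hcon F hF.le
        have h5 := hcon (-F) (by rw [norm_neg]; exact hF.le)
        rw [map_neg] at h5
        constructor <;> linarith
      linarith [hlo n]
    obtain ⟨f, hf1, hf2⟩ := exists_push (b := b) hjb hA'0.le h1' hF1
    refine ⟨fun x => A'⁻¹ * f x, ?_, ?_⟩
    · have := hf1.smul A'⁻¹
      rwa [abs_of_pos (inv_pos.2 hA'0), inv_mul_cancel₀ hA'0.ne'] at this
    · have e : pr (ν n) f = fin b (μ n) F := hf2 (μ n)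
      rw [pr_smul_right, e, hδ₁, mul_comm]
      exact mul_le_mul_of_nonneg_left hF2 (inv_pos.2 hA'0).le
  refine ⟨c₁ / 2, by positivity, fun N n₀ => ?_⟩
  rcases Nat.eq_zero_or_pos N with hN | hN
  · subst hN
    refine ⟨∅, rfl, by simp, ?_⟩
    have h0 : (1 : ℝ) - 1 / s ≠ 0 := by
      have : 1 / s < 1 := by rw [div_lt_one (by linarith)]; exact hs
      linarith
    rw [Nat.cast_zero, Real.zero_rpow h0, mul_zero]
    unfold sgnAvg
    positivity
  · have hN0 : (0 : ℝ) < N := by exact_mod_cast hN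
    have hN1 : (1 : ℝ) ≤ N := by exact_mod_cast hN
    have hNs : 1 ≤ (N : ℝ) ^ (1 / s) := Real.one_le_rpow hN1 (by positivity)
    obtain ⟨L, η, g1, g2, g3, g4, g5⟩ := lower hWN hN hδ₁0 hNB hnorm hSMX hΛ1 (hK N hN)
      (by nlinarith : 1 ≤ T * (N : ℝ) ^ (1 / s)) n₀
    have hnd : (L.map fun d => d.n).Nodup := by
      rw [List.nodup_iff_pairwise_ne, List.pairwise_map]
      exact g3.imp fun h => h.ne'
    refine ⟨(L.map fun d => d.n).toFinset, ?_, ?_, ?_⟩
    · rw [List.toFinset_card_of_nodup hnd, List.length_map, g1]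
    · intro k hk
      rw [List.mem_toFinset, List.mem_map] at hk
      obtain ⟨d, hd, rfl⟩ := hk
      exact g2 d hd
    · set S := (L.map fun d => d.n).toFinset with hS
      -- the average of the norms
      have h3 : Av N (fun e => pr (cb ν L e) (FF η L e)) ≤
          (2 * B') * sgnAvg S (fun n => fin b (μ n)) := by
        have h4 : Av N (fun e => (2 * B') * ‖(0 : Lip0 M b →L[ℝ] ℝ) +
            cv (fun n => fin b (μ n)) L e‖) = (2 * B') * sgnAvg S (fun n => fin b (μ n)) := by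
          rw [Av_smul, ← g1, Av_cv, sgnAvg_eq, ← US_eq_sgnAvg' _ hnd, List.map_map]
          rfl
        rw [← h4]
        refine Av_mono N fun e _ => ?_
        obtain ⟨F, hF1, hF⟩ := exists_pull (b := b) hjb hB'0.le h2' (by norm_num : (0 : ℝ) ≤ 2) (g4 e)
        have h5 := pr_cb j μ (FF η L e) F (fun n => hF (μ n)) L e
        have h6 : pr (cb ν L e) (FF η L e) = cv (fun n => fin b (μ n)) L e F := h5
        rw [h6, zero_add]
        refine (le_abs_self _).trans ?_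
        rw [← Real.norm_eq_abs]
        refine (ContinuousLinearMap.le_opNorm _ _).trans ?_
        rw [mul_comm]
        exact mul_le_mul_of_nonneg_right hF1 (ContinuousLinearMap.opNorm_nonneg _)
      have h7 : sgnAvg S (fun n => fin b (μ n)) ≤ sgnAvg S g + E := by
        have h8 := sgnAvg_perturb S (fun n => fin b (μ n)) (fun n => (g n : Lip0 M b →L[ℝ] ℝ))
        have h9 : sgnAvg S (fun n => (g n : Lip0 M b →L[ℝ] ℝ)) = sgnAvg S g := by
          unfold sgnAvg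
          congr 1
          refine Finset.sum_congr rfl fun A _ => ?_
          have e : ((∑ i ∈ A, g i - ∑ i ∈ S \ A, g i : LipFree M b) : Lip0 M b →L[ℝ] ℝ) =
              ∑ i ∈ A, (g i : Lip0 M b →L[ℝ] ℝ) - ∑ i ∈ S \ A, (g i : Lip0 M b →L[ℝ] ℝ) := by
            push_cast
            rfl
          rw [← e]
          rfl
        have h10 : ∑ i ∈ S, ‖fin b (μ i) - (g i : Lip0 M b →L[ℝ] ℝ)‖ ≤ E := by
          refine (Finset.sum_le_sum fun i _ => ?_).trans (sum_half_pow_le S hE0.le)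
          rw [norm_sub_rev]
          exact hμ i
        rw [h9] at h8
        linarith
      have h11 : (N : ℝ) * (δ₁ ^ 2 / (128 * M₁ * Λ ^ 2 * (T * (N : ℝ) ^ (1 / s)))) ≤
          (2 * B') * (sgnAvg S g + E) :=
        g5.trans (h3.trans (mul_le_mul_of_nonneg_left h7 (by positivity)))
      have h12 : (N : ℝ) ^ (1 - 1 / s) = N / (N : ℝ) ^ (1 / s) := by
        rw [Real.rpow_sub hN0, Real.rpow_one]
      have h13 : (N : ℝ) * (δ₁ ^ 2 / (128 * M₁ * Λ ^ 2 * (T * (N : ℝ) ^ (1 / s)))) =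
          (2 * B') * (c₁ * (N : ℝ) ^ (1 - 1 / s)) := by
        rw [h12, hc₁]
        have hT0 : 0 < T := by linarith
        have : 0 < (N : ℝ) ^ (1 / s) := by linarith
        have : 0 < Λ := by linarith
        field_simp
      rw [h13] at h11
      have h14 : c₁ * (N : ℝ) ^ (1 - 1 / s) ≤ sgnAvg S g + E :=
        le_of_mul_le_mul_left h11 (by positivity)
      have h15 : 1 ≤ (N : ℝ) ^ (1 - 1 / s) := by
        refine Real.one_le_rpow hN1 ?_
        have : 1 / s < 1 := by rw [div_lt_one (by linarith)]; exact hs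
        linarith
      nlinarith

end LFS
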