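import Pool.Agent.Lib.MP_0d9d33_an.Classical

/-!
# The dual of a Hilbert space has type 2
-/

set_option autoImplicit false

namespace LFS

variable {H : Type*} [NormedAddCommGroup H] [InnerProductSpace ℝ H]

theorem dual_parallelogram [CompleteSpace H] (u v : H →L[ℝ] ℝ) :
    ‖u + v‖ ^ 2 + ‖u - v‖ ^ 2 = 2 * ‖u‖ ^ 2 + 2 * ‖v‖ ^ 2 := by
  set e := (InnerProductSpace.toDual ℝ H).symm with he
  have h1 : ∀ w : H →L[ℝ] ℝ, ‖w‖ = ‖e w‖ := fun w => (e.norm_map w).symm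
  have h2 := parallelogram_law_with_norm ℝ (e u) (e v)
  rw [h1 (u + v), h1 (u - v), h1 u, h1 v, map_add, map_sub]
  nlinarith

/-- average of the squares of the norms -/
theorem sum_sq [CompleteSpace H] (S : Finset ℕ) (v : ℕ → (H →L[ℝ] ℝ)) (w : H →L[ℝ] ℝ) :
    ∑ A ∈ S.powerset, ‖w + (∑ i ∈ A, v i - ∑ i ∈ S \ A, v i)‖ ^ 2 =
      2 ^ S.card * (‖w‖ ^ 2 + ∑ i ∈ S, ‖v i‖ ^ 2) := by
  induction S using Finset.induction_on generalizing w with
  | empty => simp
  | insert a S ha ih =>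
    rw [Finset.sum_powerset_insert ha, Finset.card_insert_of_notMem ha, Finset.sum_insert ha]
    have e1 : ∑ A ∈ S.powerset, ‖w + (∑ i ∈ A, v i - ∑ i ∈ insert a S \ A, v i)‖ ^ 2 =
        ∑ A ∈ S.powerset, ‖(w - v a) + (∑ i ∈ A, v i - ∑ i ∈ S \ A, v i)‖ ^ 2 := by
      refine Finset.sum_congr rfl fun A hA => ?_
      have hA' := Finset.mem_powerset.1 hA
      have haA : a ∉ A := fun h => ha (hA' h)
      have haS : a ∉ S \ A := fun h => ha (Finset.mem_sdiff.1 h).1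
      rw [Finset.insert_sdiff_of_notMem _ haA, Finset.sum_insert haS]
      congr 2
      abel
    have e2 : ∑ A ∈ S.powerset, ‖w + (∑ i ∈ insert a A, v i - ∑ i ∈ insert a S \ insert a A, v i)‖ ^ 2
        = ∑ A ∈ S.powerset, ‖(w + v a) + (∑ i ∈ A, v i - ∑ i ∈ S \ A, v i)‖ ^ 2 := by
      refine Finset.sum_congr rfl fun A hA => ?_
      have hA' := Finset.mem_powerset.1 hA
      have haA : a ∉ A := fun h => ha (hA' h)
      rw [Finset.insert_sdiff_insert, Finset.sdiff_insert_of_notMem ha, Finset.sum_insert haA]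
      congr 2
      abel
    rw [e1, e2, ih, ih]
    have h := dual_parallelogram w (v a)
    have h2 : (2 : ℝ) ^ (S.card + 1) = 2 * 2 ^ S.card := by ring
    rw [h2]
    linear_combination (2 : ℝ) ^ S.card * h

theorem hilbert_dualType [CompleteSpace H] : DualType H 2 := by
  refine ⟨1, fun S v hv => ?_⟩
  rw [one_mul]
  have h1 := sum_sq S v 0
  simp only [zero_add, norm_zero] at h1
  have h2 : sgnAvg S v ^ 2 ≤ ∑ i ∈ S, ‖v i‖ ^ 2 := by
    unfold sgnAvg
    rw [div_pow, div_le_iff₀ (by positivity)]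
    have h3 := sq_sum_le_card_mul_sum_sq (s := S.powerset)
      (f := fun A => ‖∑ i ∈ A, v i - ∑ i ∈ S \ A, v i‖)
    rw [Finset.card_powerset, h1] at h3
    push_cast at h3
    refine h3.trans (le_of_eq ?_)
    ring
  have h3 : ∑ i ∈ S, ‖v i‖ ^ 2 ≤ S.card := by
    calc ∑ i ∈ S, ‖v i‖ ^ 2 ≤ ∑ i ∈ S, (1 : ℝ) :=
          Finset.sum_le_sum fun i hi => pow_le_one₀ (norm_nonneg _) (hv i hi)
      _ = S.card := by rw [Finset.sum_const, nsmul_eq_mul, mul_one]
  rw [← Real.sqrt_eq_rpow]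
  exact Real.le_sqrt_of_sq_le (h2.trans h3)

end LFS
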