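import Pool.Agent.Lib.MP_0d9d33_an.Defs

/-!
# Gliding hump
-/

set_option autoImplicit false

namespace LFS

open Filter Topology

open scoped Classical

variable {X : Type*} [NormedAddCommGroup X]

/-- the state of the construction -/
structure HSt (X : Type*) where
  S : Finset X
  n : ℕ
  f : X → ℝ
  G : X → ℝ

/-- the invariant -/
def HOk (s : HSt X) : Prop := 0 ∈ s.S ∧ ∃ K, Lipc K s.G

/-- one step -/
def HStep (μ : ℕ → X →₀ ℝ) (ε K : ℝ) (U : Finset X → Set X) (s t : HSt X) : Prop :=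
  s.S ⊆ t.S ∧ (μ t.n).support ⊆ t.S ∧ s.n < t.n ∧ Lipc K t.f ∧ (∀ x ∈ U s.S, t.f x = 0) ∧
    (∀ x ∉ U t.S, t.f x = 0) ∧ ε ≤ pr (μ t.n) t.f ∧ |pr (μ t.n) s.G| ≤ ε / 4 ∧
    t.G = fun x => s.G x + t.f x

/-- a function which vanishes on the support pairs to zero, so large indices can be forced -/
theorem hstep_exists {μ : ℕ → X →₀ ℝ} (hμ : WN μ) {ε K : ℝ} (hε : 0 < ε)
    (U : Finset X → Set X) (hU1 : ∀ S : Finset X, (S : Set X) ⊆ U S)
    (hU2 : ∀ S T : Finset X, S ⊆ T → U S ⊆ U T)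
    (h : ∀ S : Finset X, 0 ∈ S → ∃ n, ∃ f, Lipc K f ∧ (∀ x ∈ U S, f x = 0) ∧
      (∀ x ∉ U (S ∪ (μ n).support), f x = 0) ∧ ε ≤ pr (μ n) f) (s : HSt X) (hs : HOk s) :
    ∃ t, HOk t ∧ HStep μ ε K U s t := by
  obtain ⟨h0, KG, hG⟩ := hs
  have h1 := hμ KG s.G hG
  have h2 : ∀ᶠ n in atTop, |pr (μ n) s.G| < ε / 4 := by
    have := (tendsto_order.1 (h1.abs)).2 (ε / 4) (by simpa using by linarith)
    exact this
  obtain ⟨N, hN⟩ := eventually_atTop.1 h2
  set S1 : Finset X := s.S ∪ (Finset.range (max N (s.n + 1))).biUnion (fun n => (μ n).support) with hS1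
  have h01 : (0 : X) ∈ S1 := Finset.mem_union_left _ h0
  obtain ⟨n, f, hf1, hf2, hf3, hf4⟩ := h S1 h01
  have hn : max N (s.n + 1) ≤ n := by
    by_contra hlt
    push Not at hlt
    have h3 : pr (μ n) f = 0 := by
      refine pr_eq_zero _ (fun x hx => hf2 x (hU1 _ ?_)) (hf2 0 (hU1 _ (by simpa using h01)))
      rw [Finset.mem_coe, hS1, Finset.mem_union, Finset.mem_biUnion]
      exact Or.inr ⟨n, Finset.mem_range.2 hlt, hx⟩
    linarith
  refine ⟨⟨S1 ∪ (μ n).support, n, f, fun x => s.G x + f x⟩, ⟨?_, KG + K, hG.add hf1⟩, ?_⟩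
  · exact Finset.mem_union_left _ h01
  · refine ⟨?_, ?_, ?_, hf1, ?_, hf3, hf4, ?_, rfl⟩
    · exact (Finset.subset_union_left).trans Finset.subset_union_left
    · exact Finset.subset_union_right
    · exact lt_of_lt_of_le (Nat.lt_of_lt_of_le (Nat.lt_succ_self _) (le_max_right _ _)) hn
    · intro x hx
      exact hf2 x (hU2 _ _ Finset.subset_union_left hx)
    · exact (hN n ((le_max_left _ _).trans hn)).le

/-- The gliding hump lemma. -/
theorem hump {μ : ℕ → X →₀ ℝ} (hμ : WN μ) {ε K : ℝ} (hε : 0 < ε) (hK : 0 ≤ K)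
    (U : Finset X → Set X) (hU1 : ∀ S : Finset X, (S : Set X) ⊆ U S)
    (hU2 : ∀ S T : Finset X, S ⊆ T → U S ⊆ U T)
    (h : ∀ S : Finset X, 0 ∈ S → ∃ n, ∃ f, Lipc K f ∧ (∀ x ∈ U S, f x = 0) ∧
      (∀ x ∉ U (S ∪ (μ n).support), f x = 0) ∧ ε ≤ pr (μ n) f) : False := by
  have h0 := fun s : {s : HSt X // HOk s} => hstep_exists hμ hε U hU1 hU2 h s.1 s.2
  choose step hstep1 hstep2 using h0
  let s0 : {s : HSt X // HOk s} := ⟨⟨{0}, 0, fun _ => 0, fun _ => 0⟩, by simp, 0, Lipc.const 0⟩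
  let σ : ℕ → {s : HSt X // HOk s} := fun k => Nat.rec s0 (fun _ s => ⟨step s, hstep1 s⟩) k
  have hσ0 : (σ 0).1 = ⟨{0}, 0, fun _ => 0, fun _ => 0⟩ := rfl
  have hσ : ∀ k, HStep μ ε K U (σ k).1 (σ (k + 1)).1 := fun k => hstep2 (σ k)
  -- monotonicity
  have hmono : ∀ k j, k ≤ j → (σ k).1.S ⊆ (σ j).1.S := by
    intro k j hkj
    induction j, hkj using Nat.le_induction with
    | base => exact Finset.Subset.refl _
    | succ j _ ih => exact ih.trans (hσ j).1
  have hn : StrictMono fun k => (σ k).1.n := strictMono_nat_of_lt_succ fun k => (hσ k).2.2.1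
  -- supports of the functions
  have hf0 : ∀ k j, k ≤ j → ∀ x ∈ U (σ k).1.S, (σ (j + 1)).1.f x = 0 := by
    intro k j hkj x hx
    exact (hσ j).2.2.2.2.1 x (hU2 _ _ (hmono k j hkj) hx)
  have hf1 : ∀ j, ∀ x ∉ U (σ (j + 1)).1.S, (σ (j + 1)).1.f x = 0 := by
    intro j x hx
    exact (hσ j).2.2.2.2.2.1 x hx
  have hfL : ∀ j, Lipc K (σ j).1.f := by
    intro j
    cases j with
    | zero => exact (Lipc.const 0).mono hK
    | succ j => exact (hσ j).2.2.2.1
  -- for every x at most one f is nonzero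
  have huniq : ∀ x i j, (σ i).1.f x ≠ 0 → (σ j).1.f x ≠ 0 → i = j := by
    have aux : ∀ x i j, i < j → (σ i).1.f x ≠ 0 → (σ j).1.f x = 0 := by
      intro x i j hij hi
      obtain ⟨j, rfl⟩ : ∃ j', j = j' + 1 := ⟨j - 1, by omega⟩
      cases i with
      | zero => exact absurd rfl hi
      | succ i =>
        have hx : x ∈ U (σ (i + 1)).1.S := by
          by_contra hx
          exact hi (hf1 i x hx)
        exact hf0 (i + 1) j (by omega) x hx
    intro x i j hi hj
    rcases lt_trichotomy i j with h1 | h1 | h1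
    · exact absurd (aux x i j h1 hi) hj
    · exact h1
    · exact absurd (aux x j i h1 hj) hi
  have hsel : ∀ x, ∃ i, ∀ j, j ≠ i → (σ j).1.f x = 0 := by
    intro x
    by_cases hx : ∃ i, (σ i).1.f x ≠ 0
    · obtain ⟨i, hi⟩ := hx
      refine ⟨i, fun j hj => ?_⟩
      by_contra hne
      exact hj (huniq x j i hne hi)
    · push Not at hx
      exact ⟨0, fun j _ => hx j⟩
  choose ι hι using hsel
  let G : X → ℝ := fun x => (σ (ι x)).1.f x
  have hGL : Lipc (K + K) G := by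
    intro x y
    by_cases hxy : ι x = ι y
    · have := hfL (ι x) x y
      have e : G y = (σ (ι x)).1.f y := by simp only [G, hxy]
      rw [e]
      have h3 : 0 ≤ K * ‖x - y‖ := mul_nonneg hK (norm_nonneg _)
      rw [add_mul]
      simp only [G]
      linarith
    · have h1 := hfL (ι x) x y
      have h2 := hfL (ι y) x y
      rw [hι y (ι x) hxy, sub_zero] at h1
      rw [hι x (ι y) (fun h => hxy h.symm), zero_sub, abs_neg] at h2
      rw [add_mul]
      exact (abs_sub _ _).trans (add_le_add h1 h2)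
  have hGs : ∀ k, ∀ x ∈ U (σ k).1.S, G x = (σ k).1.G x := by
    intro k
    have hsum : ∀ k x, (σ k).1.G x = ∑ i ∈ Finset.range (k + 1), (σ i).1.f x := by
      intro k x
      induction k with
      | zero => simp [hσ0]
      | succ k ih =>
        rw [Finset.sum_range_succ, ← ih, (hσ k).2.2.2.2.2.2.2.2]
    intro x hx
    rw [hsum]
    by_cases hi : ι x < k + 1
    · rw [Finset.sum_eq_single (ι x) (fun j _ hj => hι x j hj)
        (fun hni => absurd (Finset.mem_range.2 hi) hni)]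
    · obtain ⟨j, hj⟩ : ∃ j, ι x = j + 1 := ⟨ι x - 1, by omega⟩
      have e1 : G x = 0 := by
        simp only [G]
        rw [hj]
        exact hf0 k j (by omega) x hx
      rw [e1]
      symm
      refine Finset.sum_eq_zero fun i hi' => hι x i ?_
      rw [Finset.mem_range] at hi'
      omega
  have hGpr : ∀ k, ε * (3 / 4) ≤ pr (μ (σ (k + 1)).1.n) G := by
    intro k
    obtain ⟨a1, a2, a3, a4, a5, a6, a7, a8, a9⟩ := hσ k
    have h0S : (0 : X) ∈ (σ (k + 1)).1.S := (σ (k + 1)).2.1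
    have e1 : pr (μ (σ (k + 1)).1.n) G = pr (μ (σ (k + 1)).1.n) (σ (k + 1)).1.G :=
      pr_congr _ (fun x hx => hGs (k + 1) x (hU1 _ (by simpa using a2 hx)))
        (hGs (k + 1) 0 (hU1 _ (by simpa using h0S)))
    rw [e1, a9, pr_add_right]
    have := abs_le.1 a8
    linarith
  have hlim := hμ (K + K) G hGL
  have hev : ∀ᶠ n in atTop, pr (μ n) G < ε / 2 :=
    (tendsto_order.1 hlim).2 _ (by linarith)
  obtain ⟨N, hN⟩ := eventually_atTop.1 hev
  have h1 := hN (σ (N + 1)).1.n (by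
    have := hn.id_le (N + 1)
    simp only [id] at this
    omega)
  have h2 := hGpr N
  linarith

end LFS
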