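import Mathlib

/-!
# The Lipschitz-free space over a pointed metric space

`Lip0 M b` is the space of real Lipschitz functions on `M` vanishing at the base point `b`, normed by
the Lipschitz constant; `LipFree M b` is the closed linear span of the evaluation functionals in the
dual of `Lip0 M b`.
-/

set_option autoImplicit false

namespace LFS

/-- Lipschitz functions vanishing at the base point, as a linear subspace of all functions. -/
def lipSub (M : Type*) [MetricSpace M] (b : M) : Submodule ℝ (M → ℝ) where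
  carrier := {f | f b = 0 ∧ ∃ K : ℝ, 0 ≤ K ∧ ∀ x y, |f x - f y| ≤ K * dist x y}
  zero_mem' := ⟨rfl, 0, le_rfl, fun x y => by simp⟩
  add_mem' := by
    rintro f g ⟨hf, K, hK0, hK⟩ ⟨hg, L, hL0, hL⟩
    refine ⟨by simp [hf, hg], K + L, add_nonneg hK0 hL0, fun x y => ?_⟩
    have e : (f + g) x - (f + g) y = (f x - f y) + (g x - g y) := by
      simp only [Pi.add_apply]; ring
    rw [e, add_mul]
    exact (abs_add_le _ _).trans (add_le_add (hK x y) (hL x y))
  smul_mem' := by
    rintro c f ⟨hf, K, hK0, hK⟩
    refine ⟨by simp [hf], |c| * K, mul_nonneg (abs_nonneg _) hK0, fun x y => ?_⟩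
    have e : (c • f) x - (c • f) y = c * (f x - f y) := by
      simp only [Pi.smul_apply, smul_eq_mul]; ring
    rw [e, abs_mul, mul_assoc]
    exact mul_le_mul_of_nonneg_left (hK x y) (abs_nonneg _)

/-- `Lip_0(M)`: the real Lipschitz functions on `M` vanishing at the base point `b`. -/
def Lip0 (M : Type*) [MetricSpace M] (b : M) : Type _ := lipSub M b

section

variable {M : Type*} [MetricSpace M] {b : M}

instance : AddCommGroup (Lip0 M b) := inferInstanceAs (AddCommGroup (lipSub M b))

instance : Module ℝ (Lip0 M b) := inferInstanceAs (Module ℝ (lipSub M b))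

instance : CoeFun (Lip0 M b) (fun _ => M → ℝ) := ⟨fun f => (f : lipSub M b).1⟩

theorem Lip0.ext {f g : Lip0 M b} (h : ∀ x, f x = g x) : f = g := Subtype.ext (funext h)

theorem Lip0.add_apply (f g : Lip0 M b) (x : M) : (f + g) x = f x + g x := rfl

theorem Lip0.zero_apply (x : M) : (0 : Lip0 M b) x = 0 := rfl

theorem Lip0.neg_apply (f : Lip0 M b) (x : M) : (-f) x = -f x := rfl

theorem Lip0.smul_apply (c : ℝ) (f : Lip0 M b) (x : M) : (c • f) x = c * f x := rfl

theorem Lip0.base (f : Lip0 M b) : f b = 0 := (f : lipSub M b).2.1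

/-- The Lipschitz constant `sup |f x - f y| / d(x, y)`. -/
noncomputable def lipNorm (f : Lip0 M b) : ℝ := ⨆ p : M × M, |f p.1 - f p.2| / dist p.1 p.2

theorem bdd (f : Lip0 M b) :
    BddAbove (Set.range fun p : M × M => |f p.1 - f p.2| / dist p.1 p.2) := by
  obtain ⟨-, K, hK0, hK⟩ := (f : lipSub M b).2
  refine ⟨K, ?_⟩
  rintro _ ⟨p, rfl⟩
  refine div_le_of_le_mul₀ dist_nonneg hK0 ?_
  exact hK p.1 p.2

theorem lipNorm_nonneg (f : Lip0 M b) : 0 ≤ lipNorm f :=
  Real.iSup_nonneg fun _ => div_nonneg (abs_nonneg _) dist_nonneg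

theorem lipNorm_spec (f : Lip0 M b) (x y : M) : |f x - f y| ≤ lipNorm f * dist x y := by
  rcases eq_or_ne x y with rfl | h
  · simp
  · have h1 : 0 < dist x y := dist_pos.2 h
    have h2 : |f x - f y| / dist x y ≤ lipNorm f := le_ciSup (bdd f) (x, y)
    rwa [div_le_iff₀ h1] at h2

theorem lipNorm_le {f : Lip0 M b} {K : ℝ} (hK : 0 ≤ K) (h : ∀ x y, |f x - f y| ≤ K * dist x y) :
    lipNorm f ≤ K := by
  have : Nonempty (M × M) := ⟨(b, b)⟩
  exact ciSup_le fun p => div_le_of_le_mul₀ dist_nonneg hK (h p.1 p.2)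

noncomputable instance : NormedAddCommGroup (Lip0 M b) :=
  AddGroupNorm.toNormedAddCommGroup
    { toFun := lipNorm
      map_zero' := le_antisymm (lipNorm_le le_rfl fun x y => by simp [Lip0.zero_apply])
        (lipNorm_nonneg _)
      add_le' := fun f g => lipNorm_le (add_nonneg (lipNorm_nonneg f) (lipNorm_nonneg g))
        fun x y => by
          have e : (f + g) x - (f + g) y = (f x - f y) + (g x - g y) := by
            rw [Lip0.add_apply, Lip0.add_apply]; ring
          rw [e, add_mul]
          exact (abs_add_le _ _).trans (add_le_add (lipNorm_spec f x y) (lipNorm_spec g x y))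
      neg' := fun f => by
        have key : ∀ f : Lip0 M b, lipNorm (-f) ≤ lipNorm f := fun f =>
          lipNorm_le (lipNorm_nonneg f) fun x y => by
            have e : (-f) x - (-f) y = -(f x - f y) := by
              rw [Lip0.neg_apply, Lip0.neg_apply]; ring
            rw [e, abs_neg]
            exact lipNorm_spec f x y
        refine le_antisymm (key f) ?_
        have := key (-f)
        rwa [neg_neg] at this
      eq_zero_of_map_eq_zero' := fun f hf => by
        refine Lip0.ext fun x => ?_
        have h := lipNorm_spec f x b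
        have h0 : lipNorm f = 0 := hf
        rw [h0, zero_mul, Lip0.base, sub_zero] at h
        rw [Lip0.zero_apply]
        exact abs_nonpos_iff.1 h }

theorem Lip0.norm_eq (f : Lip0 M b) : ‖f‖ = lipNorm f := rfl

theorem Lip0.norm_spec (f : Lip0 M b) (x y : M) : |f x - f y| ≤ ‖f‖ * dist x y :=
  lipNorm_spec f x y

theorem Lip0.norm_le {f : Lip0 M b} {K : ℝ} (hK : 0 ≤ K) (h : ∀ x y, |f x - f y| ≤ K * dist x y) :
    ‖f‖ ≤ K :=
  lipNorm_le hK h

noncomputable instance : NormedSpace ℝ (Lip0 M b) where
  norm_smul_le c f := by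
    refine Lip0.norm_le (mul_nonneg (norm_nonneg _) (norm_nonneg _)) fun x y => ?_
    have e : (c • f) x - (c • f) y = c * (f x - f y) := by
      rw [Lip0.smul_apply, Lip0.smul_apply]; ring
    rw [e, abs_mul, mul_assoc, Real.norm_eq_abs]
    exact mul_le_mul_of_nonneg_left (Lip0.norm_spec f x y) (abs_nonneg _)

/-- The evaluation functional at `x`. -/
noncomputable def ev (b : M) (x : M) : Lip0 M b →L[ℝ] ℝ :=
  LinearMap.mkContinuous
    { toFun := fun f => f x
      map_add' := fun f g => Lip0.add_apply f g x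
      map_smul' := fun c f => Lip0.smul_apply c f x }
    (dist x b) (fun f => by
      have h := Lip0.norm_spec f x b
      rw [Lip0.base, sub_zero, mul_comm] at h
      exact h)

theorem ev_apply (x : M) (f : Lip0 M b) : ev b x f = f x := rfl

/-- The Lipschitz-free space: the closed linear span of the evaluation functionals. -/
noncomputable def LipFree (M : Type*) [MetricSpace M] (b : M) :
    Submodule ℝ (Lip0 M b →L[ℝ] ℝ) :=
  (Submodule.span ℝ (Set.range (ev b))).topologicalClosure

/-- finitely supported elements -/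
noncomputable def fin (b : M) (μ : M →₀ ℝ) : Lip0 M b →L[ℝ] ℝ := μ.sum fun x t => t • ev b x

theorem fin_apply (μ : M →₀ ℝ) (f : Lip0 M b) : fin b μ f = μ.sum fun x t => t * f x := by
  unfold fin Finsupp.sum
  simp only [sum_apply, smul_apply, ev_apply, smul_eq_mul]

/-- approximation by finitely supported elements -/
theorem exists_fin (g : LipFree M b) {ε : ℝ} (hε : 0 < ε) :
    ∃ μ : M →₀ ℝ, ‖(g : Lip0 M b →L[ℝ] ℝ) - fin b μ‖ ≤ ε := by
  have h1 : (g : Lip0 M b →L[ℝ] ℝ) ∈ closure (Submodule.span ℝ (Set.range (ev b)) : Set _) := g.2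
  rw [Metric.mem_closure_iff] at h1
  obtain ⟨u, hu, hgu⟩ := h1 ε hε
  rw [SetLike.mem_coe, Finsupp.mem_span_range_iff_exists_finsupp] at hu
  obtain ⟨c, rfl⟩ := hu
  refine ⟨c, ?_⟩
  rw [dist_eq_norm] at hgu
  exact hgu.le

end

end LFS
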