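import Pool.Agent.Lib.MP_0d9d33_an.Build

/-!
# The lower estimate for weakly null sequences
-/

set_option autoImplicit false

namespace LFS

open Filter Topology

variable {X : Type*} [NormedAddCommGroup X] [NormedSpace ℝ X]

/-- The main construction, `m` steps. -/
theorem build {μ : ℕ → X →₀ ℝ} (hμ : WN μ) {δ M Λ K η : ℝ} {N : ℕ} (hδ : 0 < δ)
    (hM : ∀ n, NB M (μ n)) (hn : ∀ n, ∃ f : X → ℝ, Lipc 1 f ∧ δ ≤ pr (μ n) f) (hX : SMX X Λ)
    (hΛ : 0 ≤ Λ) (hK : KN X N K) (hK0 : 0 ≤ K) (hη : 0 < η)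
    (hη1 : M * (2 * (η * Λ * K) * Λ) ≤ δ / 8) (n1 : ℕ) (m : ℕ) (hm : m ≤ N) :
    ∃ L : List (Dat X), L.length = m ∧ Inv η Λ (m / (4 * N)) L ∧ VC η L ∧
      (∀ d ∈ L, ∀ x, ‖d.D x‖ ≤ Λ) ∧ (∀ d ∈ L, n1 ≤ d.n) ∧ L.Pairwise (fun d d' => d'.n < d.n) ∧
      m * (η * δ / 8) ≤ Av m (fun e => pr (cb μ L e) (FF η L e)) := by
  induction m with
  | zero =>
    refine ⟨[], rfl, ?_, trivial, by simp, by simp, List.Pairwise.nil, ?_⟩
    · have := Inv.nil (X := X) hη.le hΛ
      simpa using this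
    · simp [Av, cb, pr_zero_left]
  | succ m ih =>
    obtain ⟨L, h1, h2, hVC, h3, h4, h5, h6⟩ := ih (by omega)
    obtain ⟨d, g1, g2, gVC, g3, g4⟩ := build_step hμ hδ hM hn hX hΛ hK hK0 hη hη1 (by omega)
      (n1 + (L.map fun d => d.n + 1).sum) h1 hVC h2 h3 h6
    refine ⟨d :: L, by simp [h1], g2, gVC, ?_, ?_, ?_, g4⟩
    · intro d' hd'
      rcases List.mem_cons.1 hd' with rfl | hd'
      · exact g3
      · exact h3 d' hd'
    · intro d' hd'
      rcases List.mem_cons.1 hd' with rfl | hd'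
      · omega
      · exact h4 d' hd'
    · rw [List.pairwise_cons]
      refine ⟨fun d' hd' => ?_, h5⟩
      have h7 : d'.n + 1 ≤ (L.map fun d => d.n + 1).sum :=
        List.single_le_sum (fun _ _ => Nat.zero_le _) _ (List.mem_map.2 ⟨d', hd', rfl⟩)
      omega

/-- coefficients of the signed combination -/
noncomputable def co : List (Dat X) → List Bool → (ℕ →₀ ℝ)
  | [], _ => 0
  | _ :: _, [] => 0
  | d :: L, s :: e => co L e + Finsupp.single d.n (sg s)

omit [NormedAddCommGroup X] [NormedSpace ℝ X] in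
theorem lin_add (μ : ℕ → X →₀ ℝ) (a b : ℕ →₀ ℝ) : ((a + b).sum fun n t => t • μ n) =
    (a.sum fun n t => t • μ n) + (b.sum fun n t => t • μ n) := by
  classical
  exact Finsupp.sum_add_index' (h := fun n t => t • μ n) (fun n => zero_smul _ _)
    (fun n a b => add_smul _ _ _)

omit [NormedAddCommGroup X] [NormedSpace ℝ X] in
theorem lin_single (μ : ℕ → X →₀ ℝ) (n : ℕ) (t : ℝ) :
    ((Finsupp.single n t).sum fun n t => t • μ n) = t • μ n :=
  Finsupp.sum_single_index (h := fun n t => t • μ n) (zero_smul _ _)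

omit [NormedAddCommGroup X] [NormedSpace ℝ X] in
theorem lin_finset (μ : ℕ → X →₀ ℝ) (S : Finset ℕ) :
    ((∑ n ∈ S, Finsupp.single n (1 : ℝ)).sum fun n t => t • μ n) = ∑ n ∈ S, μ n := by
  classical
  induction S using Finset.induction_on with
  | empty => simp
  | insert a S ha ih =>
    rw [Finset.sum_insert ha, Finset.sum_insert ha, lin_add, lin_single, ih, one_smul]

theorem co_sum (μ : ℕ → X →₀ ℝ) (L : List (Dat X)) (e : List Bool) :
    ((co L e).sum fun n t => t • μ n) = cb μ L e := by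
  classical
  induction L generalizing e with
  | nil => simp [co, cb]
  | cons d L ih =>
    cases e with
    | nil => simp [co, cb]
    | cons s e =>
      simp only [co, cb]
      rw [lin_add, ih, lin_single]

theorem co_zero {L : List (Dat X)} {e : List Bool} {n : ℕ} (h : ∀ d ∈ L, d.n ≠ n) :
    co L e n = 0 := by
  induction L generalizing e with
  | nil => simp [co]
  | cons d L ih =>
    cases e with
    | nil => simp [co]
    | cons s e =>
      simp only [co]
      rw [Finsupp.add_apply, ih (fun d' hd' => h d' (List.mem_cons_of_mem _ hd')),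
        Finsupp.single_eq_of_ne (h d (List.mem_cons_self ..)).symm, add_zero]

/-- the `q`-norm of the coefficients -/
theorem co_pow {L : List (Dat X)} {e : List Bool} (hL : L.Pairwise (fun d d' => d'.n < d.n))
    {q : ℝ} (hq : 0 < q) : ((co L e).sum fun _ t => |t| ^ q) ≤ L.length := by
  classical
  induction L generalizing e with
  | nil => simp [co]
  | cons d L ih =>
    cases e with
    | nil => simp [co]; positivity
    | cons s e =>
      rw [List.pairwise_cons] at hL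
      simp only [co]
      have hdis : Disjoint (co L e).support (Finsupp.single d.n (sg s)).support := by
        rw [Finset.disjoint_left]
        intro n hn hn'
        rw [Finsupp.mem_support_iff] at hn hn'
        have h1 : n = d.n := by
          by_contra hne
          exact hn' (Finsupp.single_eq_of_ne hne)
        rw [h1] at hn
        exact hn (co_zero fun d' hd' => (hL.1 d' hd').ne)
      rw [Finsupp.sum_add_index_of_disjoint hdis, Finsupp.sum_single_index (by
        rw [abs_zero, Real.zero_rpow hq.ne']), sg_abs, Real.one_rpow]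
      have := ih (e := e) hL.2
      rw [List.length_cons]
      push_cast
      linarith

/-- The lower estimate, in the form used below: signs `e` and indices (the list `L`) with a
2-Lipschitz function on which the signed sum is large. -/
theorem lower {μ : ℕ → X →₀ ℝ} (hμ : WN μ) {δ M Λ K : ℝ} {N : ℕ} (hN : 1 ≤ N) (hδ : 0 < δ)
    (hM : ∀ n, NB M (μ n)) (hn : ∀ n, ∃ f : X → ℝ, Lipc 1 f ∧ δ ≤ pr (μ n) f) (hX : SMX X Λ)
    (hΛ : 1 ≤ Λ) (hK : KN X N K) (hK1 : 1 ≤ K) (n1 : ℕ) :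
    ∃ (L : List (Dat X)) (η : ℝ), L.length = N ∧ (∀ d ∈ L, n1 ≤ d.n) ∧
      L.Pairwise (fun d d' => d'.n < d.n) ∧ (∀ e, Lipc 2 (FF η L e)) ∧
      N * (δ ^ 2 / (128 * M * Λ ^ 2 * K)) ≤ Av N (fun e => pr (cb μ L e) (FF η L e)) := by
  have hδM : δ ≤ M := by
    obtain ⟨f, hf1, hf2⟩ := hn 0
    exact hf2.trans (hM 0 f hf1)
  have hM0 : 0 < M := lt_of_lt_of_le hδ hδM
  have hΛ0 : 0 < Λ := by linarith
  have hK0 : 0 < K := by linarith
  set η : ℝ := δ / (16 * M * Λ ^ 2 * K) with hη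
  have hη0 : 0 < η := by positivity
  have hη1 : M * (2 * (η * Λ * K) * Λ) ≤ δ / 8 := by
    apply le_of_eq
    rw [hη]
    field_simp
    ring
  obtain ⟨L, h1, h2, -, h3, h4, h5, h6⟩ := build hμ hδ hM hn hX hΛ0.le hK hK0.le hη0 hη1 n1 N
    le_rfl
  refine ⟨L, η, h1, h4, h5, fun e => (h2.lip e).mono ?_, ?_⟩
  · have hN0 : (0 : ℝ) < N := by exact_mod_cast hN
    have e1 : (N : ℝ) / (4 * N) = 1 / 4 := by field_simp
    have e2 : η * Λ ≤ 1 / 16 := by
      have : η * Λ = δ / (16 * M * Λ * K) := by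
        rw [hη]
        field_simp
      rw [this, div_le_iff₀ (by positivity)]
      have h7 : 1 ≤ Λ * K := by nlinarith
      nlinarith
    rw [e1]
    linarith
  · refine le_trans (le_of_eq ?_) h6
    rw [hη]
    field_simp
    ring

/-- Sequences with an upper `q`-estimate. -/
theorem upper_null_aux {μ : ℕ → X →₀ ℝ} {Λ s T q C : ℝ} (hX : SMX X Λ) (hΛ : 1 ≤ Λ) (hs : 1 < s)
    (hT : 1 ≤ T) (hK : ∀ N : ℕ, 1 ≤ N → KN X N (T * (N : ℝ) ^ (1 / s))) (hq1 : 1 < q)
    (hq : 1 / q < 1 - 1 / s) (_hC : 0 ≤ C)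
    (h : ∀ (a : ℕ →₀ ℝ) (f : X → ℝ), Lipc 1 f →
      pr (a.sum fun n t => t • μ n) f ≤ C * (a.sum fun _ t => |t| ^ q) ^ (1 / q))
    {δ : ℝ} (hδ : 0 < δ) (hn : ∀ n, ∃ f : X → ℝ, Lipc 1 f ∧ δ ≤ pr (μ n) f) : False := by
  have hq0 : 0 < q := by linarith
  -- norm bound
  have hM : ∀ n, NB C (μ n) := by
    intro n f hf
    have h1 := h (Finsupp.single n 1) f hf
    rw [lin_single, one_smul, Finsupp.sum_single_index (by
      rw [abs_zero, Real.zero_rpow hq0.ne']), abs_one, Real.one_rpow, Real.one_rpow, mul_one] at h1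
    exact h1
  have hδM : δ ≤ C := by
    obtain ⟨f, hf1, hf2⟩ := hn 0
    exact hf2.trans (hM 0 f hf1)
  have hC0 : 0 < C := lt_of_lt_of_le hδ hδM
  -- weakly null
  have hμ1 : ∀ f : X → ℝ, Lipc 1 f → ∀ ε : ℝ, 0 < ε → ∃ n0, ∀ n, n0 ≤ n → pr (μ n) f ≤ ε := by
    intro f hf ε hε
    by_contra hcon
    push Not at hcon
    -- an arbitrarily large set of indices
    have hset : {n : ℕ | ε < pr (μ n) f}.Infinite := by
      rw [Set.infinite_iff_exists_gt]
      intro m
      obtain ⟨n, h1, h2⟩ := hcon (m + 1)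
      exact ⟨n, h2, by omega⟩
    obtain ⟨m, hm⟩ : ∃ m : ℕ, C / ε < (m : ℝ) ^ (1 - 1 / q) := by
      have h1 : 0 < 1 - 1 / q := by
        have : 1 / q < 1 := by rw [div_lt_one hq0]; exact hq1
        linarith
      have h2 := (tendsto_rpow_atTop h1).comp tendsto_natCast_atTop_atTop
      exact (h2.eventually_gt_atTop (C / ε)).exists
    obtain ⟨S, hS1, hS2⟩ := hset.exists_subset_card_eq m
    classical
    have h3 := h (∑ n ∈ S, Finsupp.single n 1) f hf
    have e1 := lin_finset μ S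
    have e2 : ∀ S : Finset ℕ, pr (∑ n ∈ S, μ n) f = ∑ n ∈ S, pr (μ n) f := by
      intro S
      induction S using Finset.induction_on with
      | empty => simp [pr_zero_left]
      | insert a S ha ih => rw [Finset.sum_insert ha, Finset.sum_insert ha, pr_add_left, ih]
    have e3 : ((∑ n ∈ S, Finsupp.single n (1 : ℝ)).sum fun _ t => |t| ^ q) = m := by
      have e4 : ∀ n, (∑ i ∈ S, Finsupp.single i (1 : ℝ)) n = if n ∈ S then 1 else 0 := by
        intro n
        rw [Finsupp.finsetSum_apply]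
        by_cases hnS : n ∈ S
        · rw [if_pos hnS, Finset.sum_eq_single n (fun i _ hi => Finsupp.single_eq_of_ne hi.symm)
            (fun h => absurd hnS h), Finsupp.single_eq_same]
        · rw [if_neg hnS]
          exact Finset.sum_eq_zero fun i hi =>
            Finsupp.single_eq_of_ne (fun h => hnS (h ▸ hi))
      have e5 : (∑ i ∈ S, Finsupp.single i (1 : ℝ)).support ⊆ S := by
        intro n hn'
        rw [Finsupp.mem_support_iff, e4] at hn'
        by_contra hns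
        exact hn' (if_neg hns)
      rw [Finsupp.sum_of_support_subset _ e5 _ (fun _ _ => by
        rw [abs_zero, Real.zero_rpow hq0.ne'])]
      rw [Finset.sum_congr rfl (g := fun _ => (1 : ℝ)) (fun n hn' => by
        rw [e4, if_pos hn', abs_one, Real.one_rpow])]
      rw [Finset.sum_const, hS2, nsmul_eq_mul, mul_one]
    rw [e1, e2, e3] at h3
    have h4 : (m : ℝ) * ε ≤ ∑ n ∈ S, pr (μ n) f := by
      rw [← hS2, ← nsmul_eq_mul]
      exact Finset.card_nsmul_le_sum _ _ _ fun n hn' => (le_of_lt (hS1 hn'))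
    have hm0 : 0 < (m : ℝ) := by
      rcases Nat.eq_zero_or_pos m with h0 | h0
      · exfalso
        rw [h0] at hm
        have h1 : (1 : ℝ) - 1 / q ≠ 0 := by
          have : 1 / q < 1 := by rw [div_lt_one hq0]; exact hq1
          linarith
        rw [Nat.cast_zero, Real.zero_rpow h1] at hm
        have : 0 < C / ε := by positivity
        linarith
      · exact_mod_cast h0
    have h5 : (m : ℝ) = (m : ℝ) ^ (1 - 1 / q) * (m : ℝ) ^ (1 / q) := by
      rw [← Real.rpow_add hm0]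
      simp
    have h6 : 0 < (m : ℝ) ^ (1 / q) := Real.rpow_pos_of_pos hm0 _
    rw [div_lt_iff₀ hε] at hm
    nlinarith
  have hμ : WN μ := by
    intro K f hf
    have hK' : 0 < |K| + 1 := by positivity
    have h1 : Lipc 1 (fun x => (|K| + 1)⁻¹ * f x) := by
      have := (hf.mono ((le_abs_self K).trans (by linarith : |K| ≤ |K| + 1))).smul (|K| + 1)⁻¹
      rwa [abs_of_pos (inv_pos.2 hK'), inv_mul_cancel₀ hK'.ne'] at this
    have h2 : Lipc 1 (fun x => -((|K| + 1)⁻¹ * f x)) := h1.neg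
    rw [Metric.tendsto_atTop]
    intro ε hε
    obtain ⟨n1, hn1⟩ := hμ1 _ h1 (ε / (2 * (|K| + 1))) (by positivity)
    obtain ⟨n2, hn2⟩ := hμ1 _ h2 (ε / (2 * (|K| + 1))) (by positivity)
    refine ⟨max n1 n2, fun n hn' => ?_⟩
    have h3 := hn1 n ((le_max_left _ _).trans hn')
    have h4 := hn2 n ((le_max_right _ _).trans hn')
    rw [pr_neg_right] at h4
    rw [pr_smul_right] at h3 h4
    rw [Real.dist_eq, sub_zero]
    have h5 : |(|K| + 1)⁻¹ * pr (μ n) f| ≤ ε / (2 * (|K| + 1)) := abs_le.2 ⟨by linarith, h3⟩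
    rw [abs_mul, abs_of_pos (inv_pos.2 hK')] at h5
    have h6 : |pr (μ n) f| = (|K| + 1) * ((|K| + 1)⁻¹ * |pr (μ n) f|) := by field_simp
    rw [h6]
    calc (|K| + 1) * ((|K| + 1)⁻¹ * |pr (μ n) f|) ≤ (|K| + 1) * (ε / (2 * (|K| + 1))) :=
          mul_le_mul_of_nonneg_left h5 hK'.le
      _ = ε / 2 := by field_simp
      _ < ε := by linarith
  -- large N
  obtain ⟨N, hN1, hN⟩ : ∃ N : ℕ, 1 ≤ N ∧
      2 * C * (128 * C * Λ ^ 2 * T) / δ ^ 2 < (N : ℝ) ^ (1 - 1 / s - 1 / q) := by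
    have h1 : 0 < 1 - 1 / s - 1 / q := by linarith
    have h2 := (tendsto_rpow_atTop h1).comp tendsto_natCast_atTop_atTop
    obtain ⟨N, hN1, hN2⟩ := ((h2.eventually_gt_atTop (2 * C * (128 * C * Λ ^ 2 * T) / δ ^ 2)).and
      (eventually_ge_atTop 1)).exists
    exact ⟨N, hN2, hN1⟩
  have hN0 : (0 : ℝ) < N := by exact_mod_cast hN1
  have hNs : 1 ≤ (N : ℝ) ^ (1 / s) := Real.one_le_rpow (by exact_mod_cast hN1) (by positivity)
  obtain ⟨L, η, g1, g2, g3, g4, g5⟩ := lower hμ hN1 hδ hM hn hX hΛ (hK N hN1)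
    (by nlinarith : 1 ≤ T * (N : ℝ) ^ (1 / s)) 0
  obtain ⟨e, he1, he2⟩ := exists_ge_Av N (fun e => pr (cb μ L e) (FF η L e))
  have h7 : pr (cb μ L e) (FF η L e) ≤ 2 * (C * (N : ℝ) ^ (1 / q)) := by
    have h8 : Lipc 1 (fun x => (1 / 2) * FF η L e x) := by
      have := (g4 e).smul (1 / 2)
      norm_num at this
      simpa using this
    have h9 := h (co L e) _ h8
    rw [co_sum, pr_smul_right] at h9
    have h10 : ((co L e).sum fun _ t => |t| ^ q) ^ (1 / q) ≤ (N : ℝ) ^ (1 / q) := by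
      refine Real.rpow_le_rpow ?_ ?_ (by positivity)
      · unfold Finsupp.sum
        exact Finset.sum_nonneg fun n _ => Real.rpow_nonneg (abs_nonneg _) _
      · rw [← g1]
        exact co_pow g3 hq0
    have h11 : C * ((co L e).sum fun _ t => |t| ^ q) ^ (1 / q) ≤ C * (N : ℝ) ^ (1 / q) :=
      mul_le_mul_of_nonneg_left h10 hC0.le
    linarith
  have h12 : (N : ℝ) * (δ ^ 2 / (128 * C * Λ ^ 2 * (T * (N : ℝ) ^ (1 / s)))) ≤
      2 * (C * (N : ℝ) ^ (1 / q)) := g5.trans (he2.trans h7)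
  have hT0 : 0 < T := by linarith
  have hΛ0 : 0 < Λ := by linarith
  have hNs0 : 0 < (N : ℝ) ^ (1 / s) := by linarith
  have hNq0 : 0 < (N : ℝ) ^ (1 / q) := Real.rpow_pos_of_pos hN0 _
  have h13 : (N : ℝ) = (N : ℝ) ^ (1 - 1 / s - 1 / q) * ((N : ℝ) ^ (1 / s) * (N : ℝ) ^ (1 / q)) := by
    rw [← Real.rpow_add hN0, ← Real.rpow_add hN0]
    simp
  have h14 : (N : ℝ) * (δ ^ 2 / (128 * C * Λ ^ 2 * (T * (N : ℝ) ^ (1 / s)))) =
      (N : ℝ) ^ (1 - 1 / s - 1 / q) * (N : ℝ) ^ (1 / q) * δ ^ 2 / (128 * C * Λ ^ 2 * T) := by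
    rw [mul_div_assoc', div_eq_div_iff (by positivity) (by positivity)]
    conv_lhs => rw [h13]
    ring
  rw [h14, div_le_iff₀ (by positivity)] at h12
  rw [div_lt_iff₀ (by positivity)] at hN
  have h15 : 0 < (N : ℝ) ^ (1 / q) := hNq0
  nlinarith

end LFS
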