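import Pool.Agent.Lib.MP_0d9d33_an.Hump

/-!
# Tails and finite nets of a weakly null sequence
-/

set_option autoImplicit false

namespace LFS

open Filter Topology

open scoped Classical

variable {X : Type*} [NormedAddCommGroup X]

/-- the radius of a finite set -/
noncomputable def rad (S : Finset X) : ℝ := ∑ s ∈ S, ‖s‖

theorem rad_nonneg (S : Finset X) : 0 ≤ rad S := Finset.sum_nonneg fun _ _ => norm_nonneg _

theorem le_rad {S : Finset X} {s : X} (hs : s ∈ S) : ‖s‖ ≤ rad S :=
  Finset.single_le_sum (f := fun s : X => ‖s‖) (fun _ _ => norm_nonneg _) hs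

theorem rad_mono {S T : Finset X} (h : S ⊆ T) : rad S ≤ rad T :=
  Finset.sum_le_sum_of_subset_of_nonneg h fun _ _ _ => norm_nonneg _

/-- A weakly null sequence is uniformly concentrated on balls. -/
theorem tails {μ : ℕ → X →₀ ℝ} (hμ : WN μ) {ε : ℝ} (hε : 0 < ε) :
    ∃ R : ℝ, 0 < R ∧ ∀ n, ∀ f : X → ℝ, Lipc 1 f → (∀ x, ‖x‖ ≤ R → f x = 0) → pr (μ n) f ≤ ε := by
  by_contra hcon
  push Not at hcon
  refine hump hμ hε (K := 1) zero_le_one (fun S => {x | ‖x‖ ≤ 2 * rad S + 1}) ?_ ?_ ?_
  · intro S s hs
    have h1 := le_rad (Finset.mem_coe.1 hs)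
    have h2 := rad_nonneg S
    simp only [Set.mem_ofPred_eq]
    linarith
  · intro S T hST x hx
    have := rad_mono hST
    simp only [Set.mem_ofPred_eq] at hx ⊢
    linarith
  · intro S h0
    obtain ⟨n, f, hf1, hf2, hf3⟩ := hcon (2 * rad S + 1) (by linarith [rad_nonneg S])
    set T := S ∪ (μ n).support with hT
    have hh : Lipc 1 (fun x : X => max 0 (2 * rad T + 1 - ‖x‖)) := by
      refine ((Lipc.const 0).mono zero_le_one).max ?_
      have := (Lipc.const (X := X) (2 * rad T + 1)).sub Lipc.norm
      simpa using this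
    refine ⟨n, fun x => cl (max 0 (2 * rad T + 1 - ‖x‖)) (f x), hf1.cl hh, ?_, ?_, ?_⟩
    · intro x hx
      simp only [Set.mem_ofPred_eq] at hx
      simp only [hf2 x hx]
      exact cl_zero (le_max_left _ _)
    · intro x hx
      simp only [Set.mem_ofPred_eq, not_le] at hx
      have : max 0 (2 * rad T + 1 - ‖x‖) = 0 := max_eq_left (by linarith)
      simp only [this]
      exact cl_zero_left _
    · have hf0 : f 0 = 0 := hf2 0 (by simp; linarith [rad_nonneg S])
      have e : pr (μ n) (fun x => cl (max 0 (2 * rad T + 1 - ‖x‖)) (f x)) = pr (μ n) f := by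
        have key : ∀ x : X, ‖x‖ ≤ rad T → cl (max 0 (2 * rad T + 1 - ‖x‖)) (f x) = f x := by
          intro x hx
          refine cl_eq ?_
          have h3 := hf1 x 0
          rw [hf0, sub_zero, sub_zero, one_mul] at h3
          refine h3.trans ((le_max_right _ _).trans' ?_)
          linarith
        refine pr_congr _ (fun x hx => key x (le_rad ?_)) (key 0 (by simpa using rad_nonneg T))
        exact Finset.mem_union_right _ hx
      rw [e]
      exact hf3.le

/-- A weakly null sequence is uniformly concentrated near finite sets. -/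
theorem nets {μ : ℕ → X →₀ ℝ} (hμ : WN μ) {ε r : ℝ} (hε : 0 < ε) (hr : 0 < r) :
    ∃ S : Finset X, 0 ∈ S ∧ ∀ n, ∀ f : X → ℝ, Lipc 1 f →
      (∀ x, (∃ s ∈ S, ‖x - s‖ ≤ r) → f x = 0) → pr (μ n) f ≤ ε := by
  by_contra hcon
  push Not at hcon
  obtain ⟨R, hR, hR'⟩ := tails hμ (show 0 < ε / 4 by linarith)
  set K : ℝ := max 1 (2 * R / r) with hK
  have hK1 : 1 ≤ K := le_max_left _ _
  have hK0 : 0 ≤ K := by linarith
  refine hump hμ (show 0 < ε / 2 by linarith) (K := K) hK0
    (fun S => {x | ∃ s ∈ S, ‖x - s‖ ≤ r}) ?_ ?_ ?_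
  · intro S s hs
    exact ⟨s, Finset.mem_coe.1 hs, by simpa using hr.le⟩
  · intro S T hST x hx
    obtain ⟨s, hs, hxs⟩ := hx
    exact ⟨s, hST hs, hxs⟩
  · intro S h0
    obtain ⟨n, f, hf1, hf2, hf3⟩ := hcon S h0
    set T := S ∪ (μ n).support with hT
    have h0T : (0 : X) ∈ T := Finset.mem_union_left _ h0
    have hTne : T.Nonempty := ⟨0, h0T⟩
    have hf0 : f 0 = 0 := hf2 0 ⟨0, h0, by simpa using hr.le⟩
    -- cut to the ball of radius 2R
    set g : X → ℝ := fun x => cl (max 0 (2 * R - ‖x‖)) (f x) with hg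
    have hg1 : Lipc 1 g := by
      refine hf1.cl (((Lipc.const 0).mono zero_le_one).max ?_)
      have := (Lipc.const (X := X) (2 * R)).sub Lipc.norm
      simpa using this
    have hg2 : ∀ x, f x = 0 → g x = 0 := by
      intro x hx
      simp only [hg, hx]
      exact cl_zero (le_max_left _ _)
    have hg3 : ∀ x, ‖x‖ ≤ R → g x = f x := by
      intro x hx
      refine cl_eq ?_
      have h3 := hf1 x 0
      rw [hf0, sub_zero, sub_zero, one_mul] at h3
      refine h3.trans ((le_max_right _ _).trans' ?_)
      linarith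
    have hg4 : ∀ x, |g x| ≤ 2 * R := by
      intro x
      refine (cl_abs (le_max_left _ _) _).trans (max_le (by linarith) ?_)
      linarith [norm_nonneg x]
    have hg5 : ε / 2 ≤ pr (μ n) g := by
      have hd : Lipc 1 (fun x => (1 / 2) * (f x - g x)) := by
        have := (hf1.sub hg1).smul (1 / 2)
        norm_num at this
        simpa using this
      have h4 := hR' n _ hd (fun x hx => by rw [hg3 x hx]; ring)
      rw [pr_smul_right, pr_sub_right] at h4
      linarith
    -- cut to the neighbourhood of T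
    have hh : Lipc K (fun x : X => max 0 (2 * R - (2 * R / r) * dS T x)) := by
      refine ((Lipc.const 0).mono hK0).max ?_
      have h5 := (Lipc.const (X := X) (2 * R)).sub ((Lipc.dS T).smul (2 * R / r))
      refine h5.mono ?_
      rw [abs_of_pos (by positivity), zero_add, mul_one, hK]
      exact le_max_right _ _
    refine ⟨n, fun x => cl (max 0 (2 * R - (2 * R / r) * dS T x)) (g x), (hg1.mono hK1).cl hh,
      ?_, ?_, ?_⟩
    · intro x hx
      simp only [hg2 x (hf2 x hx)]
      exact cl_zero (le_max_left _ _)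
    · intro x hx
      have h6 : r ≤ dS T x := by
        unfold dS
        rw [Metric.le_infDist (by simpa using hTne)]
        intro y hy
        rw [dist_eq_norm]
        by_contra hlt
        push Not at hlt
        exact hx ⟨y, Finset.mem_coe.1 hy, hlt.le⟩
      have : max 0 (2 * R - (2 * R / r) * dS T x) = 0 := by
        refine max_eq_left ?_
        have h7 : 2 * R = (2 * R / r) * r := by field_simp
        have h8 : (2 * R / r) * r ≤ (2 * R / r) * dS T x :=
          mul_le_mul_of_nonneg_left h6 (by positivity)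
        linarith
      simp only [this]
      exact cl_zero_left _
    · have key : ∀ x ∈ T, cl (max 0 (2 * R - (2 * R / r) * dS T x)) (g x) = g x := by
        intro x hx
        refine cl_eq ?_
        rw [dS_mem hx, mul_zero, sub_zero]
        exact (hg4 x).trans (le_max_right _ _)
      have e : pr (μ n) (fun x => cl (max 0 (2 * R - (2 * R / r) * dS T x)) (g x)) = pr (μ n) g :=
        pr_congr _ (fun x hx => key x (Finset.mem_union_right _ hx)) (key 0 h0T)
      rw [e]
      exact hg5

end LFS
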