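import Pool.Agent.Lib.MP_0d9d33_an.Hilbert

/-!
# Operators from `c_0` and `ℓ_q` into Lipschitz-free spaces
-/

set_option autoImplicit false

namespace LFS

open scoped ENNReal ZeroAtInfty

instance {M : Type*} [MetricSpace M] {b : M} : CompleteSpace (LipFree M b) :=
  (Submodule.isClosed_topologicalClosure (Submodule.span ℝ (Set.range (ev b)))).completeSpace_coe

/-- The Lipschitz-free space over `M` (base point `b`), with its norm. -/
def FreeSpace (M : Type*) [MetricSpace M] (b : M) : Type _ := LipFree M b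

noncomputable instance {M : Type*} [MetricSpace M] {b : M} : NormedAddCommGroup (FreeSpace M b) :=
  (Submodule.normedAddCommGroup (LipFree M b) : NormedAddCommGroup (LipFree M b))

noncomputable instance {M : Type*} [MetricSpace M] {b : M} : NormedSpace ℝ (FreeSpace M b) :=
  (Submodule.normedSpace (LipFree M b) : NormedSpace ℝ (LipFree M b))

/-- Every bounded linear operator from `Z` to `Y` is compact. -/
def AllCompact (Z Y : Type*) [NormedAddCommGroup Z] [NormedSpace ℝ Z] [NormedAddCommGroup Y]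
    [NormedSpace ℝ Y] : Prop :=
  ∀ T : Z →L[ℝ] Y, IsCompactOperator T

theorem pitt {X : Type*} [NormedAddCommGroup X] [NormedSpace ℝ X] {s : ℝ} (hs : 1 < s)
    (hT : DualType X s) {M : Type*} [MetricSpace M] (b : M) {ι : M → X} {K L : NNReal}
    (h1 : AntilipschitzWith K ι) (h2 : LipschitzWith L ι) :
    AllCompact C₀(ℕ, ℝ) (FreeSpace M b) ∧
    ∀ (q : ℝ≥0∞) [Fact (1 ≤ q)], q ≠ ∞ → s / (s - 1) < q.toReal →
      AllCompact (lp (fun _ : ℕ => ℝ) q) (FreeSpace M b) := by
  have h1' : ∀ x y, dist x y ≤ (K : ℝ) * ‖ι x - ι y‖ := fun x y => by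
    have := h1.le_mul_dist x y
    rwa [dist_eq_norm (ι x)] at this
  have h2' : ∀ x y, ‖ι x - ι y‖ ≤ (L : ℝ) * dist x y := fun x y => by
    have := h2.dist_le_mul x y
    rwa [dist_eq_norm (ι x)] at this
  have key : ∀ q : ℝ, s / (s - 1) < q → ∀ (y : ℕ → LipFree M b) (C : ℝ), UpQ q C y →
      ∀ δ : ℝ, 0 < δ → ¬ ∀ n, δ ≤ ‖y n‖ := fun q hq y C hC δ hδ hy =>
    no_upper hs hT K.2 L.2 h1' h2' hq y hC hδ hy
  refine ⟨?_, fun q _ hq hq2 => ?_⟩
  · have hq : 1 < s / (s - 1) + 1 := by
      have : 0 < s / (s - 1) := div_pos (by linarith) (by linarith)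
      linarith
    intro T
    exact compact_c0 (Y := LipFree M b) hq (key (s / (s - 1) + 1) (by linarith)) T
  · intro T
    exact compact_lp (Y := LipFree M b) q hq (key _ hq2) T

end LFS
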