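import Pool.Agent.Lib.MP_0d9d33_an.Defs

/-!
# Uniform differentiability and Lipschitz constants along segments
-/

set_option autoImplicit false

namespace LFS

open Filter Topology

variable {X : Type*} [NormedAddCommGroup X] [NormedSpace ℝ X]

/-- `V` is, up to an error `a` (per unit length), the derivative of `F`, uniformly -/
def UD (a : ℝ) (F : X → ℝ) (V : X → (X →L[ℝ] ℝ)) : Prop :=
  ∀ ε : ℝ, 0 < ε → ∃ δ : ℝ, 0 < δ ∧ ∀ x y, ‖y - x‖ ≤ δ →
    |F y - F x - V x (y - x)| ≤ (a + ε) * ‖y - x‖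

/-- a function with almost-derivative `V` of norm `≤ b` and error `≤ a` is Lipschitz with
constant `a + b` -/
theorem seg {F : X → ℝ} {V : X → (X →L[ℝ] ℝ)} {a b : ℝ} (h1 : UD a F V)
    (h2 : ∀ x, ‖V x‖ ≤ b) : Lipc (a + b) F := by
  have key : ∀ ε : ℝ, 0 < ε → ∀ x y, |F y - F x| ≤ (a + b + ε) * ‖y - x‖ := by
    intro ε hε x y
    obtain ⟨δ, hδ, h3⟩ := h1 ε hε
    have key1 : ∀ x y, ‖y - x‖ ≤ δ → |F y - F x| ≤ (a + b + ε) * ‖y - x‖ := by
      intro x y hxy
      have h3' : |V x (y - x)| ≤ b * ‖y - x‖ := by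
        have := (V x).le_opNorm (y - x)
        rw [Real.norm_eq_abs] at this
        exact this.trans (mul_le_mul_of_nonneg_right (h2 x) (norm_nonneg _))
      have h4 := h3 x y hxy
      have h5 : |F y - F x| ≤ |F y - F x - V x (y - x)| + |V x (y - x)| := by
        have := abs_add_le (F y - F x - V x (y - x)) (V x (y - x))
        simpa using this
      linarith
    -- subdivide
    obtain ⟨m, hm⟩ := exists_nat_gt (‖y - x‖ / δ)
    have hm0 : (0 : ℝ) < m := lt_of_le_of_lt (by positivity) hm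
    set z : ℕ → X := fun i => x + ((i : ℝ) / m) • (y - x) with hz
    have hd : ∀ i, z (i + 1) - z i = (1 / (m : ℝ)) • (y - x) := by
      intro i
      simp only [hz]
      rw [add_sub_add_left_eq_sub, ← sub_smul]
      congr 1
      push_cast
      ring
    have hn : ∀ i, ‖z (i + 1) - z i‖ = ‖y - x‖ / m := by
      intro i
      rw [hd, norm_smul, Real.norm_eq_abs, abs_of_pos (by positivity)]
      ring
    have hs : F y - F x = ∑ i ∈ Finset.range m, (F (z (i + 1)) - F (z i)) := by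
      rw [Finset.sum_range_sub (fun i => F (z i))]
      have e1 : z m = y := by
        simp only [hz]
        rw [div_self hm0.ne', one_smul]
        abel
      have e0 : z 0 = x := by simp [hz]
      rw [e1, e0]
    rw [hs]
    refine (Finset.abs_sum_le_sum_abs _ _).trans ?_
    have h6 : ∀ i ∈ Finset.range m, |F (z (i + 1)) - F (z i)| ≤ (a + b + ε) * (‖y - x‖ / m) := by
      intro i _
      have := key1 (z i) (z (i + 1)) (by
        rw [hn, div_le_iff₀ hm0]
        rw [div_lt_iff₀ hδ] at hm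
        linarith)
      rwa [hn] at this
    refine (Finset.sum_le_sum h6).trans ?_
    rw [Finset.sum_const, Finset.card_range, nsmul_eq_mul]
    apply le_of_eq
    field_simp
  intro x y
  rw [abs_sub_comm, norm_sub_rev]
  have hlim : Tendsto (fun ε : ℝ => (a + b + ε) * ‖y - x‖) (𝓝[>] 0) (𝓝 ((a + b + 0) * ‖y - x‖)) := by
    refine (Tendsto.mul_const _ (tendsto_const_nhds.add ?_))
    exact tendsto_nhdsWithin_of_tendsto_nhds tendsto_id
  rw [add_zero] at hlim
  exact ge_of_tendsto hlim (eventually_nhdsWithin_of_forall fun ε hε => key ε hε x y)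

/-- a uniform derivative of a Lipschitz function is uniformly continuous -/
theorem UD.uc {F : X → ℝ} {V : X → (X →L[ℝ] ℝ)} {Λ : ℝ} (hΛ : 0 ≤ Λ) (h1 : UD 0 F V)
    (h2 : Lipc Λ F) : ∀ ε : ℝ, 0 < ε → ∃ δ : ℝ, 0 < δ ∧ ∀ x y, ‖x - y‖ ≤ δ → ‖V x - V y‖ ≤ ε := by
  intro ε hε
  obtain ⟨δ, hδ, h3⟩ := h1 (ε / 4) (by positivity)
  refine ⟨ε * δ / (4 * (Λ + 1)), by positivity, fun x y hxy => ?_⟩
  refine ContinuousLinearMap.opNorm_le_of_unit_norm hε.le fun u hu => ?_
  have hn : ‖δ • u‖ = δ := by rw [norm_smul, hu, mul_one, Real.norm_eq_abs, abs_of_pos hδ]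
  have h4 := h3 x (x + δ • u) (by rw [add_sub_cancel_left, hn])
  have h5 := h3 y (y + δ • u) (by rw [add_sub_cancel_left, hn])
  rw [add_sub_cancel_left, hn, zero_add, map_smul, smul_eq_mul] at h4 h5
  have h6 := h2 (x + δ • u) (y + δ • u)
  rw [add_sub_add_right_eq_sub] at h6
  have h7 := h2 x y
  have h8 : Λ * ‖x - y‖ ≤ ε * δ / 4 := by
    calc Λ * ‖x - y‖ ≤ (Λ + 1) * (ε * δ / (4 * (Λ + 1))) := by
          refine mul_le_mul (by linarith) hxy (norm_nonneg _) (by linarith)
      _ = ε * δ / 4 := by field_simp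
  have e1 : (V x - V y) u = V x u - V y u := rfl
  rw [e1, Real.norm_eq_abs]
  have h9 := abs_le.1 h4
  have h10 := abs_le.1 h5
  have h11 := abs_le.1 (h6.trans h8)
  have h12 := abs_le.1 (h7.trans h8)
  have h13 : δ * (V x u - V y u) ≤ δ * ε := by
    rw [mul_sub]
    nlinarith
  have h14 : δ * (-ε) ≤ δ * (V x u - V y u) := by
    rw [mul_sub]
    nlinarith
  rw [abs_le]
  exact ⟨le_of_mul_le_mul_left h14 hδ, le_of_mul_le_mul_left h13 hδ⟩

omit [NormedSpace ℝ X] in
/-- uniform approximation from below of a uniformly continuous function by a Lipschitz function -/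
theorem exists_lip_approx {δ B : ℝ} (hδ : 0 < δ) (hB : 0 ≤ B) {g : X → ℝ} (h0 : ∀ x, 0 ≤ g x)
    (h1 : ∀ x, g x ≤ B) (h2 : ∀ x y, ‖x - y‖ ≤ δ → |g x - g y| ≤ 1 / 8) :
    ∃ θ : X → ℝ, Lipc (B / δ) θ ∧ (∀ x, θ x ≤ g x) ∧ ∀ x, g x - 1 / 8 ≤ θ x := by
  set n : ℝ := B / δ with hn
  have hn0 : 0 ≤ n := by positivity
  have hbdd : ∀ x, BddBelow (Set.range fun y => g y + n * ‖x - y‖) := fun x =>
    ⟨0, by rintro _ ⟨y, rfl⟩; have := h0 y; positivity⟩
  refine ⟨fun x => ⨅ y, (g y + n * ‖x - y‖), ?_, ?_, ?_⟩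
  · have key : ∀ x x', (⨅ y, (g y + n * ‖x - y‖)) ≤ (⨅ y, (g y + n * ‖x' - y‖)) + n * ‖x - x'‖ := by
      intro x x'
      rw [← sub_le_iff_le_add]
      refine le_ciInf fun y => ?_
      rw [sub_le_iff_le_add]
      refine (ciInf_le (hbdd x) y).trans ?_
      have h3 : ‖x - y‖ ≤ ‖x' - y‖ + ‖x - x'‖ := by
        have := norm_add_le (x' - y) (x - x')
        have e : x' - y + (x - x') = x - y := by abel
        rwa [e] at this
      nlinarith
    intro x x'
    rw [abs_le]
    have h4 := key x x'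
    have h5 := key x' x
    rw [norm_sub_rev x' x] at h5
    constructor <;> linarith
  · intro x
    refine (ciInf_le (hbdd x) x).trans ?_
    simp
  · intro x
    refine le_ciInf fun y => ?_
    by_cases hxy : ‖x - y‖ ≤ δ
    · have := abs_le.1 (h2 x y hxy)
      have h3 : 0 ≤ n * ‖x - y‖ := by positivity
      linarith
    · push Not at hxy
      have h3 : B ≤ n * ‖x - y‖ := by
        have : B = n * δ := by rw [hn]; field_simp
        rw [this]
        exact mul_le_mul_of_nonneg_left hxy.le hn0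
      linarith [h0 y, h1 x]

end LFS
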