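import Pool.Agent.Lib.MP_0d9d33_an.Avg

/-!
# Averages over signs, indexed by subsets
-/

set_option autoImplicit false

namespace LFS

variable {W : Type*} [NormedAddCommGroup W]

/-- The average over all choices of signs of the norm of `w + ∑_{i ∈ S} ± v i`
(`A` is the set of the indices with the sign `+`). -/
noncomputable def sgnAvg' (w : W) (S : Finset ℕ) (v : ℕ → W) : ℝ :=
  (∑ A ∈ S.powerset, ‖w + (∑ i ∈ A, v i - ∑ i ∈ S \ A, v i)‖) / 2 ^ S.card

/-- The average over all choices of signs of the norm of `∑_{i ∈ S} ± v i`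
(`A` is the set of the indices with the sign `+`). -/
noncomputable def sgnAvg (S : Finset ℕ) (v : ℕ → W) : ℝ :=
  (∑ A ∈ S.powerset, ‖∑ i ∈ A, v i - ∑ i ∈ S \ A, v i‖) / 2 ^ S.card

theorem sgnAvg_eq (S : Finset ℕ) (v : ℕ → W) : sgnAvg S v = sgnAvg' 0 S v := by
  unfold sgnAvg sgnAvg'
  simp only [zero_add]

theorem sgnAvg'_insert (w : W) {S : Finset ℕ} {a : ℕ} (ha : a ∉ S) (v : ℕ → W) :
    sgnAvg' w (insert a S) v = (sgnAvg' (w + v a) S v + sgnAvg' (w - v a) S v) / 2 := by
  unfold sgnAvg'
  rw [Finset.sum_powerset_insert ha, Finset.card_insert_of_notMem ha, ← add_div, div_div,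
    ← pow_succ, add_comm]
  congr 2
  · refine Finset.sum_congr rfl fun A hA => ?_
    have hA' := Finset.mem_powerset.1 hA
    have haA : a ∉ A := fun h => ha (hA' h)
    rw [Finset.insert_sdiff_insert, Finset.sdiff_insert_of_notMem ha, Finset.sum_insert haA]
    congr 1
    abel
  · refine Finset.sum_congr rfl fun A hA => ?_
    have hA' := Finset.mem_powerset.1 hA
    have haA : a ∉ A := fun h => ha (hA' h)
    have haS : a ∉ S \ A := fun h => ha (Finset.mem_sdiff.1 h).1
    rw [Finset.insert_sdiff_of_notMem _ haA, Finset.sum_insert haS]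
    congr 1
    abel

theorem sgnAvg'_congr (w : W) {S : Finset ℕ} {v v' : ℕ → W} (h : ∀ i ∈ S, v i = v' i) :
    sgnAvg' w S v = sgnAvg' w S v' := by
  unfold sgnAvg'
  congr 1
  refine Finset.sum_congr rfl fun A hA => ?_
  have hA' := Finset.mem_powerset.1 hA
  rw [Finset.sum_congr rfl fun i hi => h i (hA' hi),
    Finset.sum_congr rfl fun i hi => h i (Finset.mem_sdiff.1 hi).1]

/-- lists of indices without repetition -/
theorem US_eq_sgnAvg' (l : List ℕ) (hl : l.Nodup) (v : ℕ → W) (w : W) :
    US (l.map v) w = sgnAvg' w l.toFinset v := by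
  induction l generalizing w with
  | nil => simp [US, sgnAvg']
  | cons a l ih =>
    rw [List.nodup_cons] at hl
    rw [List.map_cons, List.toFinset_cons, sgnAvg'_insert w (by simpa using hl.1)]
    simp only [US, ih hl.2]

/-- every list is of this form -/
theorem exists_sgnAvg' (C : List W) : ∃ v : ℕ → W, (∀ i ∈ Finset.range C.length, v i ∈ C) ∧
    ∀ w, US C w = sgnAvg' w (Finset.range C.length) v := by
  induction C with
  | nil => exact ⟨fun _ => 0, by simp, fun w => by simp [US, sgnAvg']⟩
  | cons d C ih =>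
    obtain ⟨v, h1, h2⟩ := ih
    refine ⟨fun i => if i = C.length then d else v i, ?_, ?_⟩
    · intro i hi
      rw [List.length_cons, Finset.mem_range] at hi
      by_cases h : i = C.length
      · simp [h]
      · simp only [if_neg h]
        exact List.mem_cons_of_mem _ (h1 i (Finset.mem_range.2 (by omega)))
    · intro w
      rw [List.length_cons, Finset.range_add_one, sgnAvg'_insert w Finset.notMem_range_self]
      simp only [US, h2, if_true]
      have key : ∀ w, sgnAvg' w (Finset.range C.length) v = sgnAvg' w (Finset.range C.length)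
          (fun i => if i = C.length then d else v i) := fun w =>
        sgnAvg'_congr w fun i hi => by
          rw [if_neg (Finset.mem_range.1 hi).ne]
      rw [key, key]

theorem sgnAvg'_nonneg (w : W) (S : Finset ℕ) (v : ℕ → W) : 0 ≤ sgnAvg' w S v := by
  unfold sgnAvg'
  exact div_nonneg (Finset.sum_nonneg fun _ _ => norm_nonneg _) (by positivity)

/-- upper bound by the largest term -/
theorem sgnAvg_le {S : Finset ℕ} {v : ℕ → W} {c : ℝ}
    (h : ∀ A ⊆ S, ‖∑ i ∈ A, v i - ∑ i ∈ S \ A, v i‖ ≤ c) : sgnAvg S v ≤ c := by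
  unfold sgnAvg
  rw [div_le_iff₀ (by positivity)]
  refine (Finset.sum_le_sum fun A hA => h A (Finset.mem_powerset.1 hA)).trans ?_
  rw [Finset.sum_const, Finset.card_powerset, nsmul_eq_mul, mul_comm]
  push_cast
  exact le_rfl

end LFS
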