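import Pool.Agent.Lib.MP_0d9d33_an.Build

/-!
# Smooth approximation of Lipschitz functions on finite subsets of a normed space

On a finite set every `2`-Lipschitz function is a lattice polynomial of affine functions with
gradients of norm at most `2`; smoothing the lattice operations gives uniformly differentiable
functions. No assumption on the normed space is needed.
-/

set_option autoImplicit false

namespace LFS

/-- smoothed absolute value -/
noncomputable def ps (σ t : ℝ) : ℝ := Real.sqrt (σ ^ 2 + t ^ 2)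

theorem ps_sq (σ t : ℝ) : ps σ t ^ 2 = σ ^ 2 + t ^ 2 := Real.sq_sqrt (by positivity)

theorem ps_ge_abs (σ t : ℝ) : |t| ≤ ps σ t := Real.abs_le_sqrt (by nlinarith [sq_nonneg σ])

theorem ps_ge {σ : ℝ} (_hσ : 0 < σ) (t : ℝ) : σ ≤ ps σ t :=
  Real.le_sqrt_of_sq_le (by nlinarith [sq_nonneg t])

theorem ps_pos {σ : ℝ} (hσ : 0 < σ) (t : ℝ) : 0 < ps σ t := lt_of_lt_of_le hσ (ps_ge hσ t)

theorem ps_le {σ : ℝ} (hσ : 0 < σ) (t : ℝ) : ps σ t ≤ σ + |t| := by
  have h := abs_nonneg t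
  unfold ps
  rw [Real.sqrt_le_left (by positivity)]
  nlinarith [sq_abs t]

theorem ps_zero {σ : ℝ} (hσ : 0 < σ) : ps σ 0 = σ := by
  unfold ps
  rw [zero_pow two_ne_zero, add_zero, Real.sqrt_sq hσ.le]

/-- the derivative of `ps` -/
noncomputable def pw (σ t : ℝ) : ℝ := t / ps σ t

theorem pw_abs_le_one {σ : ℝ} (hσ : 0 < σ) (t : ℝ) : |pw σ t| ≤ 1 := by
  unfold pw
  rw [abs_div, abs_of_pos (ps_pos hσ t), div_le_one (ps_pos hσ t)]
  exact ps_ge_abs σ t

theorem pw_abs_le {σ : ℝ} (hσ : 0 < σ) (t : ℝ) : |pw σ t| ≤ |t| / σ := by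
  unfold pw
  rw [abs_div, abs_of_pos (ps_pos hσ t)]
  exact div_le_div_of_nonneg_left (abs_nonneg t) hσ (ps_ge hσ t)

theorem ps_taylor {σ : ℝ} (hσ : 0 < σ) (a b : ℝ) :
    |ps σ b - ps σ a - pw σ a * (b - a)| ≤ (b - a) ^ 2 / σ := by
  have hA := ps_pos hσ a
  have hB := ps_pos hσ b
  have hA2 := ps_sq σ a
  have hB2 := ps_sq σ b
  have hAσ := ps_ge hσ a
  have e1 : ps σ b - ps σ a - pw σ a * (b - a) =
      (ps σ a * ps σ b - σ ^ 2 - a * b) / ps σ a := by
    unfold pw
    rw [eq_div_iff hA.ne']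
    have : (ps σ b - ps σ a - a / ps σ a * (b - a)) * ps σ a =
        ps σ a * ps σ b - ps σ a ^ 2 - a * (b - a) := by
      field_simp
    rw [this, hA2]
    ring
  have h1 : 0 ≤ ps σ a * ps σ b - σ ^ 2 - a * b := by
    have h3 : σ ^ 2 + a * b ≤ ps σ a * ps σ b := by
      refine le_of_sq_le_sq ?_ (by positivity)
      rw [mul_pow, hA2, hB2]
      nlinarith [sq_nonneg (σ * (a - b))]
    linarith
  have h2 : ps σ a * ps σ b - σ ^ 2 - a * b ≤ (b - a) ^ 2 / 2 := by
    nlinarith [sq_nonneg (ps σ a - ps σ b)]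
  rw [e1, abs_div, abs_of_pos hA, abs_of_nonneg h1]
  calc (ps σ a * ps σ b - σ ^ 2 - a * b) / ps σ a ≤ ((b - a) ^ 2 / 2) / σ :=
        div_le_div₀ (by positivity) h2 hσ hAσ
    _ ≤ (b - a) ^ 2 / σ := by
        refine div_le_div_of_nonneg_right ?_ hσ.le
        nlinarith [sq_nonneg (b - a)]

section

variable {X : Type*} [NormedAddCommGroup X] [NormedSpace ℝ X]

/-- affine images -/
theorem UD.affine {f : X → ℝ} {D : X → (X →L[ℝ] ℝ)} (h : UD 0 f D) (c k : ℝ) :
    UD 0 (fun x => c + k * f x) (fun x => k • D x) := by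
  intro ε hε
  obtain ⟨δ, hδ, h1⟩ := h (ε / (|k| + 1)) (by positivity)
  refine ⟨δ, hδ, fun x y hxy => ?_⟩
  have h2 := h1 x y hxy
  rw [zero_add] at h2 ⊢
  have e1 : c + k * f y - (c + k * f x) - (k • D x) (y - x) = k * (f y - f x - D x (y - x)) := by
    simp only [smul_apply, smul_eq_mul]
    ring
  rw [e1, abs_mul]
  calc |k| * |f y - f x - D x (y - x)| ≤ (|k| + 1) * (ε / (|k| + 1) * ‖y - x‖) := by
        refine mul_le_mul (by linarith) h2 (abs_nonneg _) (by positivity)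
    _ = ε * ‖y - x‖ := by field_simp

/-- smooth maximum of two functions -/
theorem smax {u v : X → ℝ} {Du Dv : X → (X →L[ℝ] ℝ)} {Λ : ℝ}
    (hu : ∀ x, ‖Du x‖ ≤ Λ) (hv : ∀ x, ‖Dv x‖ ≤ Λ) (hu' : UD 0 u Du) (hv' : UD 0 v Dv) {σ : ℝ}
    (hσ : 0 < σ) : ∃ (m : X → ℝ) (D : X → (X →L[ℝ] ℝ)), (∀ x, ‖D x‖ ≤ Λ) ∧ UD 0 m D ∧
      ∀ x, u x ≤ m x ∧ v x ≤ m x ∧ m x ≤ max (u x) (v x) + σ := by
  have hul : Lipc Λ u := by
    have := seg hu' hu
    rwa [zero_add] at this
  have hvl : Lipc Λ v := by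
    have := seg hv' hv
    rwa [zero_add] at this
  refine ⟨fun x => (u x + v x + ps σ (u x - v x)) / 2, fun x =>
    ((1 + pw σ (u x - v x)) / 2) • Du x + ((1 - pw σ (u x - v x)) / 2) • Dv x, ?_, ?_, ?_⟩
  · intro x
    have h1 := abs_le.1 (pw_abs_le_one hσ (u x - v x))
    refine (norm_add_le _ _).trans ?_
    rw [norm_smul, norm_smul, Real.norm_eq_abs, Real.norm_eq_abs,
      abs_of_nonneg (by linarith : 0 ≤ (1 + pw σ (u x - v x)) / 2),
      abs_of_nonneg (by linarith : 0 ≤ (1 - pw σ (u x - v x)) / 2)]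
    have h2 := mul_le_mul_of_nonneg_left (hu x)
      (by linarith : 0 ≤ (1 + pw σ (u x - v x)) / 2)
    have h3 := mul_le_mul_of_nonneg_left (hv x)
      (by linarith : 0 ≤ (1 - pw σ (u x - v x)) / 2)
    linarith
  · intro ε hε
    obtain ⟨δ1, hδ1, h1⟩ := hu' (ε / 4) (by positivity)
    obtain ⟨δ2, hδ2, h2⟩ := hv' (ε / 4) (by positivity)
    refine ⟨min (min δ1 δ2) (ε * σ / (8 * (Λ ^ 2 + 1))), by positivity, fun x y hxy => ?_⟩
    have hxy1 : ‖y - x‖ ≤ δ1 := hxy.trans ((min_le_left _ _).trans (min_le_left _ _))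
    have hxy2 : ‖y - x‖ ≤ δ2 := hxy.trans ((min_le_left _ _).trans (min_le_right _ _))
    have hxy3 : ‖y - x‖ ≤ ε * σ / (8 * (Λ ^ 2 + 1)) := hxy.trans (min_le_right _ _)
    have h3 := h1 x y hxy1
    have h4 := h2 x y hxy2
    rw [zero_add] at h3 h4 ⊢
    set a := u x - v x with ha
    set b := u y - v y with hb
    set Ru := u y - u x - Du x (y - x) with hRu
    set Rv := v y - v x - Dv x (y - x) with hRv
    have e1 : (u y + v y + ps σ b) / 2 - (u x + v x + ps σ a) / 2 -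
        (((1 + pw σ a) / 2) • Du x + ((1 - pw σ a) / 2) • Dv x) (y - x) =
        (Ru + Rv) / 2 + (ps σ b - ps σ a - pw σ a * (b - a)) / 2 + pw σ a * (Ru - Rv) / 2 := by
      simp only [add_apply, smul_apply, smul_eq_mul, hRu, hRv, ha, hb]
      ring
    rw [e1]
    have h5 := pw_abs_le_one hσ a
    have h6 : |pw σ a * (Ru - Rv)| ≤ |Ru| + |Rv| := by
      rw [abs_mul]
      have := abs_sub Ru Rv
      have h7 := abs_nonneg (Ru - Rv)
      nlinarith
    have h7 : |ps σ b - ps σ a - pw σ a * (b - a)| ≤ ε / 2 * ‖y - x‖ := by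
      refine (ps_taylor hσ a b).trans ?_
      rw [div_le_iff₀ hσ]
      have h8 : |b - a| ≤ 2 * Λ * ‖y - x‖ := by
        have h9 := hul y x
        have h10 := hvl y x
        have e2 : b - a = (u y - u x) - (v y - v x) := by rw [ha, hb]; ring
        rw [e2]
        refine (abs_sub _ _).trans ?_
        linarith
      have h11 : (b - a) ^ 2 ≤ (2 * Λ * ‖y - x‖) ^ 2 := by
        rw [← sq_abs (b - a)]
        have := abs_nonneg (b - a)
        nlinarith
      have h12 : Λ ^ 2 * ‖y - x‖ ≤ ε * σ / 8 := by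
        calc Λ ^ 2 * ‖y - x‖ ≤ (Λ ^ 2 + 1) * (ε * σ / (8 * (Λ ^ 2 + 1))) := by
              refine mul_le_mul (by linarith) hxy3 (norm_nonneg _) (by positivity)
          _ = ε * σ / 8 := by field_simp
      have h13 := norm_nonneg (y - x)
      calc (b - a) ^ 2 ≤ (2 * Λ * ‖y - x‖) ^ 2 := h11
        _ = 4 * (Λ ^ 2 * ‖y - x‖) * ‖y - x‖ := by ring
        _ ≤ 4 * (ε * σ / 8) * ‖y - x‖ := by
            refine mul_le_mul_of_nonneg_right ?_ h13
            linarith
        _ = _ := by ring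
    have h8 : |(Ru + Rv) / 2| ≤ (|Ru| + |Rv|) / 2 := by
      rw [abs_div, abs_of_pos (by norm_num : (0 : ℝ) < 2)]
      have := abs_add_le Ru Rv
      linarith
    have h9 : |(ps σ b - ps σ a - pw σ a * (b - a)) / 2| ≤ ε / 4 * ‖y - x‖ := by
      rw [abs_div, abs_of_pos (by norm_num : (0 : ℝ) < 2)]
      linarith
    have h10 : |pw σ a * (Ru - Rv) / 2| ≤ (|Ru| + |Rv|) / 2 := by
      rw [abs_div, abs_of_pos (by norm_num : (0 : ℝ) < 2)]
      linarith
    refine (abs_add_le _ _).trans ?_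
    have h11 := abs_add_le ((Ru + Rv) / 2) ((ps σ b - ps σ a - pw σ a * (b - a)) / 2)
    have h12 := norm_nonneg (y - x)
    nlinarith
  · intro x
    have h1 := ps_ge_abs σ (u x - v x)
    have h2 := ps_le hσ (u x - v x)
    have h3 := abs_le.1 (le_refl |u x - v x|)
    have h4 : max (u x) (v x) = (u x + v x + |u x - v x|) / 2 := by
      rcases le_total (u x) (v x) with h | h
      · rw [max_eq_right h, abs_of_nonpos (by linarith)]
        ring
      · rw [max_eq_left h, abs_of_nonneg (by linarith)]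
        ring
    refine ⟨?_, ?_, ?_⟩
    · linarith
    · linarith
    · rw [h4]
      linarith

/-- a smooth substitute for the cone with vertex `z`, on a finite set -/
theorem cone_fin (z : X) (S : Finset X) : ∀ κ : ℝ, 0 < κ → ∃ (c : X → ℝ)
    (D : X → (X →L[ℝ] ℝ)), (∀ x, ‖D x‖ ≤ 1) ∧ UD 0 c D ∧ (∀ x, 0 ≤ c x) ∧ c z ≤ κ ∧
      ∀ y ∈ S, ‖y - z‖ ≤ c y := by
  classical
  induction S using Finset.induction_on with
  | empty =>
    intro κ hκ
    refine ⟨fun _ => 0, fun _ => 0, fun x => by rw [norm_zero]; norm_num, fun ε hε =>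
      ⟨1, one_pos, fun x y _ => ?_⟩, fun x => le_rfl, hκ.le, by simp⟩
    simp only [sub_self, zero_apply, abs_zero, zero_add]
    positivity
  | insert y S hy ih =>
    intro κ hκ
    obtain ⟨c, D, h1, h2, h3, h4, h5⟩ := ih (κ / 2) (by positivity)
    have hσ : 0 < κ / 2 := by positivity
    obtain ⟨J, hJ1, hJ2⟩ := exists_dual_vector'' ℝ (y - z)
    have hJ3 : UD 0 (fun x => J (x - z)) (fun _ => J) := by
      intro ε hε
      refine ⟨1, one_pos, fun x w _ => ?_⟩
      have e : J (w - z) - J (x - z) - J (w - x) = 0 := by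
        rw [← map_sub, ← map_sub]
        simp
      rw [e, abs_zero]
      positivity
    obtain ⟨m, Dm, g1, g2, g3⟩ := smax h1 (fun _ => hJ1) h2 hJ3 hσ
    refine ⟨m, Dm, g1, g2, fun x => (h3 x).trans (g3 x).1, ?_, fun w hw => ?_⟩
    · refine (g3 z).2.2.trans ?_
      rw [sub_self, map_zero]
      have := max_le h4 hσ.le
      linarith
    · rcases Finset.mem_insert.1 hw with rfl | hw
      · have h6 := (g3 w).2.1
        rw [hJ2] at h6
        exact h6
      · exact (h5 w hw).trans (g3 w).1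

/-- smooth approximation on a finite set -/
theorem approx_finset {t : X → ℝ} {r : ℝ} (ht : Lipc 2 t) (htr : ∀ x, |t x| ≤ r)
    (S₀ S : Finset X) : S ⊆ S₀ → ∀ κ : ℝ, 0 < κ → ∃ (f : X → ℝ)
      (D : X → (X →L[ℝ] ℝ)), (∀ x, ‖D x‖ ≤ 2) ∧ UD 0 f D ∧ (∀ x, -r ≤ f x) ∧
      (∀ x, f x ≤ r + κ) ∧ (∀ x ∈ S₀, f x ≤ t x + κ) ∧ ∀ z ∈ S, t z - κ ≤ f z := by
  classical
  induction S using Finset.induction_on with
  | empty =>
    intro _ κ hκ
    refine ⟨fun _ => -r, fun _ => 0, fun x => by rw [norm_zero]; norm_num, fun ε hε =>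
      ⟨1, one_pos, fun x y _ => ?_⟩, fun x => le_rfl, fun x => ?_, fun x _ => ?_, by simp⟩
    · simp only [sub_self, zero_apply, abs_zero, zero_add]
      positivity
    · have := abs_le.1 (htr x)
      linarith
    · have := (abs_le.1 (htr x)).1
      linarith
  | insert z S hz ih =>
    intro hS κ hκ
    obtain ⟨f, D, h1, h2, h3, h4, h4', h5⟩ :=
      ih (fun y hy => hS (Finset.mem_insert_of_mem hy)) (κ / 2) (by positivity)
    have hσ : 0 < κ / 2 := by positivity
    obtain ⟨c, Dc, hc1, hc2, hc3, hc4, hc5⟩ := cone_fin z S₀ (κ / 2) hσ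
    have hc6 := hc2.affine (t z) (-2)
    have hc7 : ∀ x, ‖(-2 : ℝ) • Dc x‖ ≤ 2 := fun x => by
      rw [norm_smul, Real.norm_eq_abs, abs_neg, abs_of_pos (by norm_num : (0 : ℝ) < 2)]
      linarith [hc1 x]
    obtain ⟨m, Dm, g1, g2, g3⟩ := smax h1 hc7 h2 hc6 hσ
    refine ⟨m, Dm, g1, g2, fun x => (h3 x).trans (g3 x).1, fun x => ?_, fun x hx => ?_,
      fun y hy => ?_⟩
    · refine (g3 x).2.2.trans ?_
      have h6 : t z + -2 * c x ≤ r + κ / 2 := by
        have h7 := (abs_le.1 (htr z)).2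
        have h8 := hc3 x
        linarith
      have h9 : max (f x) (t z + -2 * c x) ≤ r + κ / 2 := max_le (h4 x) h6
      linarith
    · refine (g3 x).2.2.trans ?_
      have h6 : t z + -2 * c x ≤ t x := by
        have h7 := (abs_le.1 (ht x z)).1
        have h8 := hc5 x hx
        linarith
      have h9 : max (f x) (t z + -2 * c x) ≤ t x + κ / 2 :=
        max_le (h4' x hx) (by linarith)
      linarith
    · rcases Finset.mem_insert.1 hy with rfl | hy
      · have h6 := (g3 y).2.1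
        linarith
      · have h6 := (g3 y).1
        have h7 := h5 y hy
        linarith

theorem smx_all (X : Type*) [NormedAddCommGroup X] [NormedSpace ℝ X] : SMX X 2 := by
  intro t r hr ht htr S θ hθ
  obtain ⟨f, D, h1, h2, h3, h4, h4', h5⟩ :=
    approx_finset ht htr S S subset_rfl (min θ r) (lt_min hθ hr)
  refine ⟨f, D, ⟨h1, h2, fun x => ?_⟩, fun x hx => ?_⟩
  · have h6 := h3 x
    have h7 := h4 x
    have h9 : min θ r ≤ r := min_le_right _ _
    rw [abs_le]
    constructor <;> linarith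
  · have h6 := h4' x hx
    have h7 := h5 x hx
    have h9 : min θ r ≤ θ := min_le_left _ _
    rw [abs_le]
    constructor <;> linarith

end

end LFS
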