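import Pool.Agent.Lib.MP_0d9d33_an.Lower
import Pool.Agent.Lib.MP_0d9d33_an.Smooth
import Pool.Agent.Lib.MP_0d9d33_an.LF
import Pool.Agent.Lib.MP_0d9d33_an.SgnAvg

/-!
# From finitely supported measures on `X` to the Lipschitz-free space over a subset
-/

set_option autoImplicit false

namespace LFS

open Filter Topology

/-- The dual of `X` has equal-norm type `s`: averages over signs of the norms of signed sums of `N`
functionals of norm at most one are `O(N ^ (1 / s))`. This holds in particular if `X*` has type `s`. -/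
def DualType (X : Type*) [NormedAddCommGroup X] [NormedSpace ℝ X] (s : ℝ) : Prop :=
  ∃ T : ℝ, ∀ (S : Finset ℕ) (v : ℕ → (X →L[ℝ] ℝ)), (∀ i ∈ S, ‖v i‖ ≤ 1) →
    sgnAvg S v ≤ T * (S.card : ℝ) ^ (1 / s)

theorem sgnAvg_smul {W : Type*} [NormedAddCommGroup W] [NormedSpace ℝ W] (S : Finset ℕ)
    (v : ℕ → W) {c : ℝ} (hc : 0 ≤ c) : sgnAvg S (fun i => c • v i) = c * sgnAvg S v := by
  unfold sgnAvg
  rw [mul_div_assoc', Finset.mul_sum]
  congr 1
  refine Finset.sum_congr rfl fun A _ => ?_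
  rw [← Finset.smul_sum, ← Finset.smul_sum, ← smul_sub, norm_smul, Real.norm_eq_abs,
    abs_of_nonneg hc]

theorem kn_of_type {X : Type*} [NormedAddCommGroup X] [NormedSpace ℝ X] {s : ℝ} (hs : 1 < s)
    (h : DualType X s) : ∃ T : ℝ, 1 ≤ T ∧ ∀ N : ℕ, 1 ≤ N → KN X N (T * (N : ℝ) ^ (1 / s)) := by
  obtain ⟨T, hT⟩ := h
  have hs0 : 0 < s := by linarith
  refine ⟨max T 1, le_max_right _ _, fun N hN C hC ρ hρ hv => ?_⟩
  obtain ⟨v, h1, h2⟩ := exists_sgnAvg' C
  rw [h2 0, ← sgnAvg_eq]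
  have h3 : sgnAvg (Finset.range C.length) v = ρ * sgnAvg (Finset.range C.length)
      (fun i => ρ⁻¹ • v i) := by
    rcases hρ.eq_or_lt with h0 | h0
    · rw [← h0, zero_mul]
      have h4 : ∀ i ∈ Finset.range C.length, v i = 0 := fun i hi => by
        have := hv _ (h1 i hi)
        rw [← h0] at this
        exact norm_le_zero_iff.1 this
      refine le_antisymm (sgnAvg_le fun A hA => ?_) (by rw [sgnAvg_eq]; exact sgnAvg'_nonneg _ _ _)
      rw [Finset.sum_eq_zero fun i hi => h4 i (hA hi),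
        Finset.sum_eq_zero fun i hi => h4 i (Finset.mem_sdiff.1 hi).1, sub_zero, norm_zero]
    · rw [← sgnAvg_smul _ _ hρ]
      congr 1
      funext i
      rw [smul_smul, mul_inv_cancel₀ h0.ne', one_smul]
  rw [h3]
  refine mul_le_mul_of_nonneg_left ?_ hρ
  refine (hT _ _ fun i hi => ?_).trans ?_
  · rw [norm_smul, norm_inv, Real.norm_eq_abs, abs_of_nonneg hρ]
    rcases hρ.eq_or_lt with h0 | h0
    · rw [← h0, inv_zero, zero_mul]
      exact zero_le_one
    · rw [inv_mul_le_iff₀ h0, mul_one]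
      exact hv _ (h1 i hi)
  · rw [Finset.card_range]
    refine mul_le_mul (le_max_left _ _) ?_ (by positivity) (le_trans zero_le_one (le_max_right _ _))
    exact Real.rpow_le_rpow (by positivity) (by exact_mod_cast hC) (by positivity)

section

variable {X : Type*} [NormedAddCommGroup X] [NormedSpace ℝ X]
variable {M : Type*} [MetricSpace M] {b : M}

omit [NormedSpace ℝ X] [MetricSpace M] in
theorem pr_map (j : M → X) (μ : M →₀ ℝ) (f : X → ℝ) :
    pr (μ.mapDomain j) f = μ.sum fun x t => t * (f (j x) - f 0) := by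
  unfold pr
  rw [Finsupp.sum_mapDomain_index (fun x => by simp) (fun x a b => by ring)]

omit [NormedSpace ℝ X] in
/-- pull back of a Lipschitz function -/
theorem exists_pull {j : M → X} (hj : j b = 0) {B : ℝ} (hB : 0 ≤ B)
    (h2 : ∀ x y, ‖j x - j y‖ ≤ B * dist x y) {K : ℝ} (hK : 0 ≤ K) {f : X → ℝ} (hf : Lipc K f) :
    ∃ F : Lip0 M b, ‖F‖ ≤ K * B ∧ ∀ μ : M →₀ ℝ, pr (μ.mapDomain j) f = fin b μ F := by
  have h3 : ∀ x y, |(f (j x) - f 0) - (f (j y) - f 0)| ≤ K * B * dist x y := by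
    intro x y
    rw [sub_sub_sub_cancel_right, mul_assoc]
    exact (hf _ _).trans (mul_le_mul_of_nonneg_left (h2 x y) hK)
  let F : Lip0 M b := ⟨fun x => f (j x) - f 0, by simp [hj], K * B, by positivity, h3⟩
  refine ⟨F, Lip0.norm_le (by positivity) h3, fun μ => ?_⟩
  rw [pr_map, fin_apply]

omit [NormedSpace ℝ X] in
/-- extension of a Lipschitz function -/
theorem exists_push {j : M → X} (hj : j b = 0) {A : ℝ} (hA : 0 ≤ A)
    (h1 : ∀ x y, dist x y ≤ A * ‖j x - j y‖) {F : Lip0 M b} (hF : ‖F‖ ≤ 1) :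
    ∃ f : X → ℝ, Lipc A f ∧ ∀ μ : M →₀ ℝ, pr (μ.mapDomain j) f = fin b μ F := by
  have hinj : Function.Injective j := by
    intro x y hxy
    have := h1 x y
    rw [hxy, sub_self, norm_zero, mul_zero] at this
    exact dist_le_zero.1 this
  have : Nonempty M := ⟨b⟩
  set u : X → ℝ := fun y => F (Function.invFun j y) with hu
  have hu' : ∀ x, u (j x) = F x := by
    intro x
    simp only [hu, Function.leftInverse_invFun hinj x]
  have hlip : LipschitzOnWith (Real.toNNReal A) u (Set.range j) := by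
    refine LipschitzOnWith.of_dist_le_mul ?_
    rintro _ ⟨x, rfl⟩ _ ⟨y, rfl⟩
    rw [hu', hu', Real.dist_eq, dist_eq_norm, Real.coe_toNNReal _ hA]
    refine (Lip0.norm_spec F x y).trans ?_
    have := dist_nonneg (x := x) (y := y)
    nlinarith [h1 x y]
  obtain ⟨f, hf1, hf2⟩ := hlip.extend_real
  have hf3 : ∀ x, f (j x) = F x := fun x => by rw [← hf2 ⟨x, rfl⟩, hu']
  refine ⟨f, ?_, fun μ => ?_⟩
  · intro x y
    have := hf1.dist_le_mul x y
    rwa [Real.dist_eq, dist_eq_norm, Real.coe_toNNReal _ hA] at this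
  · rw [pr_map, fin_apply]
    refine Finsupp.sum_congr fun x _ => ?_
    have h0 : f 0 = 0 := by rw [← hj, hf3, Lip0.base]
    rw [hf3, h0, sub_zero]

/-- signed combination of functionals -/
noncomputable def cv (G : ℕ → (Lip0 M b →L[ℝ] ℝ)) : List (Dat X) → List Bool → (Lip0 M b →L[ℝ] ℝ)
  | [], _ => 0
  | _ :: _, [] => 0
  | d :: L, s :: e => cv G L e + sg s • G d.n

theorem pr_cb (j : M → X) (μ : ℕ → M →₀ ℝ) (f : X → ℝ) (F : Lip0 M b)
    (h : ∀ n, pr ((μ n).mapDomain j) f = fin b (μ n) F) (L : List (Dat X)) (e : List Bool) :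
    pr (cb (fun n => (μ n).mapDomain j) L e) f = cv (fun n => fin b (μ n)) L e F := by
  induction L generalizing e with
  | nil => simp [cb, cv, pr_zero_left]
  | cons d L ih =>
    cases e with
    | nil => simp [cb, cv, pr_zero_left]
    | cons s e =>
      simp only [cb, cv]
      rw [pr_add_left, pr_smul_left, ih, h]
      rfl

theorem Av_cv (G : ℕ → (Lip0 M b →L[ℝ] ℝ)) (L : List (Dat X)) (w : Lip0 M b →L[ℝ] ℝ) :
    Av L.length (fun e => ‖w + cv G L e‖) = US (L.map fun d => G d.n) w := by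
  induction L generalizing w with
  | nil => simp [Av, cv, US]
  | cons d L ih =>
    rw [List.length_cons, List.map_cons]
    simp only [Av, US, cv]
    rw [← ih, ← ih]
    congr 3
    · funext e
      congr 1
      simp only [sg, if_true, one_smul]
      abel
    · funext e
      congr 1
      simp only [sg, Bool.false_eq_true, if_false]
      module

theorem sgnAvg_perturb {W : Type*} [NormedAddCommGroup W] (S : Finset ℕ) (v v' : ℕ → W) :
    sgnAvg S v ≤ sgnAvg S v' + ∑ i ∈ S, ‖v i - v' i‖ := by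
  unfold sgnAvg
  rw [div_add' _ _ _ (by positivity), div_le_div_iff_of_pos_right (by positivity)]
  have h1 : (∑ i ∈ S, ‖v i - v' i‖) * 2 ^ S.card =
      ∑ _A ∈ S.powerset, ∑ i ∈ S, ‖v i - v' i‖ := by
    rw [Finset.sum_const, Finset.card_powerset, nsmul_eq_mul, mul_comm]
    push_cast
    rfl
  rw [h1, ← Finset.sum_add_distrib]
  refine Finset.sum_le_sum fun A hA => ?_
  have hA' := Finset.mem_powerset.1 hA
  have e1 : ∑ i ∈ A, v i - ∑ i ∈ S \ A, v i = (∑ i ∈ A, v' i - ∑ i ∈ S \ A, v' i) +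
      (∑ i ∈ A, (v i - v' i) - ∑ i ∈ S \ A, (v i - v' i)) := by
    rw [Finset.sum_sub_distrib, Finset.sum_sub_distrib]
    abel
  rw [e1]
  refine (norm_add_le _ _).trans (add_le_add le_rfl ?_)
  refine (norm_sub_le _ _).trans ?_
  refine (add_le_add (norm_sum_le _ _) (norm_sum_le _ _)).trans (le_of_eq ?_)
  rw [add_comm, Finset.sum_sdiff hA']

end

end LFS
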